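import Pool.Agent.Lib.MP_e45c49_an.NoSimp

/-!
# Midpoint derivation of the unit ball
-/

set_option autoImplicit false

open Filter Topology

namespace Pool.Agent.Lib.UNS

variable {X : Type} [NormedAddCommGroup X] [NormedSpace ℝ X]

/-- midpoints of far pairs -/
def Mid (ε : ℝ) (C : Set X) : Set X :=
  {x | ∃ y ∈ C, ∃ z ∈ C, ε ≤ ‖y - z‖ ∧ x = (1 / 2 : ℝ) • (y + z)}

/-- derived sets of the unit ball -/
def Cs (X : Type) [NormedAddCommGroup X] [NormedSpace ℝ X] (ε η : ℝ) : ℕ → Set X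
  | 0 => Metric.closedBall 0 1
  | k + 1 => convexHull ℝ (Mid ε (Cs X ε η k) ∪ Metric.closedBall 0 η)

/-- Martingale-like structures. -/
def Mart (ε η : ℝ) (n : ℕ) (x : X) : Prop :=
  ∃ (ι : Type) (_ : Fintype ι) (w : ι → ℝ) (s : ι → ℕ → X) (P : ℝ),
    (∀ i, 0 ≤ w i) ∧ ∑ i, w i = 1 ∧ (∀ i j, ‖s i j‖ ≤ 1) ∧ 0 ≤ P ∧ P ≤ 1 ∧ ‖x‖ ≤ P + η ∧
    (∀ (b : X) (γ : ℕ → ℝ), ‖b + (∑ j ∈ Finset.range n, γ j) • x‖ ^ 2
      ≤ ∑ i, w i * ‖b + ∑ j ∈ Finset.range n, γ j • s i j‖ ^ 2) ∧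
    (∀ k < n, ∀ (b : X) (γ : ℕ → ℝ), ∑ j ∈ Finset.Ico k n, γ j = -1 →
      (ε / 2) ^ 2 * P ≤ ∑ i, w i * ‖b + ∑ j ∈ Finset.range n, γ j • s i j‖ ^ 2)

theorem norm_sq_convex (x y : X) {a b : ℝ} (ha : 0 ≤ a) (hb : 0 ≤ b) (hab : a + b = 1) :
    ‖a • x + b • y‖ ^ 2 ≤ a * ‖x‖ ^ 2 + b * ‖y‖ ^ 2 := by
  have h1 : ‖a • x + b • y‖ ≤ a * ‖x‖ + b * ‖y‖ := by
    refine (norm_add_le _ _).trans ?_
    rw [norm_smul, norm_smul, Real.norm_eq_abs, Real.norm_eq_abs, abs_of_nonneg ha,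
      abs_of_nonneg hb]
  have h2 : ‖a • x + b • y‖ ^ 2 ≤ (a * ‖x‖ + b * ‖y‖) ^ 2 :=
    pow_le_pow_left₀ (norm_nonneg _) h1 2
  refine h2.trans ?_
  have hb' : b = 1 - a := by linarith
  subst hb'
  nlinarith [mul_nonneg ha hb, sq_nonneg (‖x‖ - ‖y‖),
    mul_nonneg (mul_nonneg ha hb) (sq_nonneg (‖x‖ - ‖y‖))]

theorem mart_zero (ε η : ℝ) (hη : 0 ≤ η) (x : X) (hx : ‖x‖ ≤ 1) : Mart ε η 0 x := by
  refine ⟨Unit, inferInstance, fun _ => 1, fun _ _ => 0, 1, fun _ => zero_le_one, by simp,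
    by simp, zero_le_one, le_rfl, by linarith, ?_, ?_⟩
  · intro b γ
    simp
  · intro k hk
    omega

theorem mart_ball (ε η : ℝ) (hη1 : η ≤ 1) (n : ℕ) (x : X) (hx : ‖x‖ ≤ η) : Mart ε η n x := by
  refine ⟨Unit, inferInstance, fun _ => 1, fun _ _ => x, 0, fun _ => zero_le_one, by simp,
    fun _ _ => hx.trans hη1, le_rfl, zero_le_one, by linarith, ?_, ?_⟩
  · intro b γ
    simp only [Finset.univ_unique, Finset.sum_singleton, one_mul]
    rw [Finset.sum_smul]
  · intro k _ b γ _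
    simp only [mul_zero, Finset.univ_unique, Finset.sum_singleton, one_mul]
    positivity

theorem mart_convex (ε η : ℝ) (n : ℕ) : Convex ℝ {x : X | Mart ε η n x} := by
  rintro x ⟨ι, hι, w, s, P, h1, h2, h3, h4, h5, h6, h7, h8⟩
    x' ⟨ι', hι', w', s', P', h1', h2', h3', h4', h5', h6', h7', h8'⟩ a b ha hb hab
  refine ⟨ι ⊕ ι', inferInstance, Sum.elim (fun i => a * w i) (fun i => b * w' i),
    Sum.elim s s', a * P + b * P', ?_, ?_, ?_, by positivity, ?_, ?_, ?_, ?_⟩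
  · rintro (i | i)
    · exact mul_nonneg ha (h1 i)
    · exact mul_nonneg hb (h1' i)
  · rw [Fintype.sum_sum_type]
    simp only [Sum.elim_inl, Sum.elim_inr]
    rw [← Finset.mul_sum, ← Finset.mul_sum, h2, h2']
    linarith
  · rintro (i | i) j
    · exact h3 i j
    · exact h3' i j
  · calc a * P + b * P' ≤ a * 1 + b * 1 :=
          add_le_add (mul_le_mul_of_nonneg_left h5 ha) (mul_le_mul_of_nonneg_left h5' hb)
      _ = 1 := by linarith
  · refine (norm_add_le _ _).trans ?_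
    rw [norm_smul, norm_smul, Real.norm_eq_abs, Real.norm_eq_abs, abs_of_nonneg ha,
      abs_of_nonneg hb]
    have e1 := mul_le_mul_of_nonneg_left h6 ha
    have e2 := mul_le_mul_of_nonneg_left h6' hb
    have e3 : η = a * η + b * η := by rw [← add_mul, hab, one_mul]
    linarith
  · intro b0 γ
    rw [Fintype.sum_sum_type]
    simp only [Sum.elim_inl, Sum.elim_inr]
    have e1 := mul_le_mul_of_nonneg_left (h7 b0 γ) ha
    have e2 := mul_le_mul_of_nonneg_left (h7' b0 γ) hb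
    rw [Finset.mul_sum] at e1 e2
    have e3 : b0 + (∑ j ∈ Finset.range n, γ j) • (a • x + b • x')
        = a • (b0 + (∑ j ∈ Finset.range n, γ j) • x)
          + b • (b0 + (∑ j ∈ Finset.range n, γ j) • x') := by
      have : b0 = a • b0 + b • b0 := by rw [← add_smul, hab, one_smul]
      conv_lhs => rw [this]
      module
    rw [e3]
    refine (norm_sq_convex _ _ ha hb hab).trans ?_
    simp only [mul_assoc]
    linarith
  · intro k hk b0 γ hγ
    rw [Fintype.sum_sum_type]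
    simp only [Sum.elim_inl, Sum.elim_inr]
    have e1 := mul_le_mul_of_nonneg_left (h8 k hk b0 γ hγ) ha
    have e2 := mul_le_mul_of_nonneg_left (h8' k hk b0 γ hγ) hb
    rw [Finset.mul_sum] at e1 e2
    simp only [mul_assoc]
    have e3 : (ε / 2) ^ 2 * (a * P + b * P') = a * ((ε / 2) ^ 2 * P) + b * ((ε / 2) ^ 2 * P') := by
      ring
    rw [e3]
    linarith

theorem mart_mid (ε η : ℝ) (hε : 0 ≤ ε) (n : ℕ) (y z : X) (hy : Mart ε η n y) (hz : Mart ε η n z)
    (hy1 : ‖y‖ ≤ 1) (hz1 : ‖z‖ ≤ 1) (hyz : ε ≤ ‖y - z‖) :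
    Mart ε η (n + 1) ((1 / 2 : ℝ) • (y + z)) := by
  obtain ⟨ι, hι, w, s, P, h1, h2, h3, h4, h5, h6, h7, h8⟩ := hy
  obtain ⟨ι', hι', w', s', P', h1', h2', h3', h4', h5', h6', h7', h8'⟩ := hz
  -- generic rewriting of the sum
  have hsum : ∀ (t : ℕ → X) (y0 : X) (b : X) (γ : ℕ → ℝ),
      b + ∑ j ∈ Finset.range (n + 1), γ j • (Nat.casesOn j y0 t : X)
        = (b + γ 0 • y0) + ∑ j ∈ Finset.range n, γ (j + 1) • t j := by
    intro t y0 b γ
    rw [Finset.sum_range_succ']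
    simp only
    abel
  have hmart : ∀ (b : X) (γ : ℕ → ℝ) (y0 : X),
      (b + γ 0 • y0) + (∑ j ∈ Finset.range n, γ (j + 1)) • y0
        = b + (∑ j ∈ Finset.range (n + 1), γ j) • y0 := by
    intro b γ y0
    rw [Finset.sum_range_succ', add_smul]
    abel
  refine ⟨ι ⊕ ι', inferInstance, Sum.elim (fun i => 1 / 2 * w i) (fun i => 1 / 2 * w' i),
    Sum.elim (fun i j => Nat.casesOn j y (s i)) (fun i j => Nat.casesOn j z (s' i)),
    1 / 2 * P + 1 / 2 * P', ?_, ?_, ?_, by positivity, ?_, ?_, ?_, ?_⟩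
  · rintro (i | i)
    · exact mul_nonneg (by norm_num) (h1 i)
    · exact mul_nonneg (by norm_num) (h1' i)
  · rw [Fintype.sum_sum_type]
    simp only [Sum.elim_inl, Sum.elim_inr]
    rw [← Finset.mul_sum, ← Finset.mul_sum, h2, h2']
    norm_num
  · rintro (i | i) j
    · cases j with
      | zero => exact hy1
      | succ j => exact h3 i j
    · cases j with
      | zero => exact hz1
      | succ j => exact h3' i j
  · linarith
  · rw [norm_smul, Real.norm_eq_abs, abs_of_nonneg (by norm_num : (0 : ℝ) ≤ 1 / 2)]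
    have := norm_add_le y z
    linarith
  · intro b γ
    rw [Fintype.sum_sum_type]
    simp only [Sum.elim_inl, Sum.elim_inr, hsum]
    have e1 := h7 (b + γ 0 • y) (fun j => γ (j + 1))
    have e2 := h7' (b + γ 0 • z) (fun j => γ (j + 1))
    rw [hmart] at e1 e2
    have e3 : b + (∑ j ∈ Finset.range (n + 1), γ j) • ((1 / 2 : ℝ) • (y + z))
        = (1 / 2 : ℝ) • (b + (∑ j ∈ Finset.range (n + 1), γ j) • y)
          + (1 / 2 : ℝ) • (b + (∑ j ∈ Finset.range (n + 1), γ j) • z) := by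
      module
    rw [e3]
    refine (norm_sq_convex _ _ (by norm_num) (by norm_num) (by norm_num)).trans ?_
    simp only [mul_assoc, ← Finset.mul_sum]
    linarith
  · intro k hk b γ hγ
    rw [Fintype.sum_sum_type]
    simp only [Sum.elim_inl, Sum.elim_inr, hsum, mul_assoc, ← Finset.mul_sum]
    cases k with
    | zero =>
      have e1 := h7 (b + γ 0 • y) (fun j => γ (j + 1))
      have e2 := h7' (b + γ 0 • z) (fun j => γ (j + 1))
      rw [hmart] at e1 e2
      rw [Finset.range_eq_Ico, hγ] at e1 e2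
      have e3 : ‖(1 / 2 : ℝ) • (b + (-1 : ℝ) • y) + (1 / 2 : ℝ) • (-(b + (-1 : ℝ) • z))‖ ^ 2
          ≤ 1 / 2 * ‖b + (-1 : ℝ) • y‖ ^ 2 + 1 / 2 * ‖-(b + (-1 : ℝ) • z)‖ ^ 2 :=
        norm_sq_convex _ _ (by norm_num) (by norm_num) (by norm_num)
      have e4 : (1 / 2 : ℝ) • (b + (-1 : ℝ) • y) + (1 / 2 : ℝ) • (-(b + (-1 : ℝ) • z))
          = (-(1 / 2) : ℝ) • (y - z) := by module
      rw [e4, norm_neg, norm_smul, Real.norm_eq_abs, abs_neg,
        abs_of_nonneg (by norm_num : (0 : ℝ) ≤ 1 / 2)] at e3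
      have e5 : (ε / 2) ^ 2 ≤ (1 / 2 * ‖y - z‖) ^ 2 :=
        pow_le_pow_left₀ (by positivity) (by linarith) 2
      have e6 : (ε / 2) ^ 2 * (1 / 2 * P + 1 / 2 * P') ≤ (ε / 2) ^ 2 * 1 :=
        mul_le_mul_of_nonneg_left (by linarith) (by positivity)
      linarith
    | succ k =>
      have hγ' : ∑ j ∈ Finset.Ico k n, γ (j + 1) = -1 := by
        rw [← hγ, Finset.sum_Ico_add' γ k n 1]
      have e1 := h8 k (by omega) (b + γ 0 • y) (fun j => γ (j + 1)) hγ'
      have e2 := h8' k (by omega) (b + γ 0 • z) (fun j => γ (j + 1)) hγ'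
      linarith

theorem Cs_sub_ball (ε η : ℝ) (hη1 : η ≤ 1) (n : ℕ) :
    Cs X ε η n ⊆ Metric.closedBall 0 1 := by
  induction n with
  | zero => exact subset_rfl
  | succ n ih =>
    refine convexHull_min ?_ (convex_closedBall _ _)
    rintro x (⟨y, hy, z, hz, _, rfl⟩ | hx)
    · have hy' := ih hy
      have hz' := ih hz
      rw [mem_closedBall_zero_iff] at *
      rw [norm_smul, Real.norm_eq_abs, abs_of_nonneg (by norm_num : (0 : ℝ) ≤ 1 / 2)]
      have := norm_add_le y z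
      linarith
    · rw [mem_closedBall_zero_iff] at *
      linarith

theorem Cs_sub_mart (ε η : ℝ) (hε : 0 ≤ ε) (hη : 0 ≤ η) (hη1 : η ≤ 1) (n : ℕ) :
    Cs X ε η n ⊆ {x : X | Mart ε η n x} := by
  induction n with
  | zero =>
    intro x hx
    have hx' : x ∈ Metric.closedBall (0 : X) 1 := hx
    rw [mem_closedBall_zero_iff] at hx'
    exact mart_zero ε η hη x hx'
  | succ n ih =>
    refine convexHull_min ?_ (mart_convex ε η (n + 1))
    rintro x (⟨y, hy, z, hz, hyz, rfl⟩ | hx)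
    · have hy' := Cs_sub_ball ε η hη1 n hy
      have hz' := Cs_sub_ball ε η hη1 n hz
      rw [mem_closedBall_zero_iff] at hy' hz'
      exact mart_mid ε η hε n y z (ih hy) (ih hz) hy' hz' hyz
    · rw [mem_closedBall_zero_iff] at hx
      exact mart_ball ε η hη1 (n + 1) x hx

theorem mart_seminorm (ε η : ℝ) (hε : 0 < ε) (n : ℕ) (x : X) (hx : Mart ε η n x) (π0 : ℝ)
    (hπ0 : 0 < π0) (hx2 : π0 + η ≤ ‖x‖) :
    ∃ p ∈ PX X, (∀ i, p (e i) ≤ 1) ∧
      ∀ k, ∀ u ∈ Cv (Set.Iio k), ∀ v ∈ Cv (Set.Ico k n), ε / 2 * Real.sqrt π0 ≤ p (u - v) := by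
  obtain ⟨ι, hι, w, s, P, h1, h2, h3, h4, h5, h6, h7, h8⟩ := hx
  have hP : π0 ≤ P := by linarith
  let L : V →ₗ[ℝ] (ι → X) :=
    LinearMap.pi (fun i => Real.sqrt (w i) • Finsupp.linearCombination ℝ (s i))
  let p : Seminorm ℝ V := (normSeminorm ℝ (PiLp 2 (fun _ : ι => X))).comp
    ((WithLp.linearEquiv 2 ℝ (ι → X)).symm.toLinearMap ∘ₗ L)
  have hp : ∀ a, p a ^ 2 = ∑ i, ‖L a i‖ ^ 2 := by
    intro a
    change ‖(WithLp.toLp 2 (L a) : PiLp 2 (fun _ : ι => X))‖ ^ 2 = _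
    rw [PiLp.norm_sq_eq_of_L2]
  have hp' : ∀ a, p a ^ 2 = ∑ i, w i * ‖Finsupp.linearCombination ℝ (s i) a‖ ^ 2 := by
    intro a
    rw [hp]
    refine Finset.sum_congr rfl ?_
    intro i _
    have : L a i = Real.sqrt (w i) • Finsupp.linearCombination ℝ (s i) a := rfl
    rw [this, norm_smul, Real.norm_eq_abs, abs_of_nonneg (Real.sqrt_nonneg _), mul_pow,
      Real.sq_sqrt (h1 i)]
  refine ⟨p, ⟨ι, hι, L, hp⟩, ?_, ?_⟩
  · intro j
    have e1 := hp' (e j)
    have e2 : ∑ i, w i * ‖Finsupp.linearCombination ℝ (s i) (e j)‖ ^ 2 ≤ ∑ i, w i := by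
      refine Finset.sum_le_sum ?_
      intro i _
      have : Finsupp.linearCombination ℝ (s i) (e j) = s i j := by simp [e]
      rw [this]
      have h9 : ‖s i j‖ ^ 2 ≤ 1 := pow_le_one₀ (norm_nonneg _) (h3 i j)
      calc w i * ‖s i j‖ ^ 2 ≤ w i * 1 := mul_le_mul_of_nonneg_left h9 (h1 i)
        _ = w i := mul_one _
    rw [h2] at e2
    have e3 : 0 ≤ p (e j) := apply_nonneg _ _
    nlinarith
  · intro k u hu v hv
    have hkn : k < n := by
      by_contra hkn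
      have : Set.Ico k n = ∅ := Set.Ico_eq_empty hkn
      rw [this] at hv
      simp [Cv] at hv
    have hu' : ∀ j, k ≤ j → u j = 0 := by
      have hc : Convex ℝ {u : V | ∀ j, k ≤ j → u j = 0} := by
        intro a ha b hb c d _ _ _ j hj
        simp [ha j hj, hb j hj]
      refine (convexHull_min ?_ hc) hu
      rintro _ ⟨i, hi, rfl⟩ j hj
      have hi' : i < k := hi
      unfold e
      rw [Finsupp.single_apply, if_neg (by omega)]
    have hv' : (∀ j, n ≤ j → v j = 0) ∧ ∑ j ∈ Finset.Ico k n, v j = 1 := by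
      have hc : Convex ℝ {v : V | (∀ j, n ≤ j → v j = 0) ∧ ∑ j ∈ Finset.Ico k n, v j = 1} := by
        rintro a ⟨ha1, ha2⟩ b ⟨hb1, hb2⟩ c d _ _ hcd
        refine ⟨?_, ?_⟩
        · intro j hj
          simp [ha1 j hj, hb1 j hj]
        · simp only [Finsupp.add_apply, Finsupp.smul_apply, smul_eq_mul]
          rw [Finset.sum_add_distrib, ← Finset.mul_sum, ← Finset.mul_sum, ha2, hb2]
          linarith
      refine (convexHull_min ?_ hc) hv
      rintro _ ⟨i, hi, rfl⟩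
      have hi' : k ≤ i ∧ i < n := hi
      refine ⟨?_, ?_⟩
      · intro j hj
        unfold e
        rw [Finsupp.single_apply, if_neg (by omega)]
      · have : ∀ j ∈ Finset.Ico k n, (e i) j = if j = i then 1 else 0 := by
          intro j _
          unfold e
          rw [Finsupp.single_apply]
          simp only [eq_comm]
        rw [Finset.sum_congr rfl this, Finset.sum_ite_eq', if_pos (Finset.mem_Ico.mpr hi')]
    have hsum : ∑ j ∈ Finset.Ico k n, (u - v) j = -1 := by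
      have : ∀ j ∈ Finset.Ico k n, (u - v) j = - v j := by
        intro j hj
        rw [Finsupp.sub_apply, hu' j (Finset.mem_Ico.mp hj).1, zero_sub]
      rw [Finset.sum_congr rfl this, Finset.sum_neg_distrib, hv'.2]
    have e1 := h8 k hkn 0 (fun j => (u - v) j) hsum
    have e2 : ∀ i, Finsupp.linearCombination ℝ (s i) (u - v)
        = 0 + ∑ j ∈ Finset.range n, (u - v) j • s i j := by
      intro i
      rw [zero_add, Finsupp.linearCombination_apply]
      refine Finsupp.sum_of_support_subset _ ?_ _ (fun j _ => zero_smul ℝ _)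
      intro j hj
      rw [Finset.mem_range]
      by_contra hjn
      push Not at hjn
      refine (Finsupp.mem_support_iff.mp hj) ?_
      rw [Finsupp.sub_apply, hu' j (by omega), hv'.1 j hjn, sub_zero]
    have e3 := hp' (u - v)
    simp only [e2] at e3
    rw [← e3] at e1
    have e4 : (ε / 2 * Real.sqrt π0) ^ 2 ≤ p (u - v) ^ 2 := by
      rw [mul_pow, Real.sq_sqrt hπ0.le]
      refine le_trans ?_ e1
      exact mul_le_mul_of_nonneg_left hP (by positivity)
    exact le_of_sq_le_sq' e4 (apply_nonneg _ _)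
where
  le_of_sq_le_sq' {a b : ℝ} (h : a ^ 2 ≤ b ^ 2) (hb : 0 ≤ b) : a ≤ b := by
    by_contra hlt
    push Not at hlt
    nlinarith

/-- The derivation terminates. -/
theorem terminates {c : ℝ} (hX : UNSc X c) (hc : c < 1) (ε : ℝ) (hε : 0 < ε) (hε1 : ε ≤ 1) :
    ∃ n, ∀ y ∈ Cs X ε (ε / 4) n, ∀ z ∈ Cs X ε (ε / 4) n, ‖y - z‖ < ε := by
  obtain ⟨N, hN⟩ := uns_no_long X hX hc (ε / 2 * Real.sqrt (ε / 4)) (by positivity)
  refine ⟨N, ?_⟩
  intro y hy z hz
  by_contra hcon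
  push Not at hcon
  apply hN
  have h1 : ε / 2 ≤ ‖y‖ ∨ ε / 2 ≤ ‖z‖ := by
    by_contra h
    push Not at h
    have := norm_sub_le y z
    linarith [h.1, h.2]
  have key : ∀ x ∈ Cs X ε (ε / 4) N, ε / 2 ≤ ‖x‖ → ∃ p ∈ PX X, (∀ i, p (e i) ≤ 1) ∧
      ∀ k, ∀ u ∈ Cv (Set.Iio k), ∀ v ∈ Cv (Set.Ico k N),
        ε / 2 * Real.sqrt (ε / 4) ≤ p (u - v) := by
    intro x hx hx2
    exact mart_seminorm ε (ε / 4) hε N x
      (Cs_sub_mart ε (ε / 4) hε.le (by positivity) (by linarith) N hx) (ε / 4) (by positivity)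
      (by linarith)
  rcases h1 with h | h
  · exact key y hy h
  · exact key z hz h

end Pool.Agent.Lib.UNS
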