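import Pool.Agent.Lib.MP_e45c49_an.Good

/-!
# The extremal argument for alternating sums
-/

set_option autoImplicit false

open Filter Topology

namespace Pool.Agent.Lib.UNS

theorem blockMono (M : ℕ) (hM : 0 < M) (g : ℕ → ℕ → ℕ)
    (h1 : ∀ a b, b + 1 < M → g a b < g a (b + 1)) (h2 : ∀ a, g a (M - 1) < g (a + 1) 0) :
    StrictMono (fun k => g (k / M) (k % M)) := by
  refine strictMono_nat_of_lt_succ ?_
  intro k
  have hb : k % M < M := Nat.mod_lt _ hM
  have hk : k % M + M * (k / M) = k := Nat.mod_add_div k M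
  rcases Nat.lt_or_ge (k % M + 1) M with h | h
  · have e1 := (Nat.div_mod_unique (a := k + 1) (c := k % M + 1) (d := k / M) hM).mpr
      ⟨by omega, h⟩
    rw [e1.1, e1.2]
    exact h1 _ _ h
  · have e0 : k % M = M - 1 := by omega
    have e1 := (Nat.div_mod_unique (a := k + 1) (c := 0) (d := k / M + 1) hM).mpr
      ⟨by rw [Nat.mul_add]; omega, hM⟩
    rw [e1.1, e1.2, e0]
    exact h2 _

theorem blockVal (M : ℕ) (hM : 0 < M) (g : ℕ → ℕ → ℕ) (a b : ℕ) (hb : b < M) :
    g ((M * a + b) / M) ((M * a + b) % M) = g a b := by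
  have e1 := (Nat.div_mod_unique (a := M * a + b) (c := b) (d := a) hM).mpr
      ⟨by omega, hb⟩
  rw [e1.1, e1.2]

/-- the alternating sum -/
noncomputable def alt (R : ℕ) : V := ∑ r ∈ Finset.range R, (e (2 * r) - e (2 * r + 1))

theorem q_alt {q : Seminorm ℝ V}
    (hq : ∀ φ : ℕ → ℕ, StrictMono φ → ∀ a : V, q (Finsupp.mapDomain φ a) = q a)
    (i j : ℕ → ℕ) (h1 : ∀ r, i r < j r) (h2 : ∀ r, j r < i (r + 1)) (R : ℕ) :
    q (∑ r ∈ Finset.range R, (e (i r) - e (j r))) = q (alt R) := by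
  let g : ℕ → ℕ → ℕ := fun a b => if b = 0 then i a else j a
  have hφ := blockMono 2 (by norm_num) g (by
    intro a b hb
    have : b = 0 := by omega
    subst this
    simpa [g] using h1 a) (by
    intro a
    simpa [g] using h2 a)
  rw [← hq _ hφ (alt R)]
  congr 1
  have : Finsupp.mapDomain (fun k => g (k / 2) (k % 2)) (alt R)
      = (Finsupp.lmapDomain ℝ ℝ (fun k => g (k / 2) (k % 2))) (alt R) := rfl
  rw [this, alt, map_sum]
  refine Finset.sum_congr rfl ?_
  intro r _
  rw [map_sub]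
  change _ = Finsupp.mapDomain _ _ - Finsupp.mapDomain _ _
  rw [mapDomain_e, mapDomain_e]
  have e0 := blockVal 2 (by norm_num) g r 0 (by norm_num)
  have e1 := blockVal 2 (by norm_num) g r 1 (by norm_num)
  rw [add_zero] at e0
  rw [e0, e1]
  simp [g]

/-- sawtooth sum -/
noncomputable def saw (n R : ℕ) (g : ℕ → ℕ → ℕ) : V :=
  ∑ r ∈ Finset.range R, (e (g r 0) - (1 / (n : ℝ)) • ∑ s ∈ Finset.range n, e (g r (s + 1)))

theorem q_saw {q : Seminorm ℝ V}
    (hq : ∀ φ : ℕ → ℕ, StrictMono φ → ∀ a : V, q (Finsupp.mapDomain φ a) = q a)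
    (n : ℕ) (g : ℕ → ℕ → ℕ)
    (h1 : ∀ a b, b + 1 < n + 1 → g a b < g a (b + 1)) (h2 : ∀ a, g a n < g (a + 1) 0) (R : ℕ) :
    q (saw n R g) = q (saw n R (fun a b => (n + 1) * a + b)) := by
  have hφ := blockMono (n + 1) (Nat.succ_pos n) g h1 (by simpa using h2)
  rw [← hq _ hφ (saw n R (fun a b => (n + 1) * a + b))]
  congr 1
  have : Finsupp.mapDomain (fun k => g (k / (n + 1)) (k % (n + 1)))
        (saw n R (fun a b => (n + 1) * a + b))
      = (Finsupp.lmapDomain ℝ ℝ (fun k => g (k / (n + 1)) (k % (n + 1))))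
        (saw n R (fun a b => (n + 1) * a + b)) := rfl
  rw [this, saw, saw, map_sum]
  refine Finset.sum_congr rfl ?_
  intro r _
  rw [map_sub, map_smul, map_sum]
  congr 1
  · change _ = Finsupp.mapDomain _ _
    rw [mapDomain_e]
    rw [blockVal (n + 1) (Nat.succ_pos n) g r 0 (Nat.succ_pos n)]
  · congr 1
    refine Finset.sum_congr rfl ?_
    intro s hs
    rw [Finset.mem_range] at hs
    change _ = Finsupp.mapDomain _ _
    rw [mapDomain_e]
    rw [blockVal (n + 1) (Nat.succ_pos n) g r (s + 1) (by omega)]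

/-- The mixing map. -/
noncomputable def mix (n : ℕ) : V →ₗ[ℝ] V :=
  Finsupp.linearCombination ℝ (fun k => (1 / 2 : ℝ) • e ((n + 1) * k)
    + (1 / 2 : ℝ) • ((1 / (n : ℝ)) • ∑ s ∈ Finset.range n, e ((n + 1) * k + (s + 1))))

theorem mix_e (n k : ℕ) : mix n (e k) = (1 / 2 : ℝ) • e ((n + 1) * k)
    + (1 / 2 : ℝ) • ((1 / (n : ℝ)) • ∑ s ∈ Finset.range n, e ((n + 1) * k + (s + 1))) := by
  simp [mix, e]

theorem avg_mem_Cv (n : ℕ) (hn : 1 ≤ n) (f : ℕ → ℕ) (t : Set ℕ) (hf : ∀ s < n, f s ∈ t) :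
    (1 / (n : ℝ)) • ∑ s ∈ Finset.range n, e (f s) ∈ Cv t := by
  rw [Finset.smul_sum]
  refine (convex_convexHull ℝ _).sum_mem ?_ ?_ ?_
  · intro i _; positivity
  · have hn' : (n : ℝ) ≠ 0 := by positivity
    simp [hn']
  · intro i hi
    exact e_mem_Cv (hf i (Finset.mem_range.mp hi))

theorem mix_e_mem (n : ℕ) (hn : 1 ≤ n) (k : ℕ) (t : Set ℕ) (ht : ∀ b ≤ n, (n + 1) * k + b ∈ t) :
    mix n (e k) ∈ Cv t := by
  rw [mix_e]
  refine convex_convexHull ℝ _ ?_ ?_ (by norm_num) (by norm_num) (by norm_num)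
  · exact e_mem_Cv (by simpa using ht 0 (Nat.zero_le n))
  · exact avg_mem_Cv n hn _ t (fun s hs => ht (s + 1) hs)

theorem mix_Cv (n : ℕ) (hn : 1 ≤ n) {s t : Set ℕ}
    (h : ∀ k ∈ s, ∀ b ≤ n, (n + 1) * k + b ∈ t) {u : V} (hu : u ∈ Cv s) :
    mix n u ∈ Cv t := by
  have h1 : (mix n) '' (Cv s) = convexHull ℝ ((mix n) '' (e '' s)) :=
    LinearMap.image_convexHull _ _
  have h2 : (mix n) u ∈ (mix n) '' (Cv s) := Set.mem_image_of_mem _ hu
  rw [h1] at h2
  refine (convexHull_min ?_ (convex_convexHull ℝ _)) h2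
  rintro _ ⟨_, ⟨i, hi, rfl⟩, rfl⟩
  exact mix_e_mem n hn i t (h i hi)

theorem mix_mapDomain (n : ℕ) (φ : ℕ → ℕ) (a : V) :
    mix n (Finsupp.mapDomain φ a)
      = Finsupp.mapDomain (fun k => (n + 1) * φ (k / (n + 1)) + k % (n + 1)) (mix n a) := by
  have h : (mix n) ∘ₗ (Finsupp.lmapDomain ℝ ℝ φ)
      = (Finsupp.lmapDomain ℝ ℝ (fun k => (n + 1) * φ (k / (n + 1)) + k % (n + 1))) ∘ₗ (mix n) := by
    refine Finsupp.lhom_ext' ?_
    intro k
    refine LinearMap.ext_ring ?_
    change mix n (Finsupp.mapDomain φ (e k)) = Finsupp.lmapDomain ℝ ℝ _ (mix n (e k))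
    rw [mapDomain_e, mix_e, mix_e, map_add, map_smul, map_smul, map_smul, map_sum]
    have hv : ∀ b, b < n + 1 →
        (Finsupp.lmapDomain ℝ ℝ (fun k => (n + 1) * φ (k / (n + 1)) + k % (n + 1)))
          (e ((n + 1) * k + b)) = e ((n + 1) * φ k + b) := by
      intro b hb
      change Finsupp.mapDomain _ _ = _
      rw [mapDomain_e]
      rw [blockVal (n + 1) (Nat.succ_pos n) (fun a b => (n + 1) * φ a + b) k b hb]
    congr 1
    · have := hv 0 (Nat.succ_pos n)
      simp only [add_zero] at this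
      rw [this]
    · congr 2
      refine Finset.sum_congr rfl ?_
      intro s hs
      rw [Finset.mem_range] at hs
      rw [hv (s + 1) (by omega)]
  exact LinearMap.congr_fun h a

theorem Good.comp_mix {P : Set (Seminorm ℝ V)} (hP : ClosedComp P) {θ : ℝ} {q : Seminorm ℝ V}
    (hq : Good P θ q) (n : ℕ) (hn : 1 ≤ n) : Good P θ (q.comp (mix n)) := by
  refine ⟨hq.near.comp hP _, ?_, ?_, ?_⟩
  · intro φ hφ a
    change q (mix n (Finsupp.mapDomain φ a)) = q (mix n a)
    rw [mix_mapDomain]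
    refine hq.spread _ ?_ _
    refine blockMono (n + 1) (Nat.succ_pos n) (fun a b => (n + 1) * φ a + b) ?_ ?_
    · intro a b _
      simp
    · intro a
      have : φ a + 1 ≤ φ (a + 1) := hφ (Nat.lt_succ_self a)
      have := Nat.mul_le_mul_left (n + 1) this
      simp only [Nat.add_sub_cancel, add_zero]
      rw [Nat.mul_add, mul_one] at this
      omega
  · intro i
    refine le_one_Cv (s := Set.univ) hq.le_one ?_
    exact mix_e_mem n hn i _ (fun b _ => Set.mem_univ _)
  · intro k u hu v hv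
    change θ ≤ q (mix n (u - v))
    rw [map_sub]
    refine hq.sep ((n + 1) * k) _ ?_ _ ?_
    · refine mix_Cv n hn ?_ hu
      intro j hj b hb
      have h1 : j + 1 ≤ k := hj
      have := Nat.mul_le_mul_left (n + 1) h1
      rw [Nat.mul_add, mul_one] at this
      simp only [Set.mem_Iio]
      omega
    · refine mix_Cv n hn ?_ hv
      intro j hj b hb
      have h1 : k ≤ j := hj
      have := Nat.mul_le_mul_left (n + 1) h1
      simp only [Set.mem_Ici]
      omega

/-- `mix` splits the alternating sum into two sawtooth-like sums. -/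
theorem mix_alt (n R : ℕ) (hn : 1 ≤ n) : mix n (alt R)
    = (1 / 2 : ℝ) • saw n R (fun r b => if b = 0 then (n + 1) * (2 * r)
        else (n + 1) * (2 * r + 1) + b)
      + (1 / 2 : ℝ) • ((1 / (n : ℝ)) • ∑ s ∈ Finset.range n, ∑ r ∈ Finset.range R,
        (e ((n + 1) * (2 * r) + (s + 1)) - e ((n + 1) * (2 * r + 1)))) := by
  have hn' : (n : ℝ) ≠ 0 := by positivity
  rw [Finset.sum_comm, saw, alt, map_sum, Finset.smul_sum, Finset.smul_sum, Finset.smul_sum,
    ← Finset.sum_add_distrib]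
  refine Finset.sum_congr rfl ?_
  intro r _
  rw [map_sub, mix_e, mix_e, Finset.sum_sub_distrib, Finset.sum_const, Finset.card_range]
  have h1 : (1 / (n : ℝ)) • (∑ s ∈ Finset.range n, e ((n + 1) * (2 * r) + (s + 1))
        - n • e ((n + 1) * (2 * r + 1)))
      = (1 / (n : ℝ)) • ∑ s ∈ Finset.range n, e ((n + 1) * (2 * r) + (s + 1))
        - e ((n + 1) * (2 * r + 1)) := by
    rw [smul_sub, ← Nat.cast_smul_eq_nsmul ℝ n, smul_smul]
    simp [hn']
  rw [h1]
  have h2 : ∀ s ∈ Finset.range n, e (if s + 1 = 0 then (n + 1) * (2 * r)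
      else (n + 1) * (2 * r + 1) + (s + 1)) = e ((n + 1) * (2 * r + 1) + (s + 1)) := by
    intro s _
    simp
  rw [Finset.sum_congr rfl h2]
  simp only [if_true]
  module

/-- The key lower bound for the sawtooth. -/
theorem saw_lower {P : Set (Seminorm ℝ V)} {θ : ℝ} {q : Seminorm ℝ V}
    (hq : Good P θ q) (n : ℕ) (hn : 1 ≤ n) (R : ℕ) :
    2 * q (mix n (alt R)) - q (alt R) ≤ q (saw n R (fun a b => (n + 1) * a + b)) := by
  have h1 : q (saw n R (fun r b => if b = 0 then (n + 1) * (2 * r)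
        else (n + 1) * (2 * r + 1) + b)) = q (saw n R (fun a b => (n + 1) * a + b)) := by
    refine q_saw hq.spread n _ ?_ ?_ R
    · intro a b _
      have : (n + 1) * (2 * a + 1) = (n + 1) * (2 * a) + (n + 1) := by ring
      rw [if_neg (Nat.succ_ne_zero b)]
      split_ifs <;> omega
    · intro a
      have : (n + 1) * (2 * (a + 1)) = (n + 1) * (2 * a + 1) + (n + 1) := by ring
      rw [if_neg (by omega), if_pos rfl]
      omega
  have h2 : q ((1 / (n : ℝ)) • ∑ s ∈ Finset.range n, ∑ r ∈ Finset.range R,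
        (e ((n + 1) * (2 * r) + (s + 1)) - e ((n + 1) * (2 * r + 1)))) ≤ q (alt R) := by
    rw [sn_smul q (by positivity)]
    have h3 : q (∑ s ∈ Finset.range n, ∑ r ∈ Finset.range R,
        (e ((n + 1) * (2 * r) + (s + 1)) - e ((n + 1) * (2 * r + 1)))) ≤ n * q (alt R) := by
      refine (sn_sum_le q _ _).trans ?_
      have : ∀ s ∈ Finset.range n, q (∑ r ∈ Finset.range R,
          (e ((n + 1) * (2 * r) + (s + 1)) - e ((n + 1) * (2 * r + 1)))) = q (alt R) := by
        intro s hs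
        rw [Finset.mem_range] at hs
        refine q_alt hq.spread _ _ ?_ ?_ R
        · intro r
          have : (n + 1) * (2 * r + 1) = (n + 1) * (2 * r) + (n + 1) := by ring
          omega
        · intro r
          have : (n + 1) * (2 * (r + 1)) = (n + 1) * (2 * r + 1) + (n + 1) := by ring
          omega
      rw [Finset.sum_congr rfl this]
      simp
    have hn' : (0 : ℝ) < n := by positivity
    calc 1 / (n : ℝ) * _ ≤ 1 / (n : ℝ) * (n * q (alt R)) :=
          mul_le_mul_of_nonneg_left h3 (by positivity)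
      _ = q (alt R) := by field_simp
  have h4 := map_add_le_add q
    ((1 / 2 : ℝ) • saw n R (fun r b => if b = 0 then (n + 1) * (2 * r)
        else (n + 1) * (2 * r + 1) + b))
    ((1 / 2 : ℝ) • ((1 / (n : ℝ)) • ∑ s ∈ Finset.range n, ∑ r ∈ Finset.range R,
        (e ((n + 1) * (2 * r) + (s + 1)) - e ((n + 1) * (2 * r + 1)))))
  rw [← mix_alt n R hn, sn_smul q (by norm_num), sn_smul q (by norm_num), h1] at h4
  linarith

/-- the interlaced sums -/
noncomputable def zz (n R j : ℕ) : V := ∑ r ∈ Finset.range R, e ((n + 1) * r + j)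

theorem zz_shift (n R i : ℕ) : ∑ r ∈ Finset.range R, e ((n + 1) * (r + 1) + i)
    = zz n R i + (e ((n + 1) * R + i) - e i) := by
  unfold zz
  have h1 := Finset.sum_range_succ (fun r => e ((n + 1) * r + i)) R
  have h2 := Finset.sum_range_succ' (fun r => e ((n + 1) * r + i)) R
  rw [h1] at h2
  simp only [mul_zero, zero_add] at h2
  rw [← add_sub_assoc, h2]
  abel

theorem zz_sub_saw (n R j : ℕ) (hj : j ≤ n) :
    zz n R j - (1 / (n : ℝ)) • ∑ i ∈ (Finset.range (n + 1)).erase j, zz n R i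
      = saw n R (fun a b => (n + 1) * a + j + b)
        + (1 / (n : ℝ)) • ∑ i ∈ Finset.range j, (e ((n + 1) * R + i) - e i) := by
  have h1 : ∀ r, ∑ s ∈ Finset.range n, e ((n + 1) * r + j + (s + 1))
      = ∑ i ∈ Finset.Ico (j + 1) (n + 1), e ((n + 1) * r + i)
        + ∑ i ∈ Finset.range j, e ((n + 1) * (r + 1) + i) := by
    intro r
    have e1 : Finset.range n = Finset.Ico 0 n := by simp
    have h2 : ∑ s ∈ Finset.range n, e ((n + 1) * r + j + (s + 1))
        = ∑ i ∈ Finset.Ico (j + 1) (n + 1 + j), e ((n + 1) * r + i) := by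
      rw [Finset.sum_Ico_eq_sum_range]
      have : n + 1 + j - (j + 1) = n := by omega
      rw [this]
      refine Finset.sum_congr rfl ?_
      intro s _
      congr 1
      ring
    rw [h2, ← Finset.sum_Ico_consecutive _ (show j + 1 ≤ n + 1 by omega)
      (show n + 1 ≤ n + 1 + j by omega)]
    congr 1
    rw [Finset.sum_Ico_eq_sum_range]
    have : n + 1 + j - (n + 1) = j := by omega
    rw [this]
    refine Finset.sum_congr rfl ?_
    intro s _
    congr 1
    ring
  have h3 : ∑ r ∈ Finset.range R, ∑ s ∈ Finset.range n, e ((n + 1) * r + j + (s + 1))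
      = ∑ i ∈ (Finset.range (n + 1)).erase j, zz n R i
        + ∑ i ∈ Finset.range j, (e ((n + 1) * R + i) - e i) := by
    rw [Finset.sum_congr rfl (fun r _ => h1 r), Finset.sum_add_distrib]
    have h4 : ∑ r ∈ Finset.range R, ∑ i ∈ Finset.Ico (j + 1) (n + 1), e ((n + 1) * r + i)
        = ∑ i ∈ Finset.Ico (j + 1) (n + 1), zz n R i := Finset.sum_comm
    have h5 : ∑ r ∈ Finset.range R, ∑ i ∈ Finset.range j, e ((n + 1) * (r + 1) + i)
        = ∑ i ∈ Finset.range j, (zz n R i + (e ((n + 1) * R + i) - e i)) := by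
      rw [Finset.sum_comm]
      exact Finset.sum_congr rfl (fun i _ => zz_shift n R i)
    rw [h4, h5, Finset.sum_add_distrib]
    have h6 : (Finset.range (n + 1)).erase j = Finset.range j ∪ Finset.Ico (j + 1) (n + 1) := by
      ext x
      simp only [Finset.mem_erase, Finset.mem_range, Finset.mem_union, Finset.mem_Ico]
      omega
    have h7 : Disjoint (Finset.range j) (Finset.Ico (j + 1) (n + 1)) := by
      rw [Finset.disjoint_left]
      intro x
      simp only [Finset.mem_range, Finset.mem_Ico]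
      omega
    rw [h6, Finset.sum_union h7]
    abel
  unfold saw
  rw [Finset.sum_sub_distrib, ← Finset.smul_sum, h3, smul_add]
  simp only [add_zero]
  unfold zz
  abel

/-- finite diametral simplices -/
def Simp (n : ℕ) (δ : ℝ) (p : Seminorm ℝ V) : Prop :=
  (∀ i ≤ n, ∀ j ≤ n, p (e i - e j) ≤ 1) ∧
  (∀ j ≤ n, 1 - δ ≤ p (e j - (1 / (n : ℝ)) • ∑ i ∈ (Finset.range (n + 1)).erase j, e i))

theorem near_simp {P : Set (Seminorm ℝ V)} (hP : ClosedComp P) {q : Seminorm ℝ V}
    (hq : Near P q) (n : ℕ) (A δ' δ : ℝ) (hA : 0 < A) (hδ' : δ' < δ) (hδ0 : 0 ≤ δ)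
    (h1 : ∀ i ≤ n, ∀ j ≤ n, q (e i - e j) ≤ A)
    (h2 : ∀ j ≤ n, (1 - δ') * A ≤
      q (e j - (1 / (n : ℝ)) • ∑ i ∈ (Finset.range (n + 1)).erase j, e i)) :
    ∃ p ∈ P, Simp n δ p := by
  classical
  have hε : 0 < (δ - δ') * A / 2 := by
    have : 0 < δ - δ' := by linarith
    positivity
  obtain ⟨p, hp, hF⟩ := hq
    (((Finset.range (n + 1) ×ˢ Finset.range (n + 1)).image (fun z => e z.1 - e z.2)) ∪
      ((Finset.range (n + 1)).image (fun j =>
        e j - (1 / (n : ℝ)) • ∑ i ∈ (Finset.range (n + 1)).erase j, e i)))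
    ((δ - δ') * A / 2) hε
  set ε := (δ - δ') * A / 2 with hεdef
  have hc : 0 < 1 / (A + ε) := by positivity
  refine ⟨p.comp ((1 / (A + ε)) • LinearMap.id), hP p hp _, ?_, ?_⟩
  · intro i hi j hj
    have h3 := hF (e i - e j) (by
      refine Finset.mem_union_left _ (Finset.mem_image.mpr ⟨(i, j), ?_, rfl⟩)
      simp only [Finset.mem_product, Finset.mem_range]
      omega)
    have h4 := h1 i hi j hj
    change p ((1 / (A + ε)) • (e i - e j)) ≤ 1
    rw [sn_smul p hc.le]
    rw [abs_lt] at h3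
    have h5 : p (e i - e j) ≤ A + ε := by linarith
    calc 1 / (A + ε) * p (e i - e j) ≤ 1 / (A + ε) * (A + ε) :=
          mul_le_mul_of_nonneg_left h5 hc.le
      _ = 1 := by
        have : A + ε ≠ 0 := by positivity
        field_simp
  · intro j hj
    have h3 := hF (e j - (1 / (n : ℝ)) • ∑ i ∈ (Finset.range (n + 1)).erase j, e i) (by
      refine Finset.mem_union_right _ (Finset.mem_image.mpr ⟨j, ?_, rfl⟩)
      simp only [Finset.mem_range]
      omega)
    have h4 := h2 j hj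
    change 1 - δ ≤ p ((1 / (A + ε)) •
      (e j - (1 / (n : ℝ)) • ∑ i ∈ (Finset.range (n + 1)).erase j, e i))
    rw [sn_smul p hc.le]
    rw [abs_lt] at h3
    have h5 : (1 - δ) * (A + ε)
        ≤ p (e j - (1 / (n : ℝ)) • ∑ i ∈ (Finset.range (n + 1)).erase j, e i) := by
      have h6 : (1 - δ) * (A + ε) ≤ (1 - δ') * A - ε := by
        have : (1 - δ) * ε ≤ ε := by nlinarith
        have h7 : (1 - δ') * A - (1 - δ) * A = 2 * ε := by rw [hεdef]; ring
        nlinarith
      linarith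
    have hne : 0 < A + ε := by positivity
    calc 1 - δ = 1 / (A + ε) * ((1 - δ) * (A + ε)) := by field_simp
      _ ≤ _ := mul_le_mul_of_nonneg_left h5 hc.le

theorem case_unbounded {P : Set (Seminorm ℝ V)} (hP : ClosedComp P) {θ : ℝ}
    (hne : ∃ q, Good P θ q) (hunb : ∀ B : ℝ, ∃ R, ∀ q, Good P θ q → B ≤ q (alt R))
    (n : ℕ) (hn : 1 ≤ n) (δ : ℝ) (hδ : 0 < δ) : ∃ p ∈ P, Simp n δ p := by
  -- choose parameters
  set ε : ℝ := min (δ / 8) 1 with hεdef
  have hε : 0 < ε := by positivity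
  have hε1 : ε ≤ 1 := min_le_right _ _
  have hε8 : ε ≤ δ / 8 := min_le_left _ _
  obtain ⟨R, hR⟩ := hunb (2 / ε + 1)
  set A : Set ℝ := {x | ∃ q, Good P θ q ∧ x = q (alt R)} with hAdef
  have hAne : A.Nonempty := by
    obtain ⟨q, hq⟩ := hne
    exact ⟨_, q, hq, rfl⟩
  have hAbdd : BddBelow A := ⟨2 / ε + 1, by
    rintro x ⟨q, hq, rfl⟩
    exact hR q hq⟩
  set ρ := sInf A with hρ
  have hρB : 2 / ε + 1 ≤ ρ := le_csInf hAne (by
    rintro x ⟨q, hq, rfl⟩
    exact hR q hq)
  have hρpos : 0 < ρ := by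
    have : 0 < 2 / ε := by positivity
    linarith
  have hρ2 : 2 ≤ ε * ρ := by
    have h1 : 2 / ε ≤ ρ := by linarith
    rw [div_le_iff₀ hε] at h1
    linarith
  obtain ⟨x, ⟨q, hq, rfl⟩, hx⟩ := exists_lt_of_csInf_lt hAne
    (show ρ < (1 + ε) * ρ by nlinarith)
  have hmix : ρ ≤ q (mix n (alt R)) := csInf_le hAbdd ⟨_, hq.comp_mix hP n hn, rfl⟩
  have hsaw := saw_lower hq n hn R
  have hsaw' : (1 - ε) * ρ ≤ q (saw n R (fun a b => (n + 1) * a + b)) := by linarith
  -- the vectors
  have hq2 : Near P (q.comp (Finsupp.linearCombination ℝ (fun j => zz n R j))) :=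
    hq.near.comp hP _
  have hL : ∀ j, (Finsupp.linearCombination ℝ (fun j => zz n R j)) (e j) = zz n R j := by
    intro j
    simp [e]
  have hlt : ∀ i j, i ≤ n → j ≤ n → i < j → q (zz n R i - zz n R j) = q (alt R) := by
    intro i j hi hj hij
    unfold zz
    rw [← Finset.sum_sub_distrib]
    refine q_alt hq.spread _ _ ?_ ?_ R
    · intro r
      omega
    · intro r
      have : (n + 1) * (r + 1) = (n + 1) * r + (n + 1) := by ring
      omega
  refine near_simp hP hq2 n ((1 + ε) * ρ) (4 * ε) δ (by positivity) (by linarith) hδ.le ?_ ?_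
  · intro i hi j hj
    change q ((Finsupp.linearCombination ℝ (fun j => zz n R j)) (e i - e j)) ≤ _
    rw [map_sub, hL, hL]
    rcases lt_trichotomy i j with h | h | h
    · rw [hlt i j hi hj h]
      exact hx.le
    · subst h
      simp only [sub_self, map_zero]
      positivity
    · rw [map_sub_rev, hlt j i hj hi h]
      exact hx.le
  · intro j hj
    change _ ≤ q ((Finsupp.linearCombination ℝ (fun j => zz n R j)) (e j - (1 / (n : ℝ)) • _))
    rw [map_sub, map_smul, map_sum, hL, Finset.sum_congr rfl (fun i _ => hL i),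
      zz_sub_saw n R j hj]
    have h1 : q (saw n R (fun a b => (n + 1) * a + j + b))
        = q (saw n R (fun a b => (n + 1) * a + b)) := by
      refine q_saw hq.spread n _ ?_ ?_ R
      · intro a b _
        omega
      · intro a
        have : (n + 1) * (a + 1) = (n + 1) * a + (n + 1) := by ring
        omega
    have h2 : q ((1 / (n : ℝ)) • ∑ i ∈ Finset.range j, (e ((n + 1) * R + i) - e i)) ≤ 2 := by
      rw [sn_smul q (by positivity)]
      have h3 : q (∑ i ∈ Finset.range j, (e ((n + 1) * R + i) - e i)) ≤ n * 2 := by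
        refine (sn_sum_le q _ _).trans ?_
        have h4 : ∀ i ∈ Finset.range j, q (e ((n + 1) * R + i) - e i) ≤ 2 := by
          intro i _
          refine (map_sub_le_add q _ _).trans ?_
          have := hq.le_one ((n + 1) * R + i)
          have := hq.le_one i
          linarith
        refine (Finset.sum_le_sum h4).trans ?_
        simp only [Finset.sum_const, Finset.card_range, nsmul_eq_mul]
        have : (j : ℝ) ≤ n := by exact_mod_cast hj
        linarith
      have hn' : (0 : ℝ) < n := by positivity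
      calc 1 / (n : ℝ) * _ ≤ 1 / (n : ℝ) * (n * 2) :=
            mul_le_mul_of_nonneg_left h3 (by positivity)
        _ = 2 := by field_simp
    have h5 : q (saw n R (fun a b => (n + 1) * a + j + b))
        - q ((1 / (n : ℝ)) • ∑ i ∈ Finset.range j, (e ((n + 1) * R + i) - e i))
        ≤ q (saw n R (fun a b => (n + 1) * a + j + b)
          + (1 / (n : ℝ)) • ∑ i ∈ Finset.range j, (e ((n + 1) * R + i) - e i)) := by
      have := map_sub_le_add q (saw n R (fun a b => (n + 1) * a + j + b)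
          + (1 / (n : ℝ)) • ∑ i ∈ Finset.range j, (e ((n + 1) * R + i) - e i))
          ((1 / (n : ℝ)) • ∑ i ∈ Finset.range j, (e ((n + 1) * R + i) - e i))
      rw [add_sub_cancel_right] at this
      linarith
    rw [h1] at h5
    have h6 : (1 - 4 * ε) * ((1 + ε) * ρ) ≤ (1 - ε) * ρ - 2 := by
      have : (1 - 4 * ε) * ((1 + ε) * ρ) = ρ - 3 * (ε * ρ) - 4 * ε * (ε * ρ) := by ring
      rw [this]
      have : 0 ≤ 4 * ε * (ε * ρ) := by positivity
      nlinarith
    linarith

end Pool.Agent.Lib.UNS
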