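import Pool.Agent.Lib.MP_e45c49_an.Renorm

/-!
# Uniform normal structure implies superreflexivity
-/

set_option autoImplicit false

open Filter Topology

namespace Pool.Agent.Lib.UNS

variable {X : Type} [NormedAddCommGroup X] [NormedSpace ℝ X]

/-- the weight of the gauge with index `(l, k)` -/
noncomputable def wt (i : ℕ × ℕ) : ℝ := (1 / 2) ^ i.1 * (1 / 2) ^ i.2 * ((1 / 2) ^ i.1 / 4)

theorem wt_pos (i : ℕ × ℕ) : 0 < wt i := by
  unfold wt
  positivity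

/-- the coordinate functions of the new norm -/
noncomputable def gg (i : ℕ × ℕ) (x : X) : ℝ :=
  wt i * pg ((1 / 2) ^ i.1) ((1 / 2) ^ i.1 / 4) i.2 x

theorem eta_pos (l : ℕ) : (0 : ℝ) < (1 / 2) ^ l / 4 := by positivity

theorem eta_le (l : ℕ) : ((1 / 2 : ℝ)) ^ l / 4 ≤ 1 := by
  have : ((1 / 2 : ℝ)) ^ l ≤ 1 := pow_le_one₀ (by norm_num) (by norm_num)
  linarith

theorem gg_nonneg (i : ℕ × ℕ) (x : X) : 0 ≤ gg i x :=
  mul_nonneg (wt_pos i).le (pg_nonneg _ _ _ _)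

theorem gg_add (i : ℕ × ℕ) (x y : X) : gg i (x + y) ≤ gg i x + gg i y := by
  unfold gg
  rw [← mul_add]
  exact mul_le_mul_of_nonneg_left (pg_add _ _ (eta_pos _) (eta_le _) _ _ _) (wt_pos i).le

theorem gg_smul (i : ℕ × ℕ) (t : ℝ) (x : X) : gg i (t • x) = |t| * gg i x := by
  unfold gg
  rw [pg_smul]
  ring

theorem gg_le (i : ℕ × ℕ) (x : X) : gg i x ≤ (1 / 2) ^ i.1 * (1 / 2) ^ i.2 * ‖x‖ := by
  unfold gg wt
  have h1 := pg_le ((1 / 2) ^ i.1) ((1 / 2) ^ i.1 / 4) (eta_pos _) (eta_le _) i.2 x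
  rw [le_div_iff₀ (eta_pos _)] at h1
  calc _ = (1 / 2) ^ i.1 * (1 / 2) ^ i.2 *
        (pg ((1 / 2) ^ i.1) ((1 / 2) ^ i.1 / 4) i.2 x * ((1 / 2) ^ i.1 / 4)) := by ring
    _ ≤ _ := mul_le_mul_of_nonneg_left h1 (by positivity)

theorem summable_geom2 :
    HasSum (fun i : ℕ × ℕ => ((1 / 4 : ℝ)) ^ i.1 * (1 / 4) ^ i.2) (4 / 3 * (4 / 3)) := by
  have h : HasSum (fun n : ℕ => ((1 / 4 : ℝ)) ^ n) (4 / 3) := by
    have := hasSum_geometric_of_lt_one (r := (1 / 4 : ℝ)) (by norm_num) (by norm_num)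
    convert this using 1
    norm_num
  have hs : Summable (fun i : ℕ × ℕ => ((1 / 4 : ℝ)) ^ i.1 * (1 / 4) ^ i.2) :=
    h.summable.mul_of_nonneg h.summable (fun _ => by positivity) (fun _ => by positivity)
  exact h.mul h hs

theorem gg_sq_le (i : ℕ × ℕ) (x : X) :
    gg i x ^ 2 ≤ (1 / 4) ^ i.1 * (1 / 4) ^ i.2 * ‖x‖ ^ 2 := by
  have h1 := pow_le_pow_left₀ (gg_nonneg i x) (gg_le i x) 2
  refine h1.trans (le_of_eq ?_)
  rw [mul_pow, mul_pow, ← pow_mul, ← pow_mul, mul_comm i.1 2, mul_comm i.2 2, pow_mul, pow_mul]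
  norm_num

theorem gg_summable (x : X) : Summable (fun i : ℕ × ℕ => gg i x ^ 2) :=
  Summable.of_nonneg_of_le (fun _ => sq_nonneg _) (fun i => gg_sq_le i x)
    (summable_geom2.summable.mul_right _)

theorem NN_le (x : X) : l2N gg x ≤ 2 * ‖x‖ := by
  have h1 : l2N gg x ^ 2 ≤ (2 * ‖x‖) ^ 2 := by
    rw [l2N_sq]
    have h2 : ∑' i, gg i x ^ 2 ≤ ∑' i : ℕ × ℕ, (1 / 4 : ℝ) ^ i.1 * (1 / 4) ^ i.2 * ‖x‖ ^ 2 :=
      Summable.tsum_le_tsum (fun i => gg_sq_le i x) (gg_summable x)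
        (summable_geom2.summable.mul_right _)
    rw [tsum_mul_right, summable_geom2.tsum_eq] at h2
    nlinarith [sq_nonneg ‖x‖]
  have := abs_le_of_sq_le_sq h1 (by positivity)
  exact (le_abs_self _).trans this

theorem le_NN (x : X) : 1 / 4 * ‖x‖ ≤ l2N gg x := by
  have h1 : gg (0, 0) x = 1 / 4 * ‖x‖ := by
    unfold gg wt
    simp only [pow_zero, pg_zero]
    ring
  have h2 : (1 / 4 * ‖x‖) ^ 2 ≤ l2N gg x ^ 2 := by
    rw [l2N_sq, ← h1]
    exact (gg_summable x).le_tsum (0, 0) (fun _ _ => sq_nonneg _)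
  have := abs_le_of_sq_le_sq h2 (l2N_nonneg _ _)
  exact (le_abs_self _).trans this

theorem main {c : ℝ} (hc : c < 1) (hX : UNSc X c) :
    ∃ N : X → ℝ,
      (∀ x y : X, N (x + y) ≤ N x + N y) ∧
      (∀ (t : ℝ) (x : X), N (t • x) = |t| * N x) ∧
      (∃ a b : ℝ, 0 < a ∧ 0 < b ∧ ∀ x : X, a * ‖x‖ ≤ N x ∧ N x ≤ b * ‖x‖) ∧
      (∀ ε : ℝ, 0 < ε → ∃ δ : ℝ, 0 < δ ∧
        ∀ x y : X, N x ≤ 1 → N y ≤ 1 → ε ≤ N (x - y) → N (x + y) ≤ 2 - δ) := by
  refine ⟨l2N gg, l2N_add gg_nonneg gg_add gg_summable, l2N_smul gg_smul,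
    ⟨1 / 4, 2, by norm_num, by norm_num, fun x => ⟨le_NN x, NN_le x⟩⟩, ?_⟩
  intro ε hε
  -- choose the level
  obtain ⟨l, hl⟩ := exists_pow_lt_of_lt_one (show (0 : ℝ) < ε / 16 by positivity)
    (by norm_num : (1 / 2 : ℝ) < 1)
  set ε' : ℝ := (1 / 2) ^ l with hε'
  have hε'pos : 0 < ε' := by positivity
  have hε'1 : ε' ≤ 1 := pow_le_one₀ (by norm_num) (by norm_num)
  obtain ⟨n, hn⟩ := terminates hX hc ε' hε'pos hε'1
  set σ : ℝ := 1 / (n + 1) with hσ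
  have hσpos : 0 < σ := by positivity
  have hσ8 : 4 + σ + 3 * n * σ ≤ 8 := by
    have h1 : (n + 1) * σ = 1 := by rw [hσ]; field_simp
    have h2 : σ ≤ 1 := by
      rw [hσ, div_le_one (by positivity)]
      have : (0 : ℝ) ≤ n := Nat.cast_nonneg n
      linarith
    nlinarith
  set W : ℝ := (wt (l, n)) ^ 2 with hW
  have hWpos : 0 < W := pow_pos (wt_pos _) 2
  set δ : ℝ := min 2 (σ ^ 2 * W) with hδ
  have hδpos : 0 < δ := by positivity
  refine ⟨δ, hδpos, ?_⟩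
  intro x y hx hy hxy
  by_contra hcon
  push Not at hcon
  have hcoord := fun i => l2N_coord (X := X) gg_nonneg gg_add gg_smul gg_summable x y δ
    (min_le_left _ _) hx hy hcon i
  have hwmono : ∀ k ≤ n, W ≤ (wt (l, k)) ^ 2 := by
    intro k hk
    refine pow_le_pow_left₀ (wt_pos _).le ?_ 2
    unfold wt
    simp only
    refine mul_le_mul_of_nonneg_right ?_ (eta_pos l).le
    refine mul_le_mul_of_nonneg_left ?_ (by positivity)
    exact pow_le_pow_of_le_one (by norm_num) (by norm_num) hk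
  have hx4 : ‖x‖ ≤ 4 := by
    have := le_NN x
    linarith
  have hy4 : ‖y‖ ≤ 4 := by
    have := le_NN y
    linarith
  have hxy8 : 8 * ε' ≤ ‖x - y‖ := by
    have := NN_le (x - y)
    linarith
  obtain ⟨y', hy', z', hz', hd⟩ := propagate ε' (ε' / 4) (by positivity) (by linarith) x y n σ
    hσpos hσ8 hx4 hy4 hxy8 hε'pos.le (by
      intro k hk
      have h1 := hcoord (l, k)
      have h2 := hwmono k hk
      have h3 : δ ≤ σ ^ 2 * W := min_le_right _ _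
      unfold gg at h1
      simp only at h1
      rw [mul_pow, mul_pow, mul_pow] at h1
      rw [← hε'] at h1
      set A := (pg ε' (ε' / 4) k x ^ 2 + pg ε' (ε' / 4) k y ^ 2) / 2
        - pg ε' (ε' / 4) k ((1 / 2 : ℝ) • (x + y)) ^ 2 with hA
      have h4 : (wt (l, k)) ^ 2 * A ≤ σ ^ 2 * (wt (l, k)) ^ 2 := by
        have h5 : σ ^ 2 * W ≤ σ ^ 2 * (wt (l, k)) ^ 2 :=
          mul_le_mul_of_nonneg_left h2 (by positivity)
        have h6 : (wt (l, k)) ^ 2 * A = ((wt (l, k)) ^ 2 * pg ε' (ε' / 4) k x ^ 2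
            + (wt (l, k)) ^ 2 * pg ε' (ε' / 4) k y ^ 2) / 2
            - (wt (l, k)) ^ 2 * pg ε' (ε' / 4) k ((1 / 2 : ℝ) • (x + y)) ^ 2 := by
          rw [hA]; ring
        rw [h6]
        linarith
      have h7 : 0 < (wt (l, k)) ^ 2 := pow_pos (wt_pos _) 2
      nlinarith)
  have := hn y' hy' z' hz'
  linarith

end Pool.Agent.Lib.UNS
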