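import Pool.Agent.Lib.MP_e45c49_an.Spread

/-!
# The class of spreading, separated seminorms
-/

set_option autoImplicit false

open Filter Topology

namespace Pool.Agent.Lib.UNS

/-- convex combinations of unit vectors with index in `s` -/
def Cv (s : Set ℕ) : Set V := convexHull ℝ (e '' s)

theorem Cv_mono {s t : Set ℕ} (h : s ⊆ t) : Cv s ⊆ Cv t :=
  convexHull_mono (Set.image_mono h)

theorem e_mem_Cv {s : Set ℕ} {i : ℕ} (h : i ∈ s) : e i ∈ Cv s :=
  subset_convexHull ℝ _ (Set.mem_image_of_mem e h)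

/-- Spreading seminorms with separated convex blocks, approximable by `P`. -/
structure Good (P : Set (Seminorm ℝ V)) (θ : ℝ) (q : Seminorm ℝ V) : Prop where
  near : Near P q
  spread : ∀ φ : ℕ → ℕ, StrictMono φ → ∀ a : V, q (Finsupp.mapDomain φ a) = q a
  le_one : ∀ i, q (e i) ≤ 1
  sep : ∀ k, ∀ u ∈ Cv (Set.Iio k), ∀ v ∈ Cv (Set.Ici k), θ ≤ q (u - v)

/-- Closure under composition with linear maps. -/
def ClosedComp (P : Set (Seminorm ℝ V)) : Prop :=
  ∀ p ∈ P, ∀ T : V →ₗ[ℝ] V, p.comp T ∈ P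

theorem Near.comp {P : Set (Seminorm ℝ V)} (hP : ClosedComp P) {q : Seminorm ℝ V}
    (hq : Near P q) (T : V →ₗ[ℝ] V) : Near P (q.comp T) := by
  classical
  intro F ε hε
  obtain ⟨p, hp, h⟩ := hq (F.image T) ε hε
  exact ⟨p.comp T, hP p hp T, fun a ha => h (T a) (Finset.mem_image_of_mem T ha)⟩

theorem mapDomain_e (φ : ℕ → ℕ) (i : ℕ) : Finsupp.mapDomain φ (e i) = e (φ i) := by
  simp [e, Finsupp.mapDomain_single]

theorem mapDomain_Cv (φ : ℕ → ℕ) {s t : Set ℕ} (h : Set.MapsTo φ s t) {u : V} (hu : u ∈ Cv s) :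
    Finsupp.mapDomain φ u ∈ Cv t := by
  have h1 : (Finsupp.lmapDomain ℝ ℝ φ) '' (Cv s)
      = convexHull ℝ ((Finsupp.lmapDomain ℝ ℝ φ) '' (e '' s)) :=
    LinearMap.image_convexHull _ _
  have h2 : (Finsupp.lmapDomain ℝ ℝ φ) u ∈ (Finsupp.lmapDomain ℝ ℝ φ) '' (Cv s) :=
    Set.mem_image_of_mem _ hu
  rw [h1] at h2
  refine convexHull_mono ?_ h2
  rintro _ ⟨_, ⟨i, hi, rfl⟩, rfl⟩
  exact ⟨φ i, h hi, (mapDomain_e φ i).symm⟩

theorem le_one_Cv {q : Seminorm ℝ V} (hq : ∀ i, q (e i) ≤ 1) {s : Set ℕ} {u : V}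
    (hu : u ∈ Cv s) : q u ≤ 1 := by
  have hc : Convex ℝ {x : V | q x ≤ 1} := by
    have := q.convexOn.convex_le 1
    simpa using this
  have : Cv s ⊆ {x : V | q x ≤ 1} := by
    refine convexHull_min ?_ hc
    rintro _ ⟨i, _, rfl⟩
    exact hq i
  exact this hu

theorem exists_Ico {k : ℕ} {v : V} (hv : v ∈ Cv (Set.Ici k)) :
    ∃ n, ∀ m, n ≤ m → v ∈ Cv (Set.Ico k m) := by
  have hc : Convex ℝ {v : V | ∃ n, ∀ m, n ≤ m → v ∈ Cv (Set.Ico k m)} := by
    rintro x ⟨n, hn⟩ y ⟨n', hn'⟩ a b ha hb hab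
    refine ⟨max n n', fun m hm => ?_⟩
    exact convex_convexHull ℝ _ (hn m ((le_max_left _ _).trans hm))
      (hn' m ((le_max_right _ _).trans hm)) ha hb hab
  have : Cv (Set.Ici k) ⊆ {v : V | ∃ n, ∀ m, n ≤ m → v ∈ Cv (Set.Ico k m)} := by
    refine convexHull_min ?_ hc
    rintro _ ⟨i, hi, rfl⟩
    exact ⟨i + 1, fun m hm => e_mem_Cv ⟨hi, by omega⟩⟩
  exact this hv

theorem sn_sum_le (q : Seminorm ℝ V) {ι : Type*} (s : Finset ι) (f : ι → V) :
    q (∑ i ∈ s, f i) ≤ ∑ i ∈ s, q (f i) := by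
  classical
  induction s using Finset.induction_on with
  | empty => simp
  | insert a s ha ih =>
    rw [Finset.sum_insert ha, Finset.sum_insert ha]
    refine (map_add_le_add q _ _).trans ?_
    linarith

theorem sn_smul (q : Seminorm ℝ V) {c : ℝ} (hc : 0 ≤ c) (x : V) : q (c • x) = c * q x := by
  rw [map_smul_eq_mul, Real.norm_eq_abs, abs_of_nonneg hc]

theorem bound_l1 {p : Seminorm ℝ V} (hp : ∀ i, p (e i) ≤ 1) (a : V) :
    p a ≤ a.sum (fun _ c => |c|) := by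
  have h : a = a.sum (fun i c => c • e i) := by
    conv_lhs => rw [← Finsupp.sum_single a]
    refine Finsupp.sum_congr ?_
    intro i _
    simp [e]
  conv_lhs => rw [h]
  unfold Finsupp.sum
  refine (sn_sum_le p _ _).trans ?_
  refine Finset.sum_le_sum ?_
  intro i _
  rw [map_smul_eq_mul, Real.norm_eq_abs]
  have := mul_le_mul_of_nonneg_left (hp i) (abs_nonneg (a i))
  linarith

/-- Existence of a spreading separated seminorm from arbitrarily long separated sequences. -/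
theorem exists_good (P : Set (Seminorm ℝ V)) (hP : ClosedComp P) (θ : ℝ)
    (H : ∀ n : ℕ, ∃ p ∈ P, (∀ i, p (e i) ≤ 1) ∧
      ∀ k, ∀ u ∈ Cv (Set.Iio k), ∀ v ∈ Cv (Set.Ico k n), θ ≤ p (u - v)) :
    ∃ q, Good P θ q := by
  classical
  choose p hpP hp1 hpsep using H
  have hb : ∀ a : V, ∀ n, p n a ∈ Set.Icc 0 (a.sum (fun _ c => |c|)) :=
    fun a n => ⟨apply_nonneg _ _, bound_l1 (hp1 n) a⟩
  have key : ∀ (F : Finset V) (ε : ℝ), 0 < ε → ∀ K : ℕ, ∃ n, K ≤ n ∧
      ∀ a ∈ F, |ulim (fun n => p n a) - p n a| < ε := by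
    intro F ε hε K
    have hev : ∀ᶠ n in (hyperfilter ℕ : Filter ℕ), ∀ a ∈ F,
        |ulim (fun n => p n a) - p n a| < ε := by
      rw [Filter.eventually_all_finset]
      intro a _
      have ht := (ulim_spec (hb a)).1
      have := (Metric.tendsto_nhds.mp ht) ε hε
      filter_upwards [this] with k hk
      rw [Real.dist_eq, abs_sub_comm] at hk
      exact hk
    have hev2 : ∀ᶠ k in (hyperfilter ℕ : Filter ℕ), K ≤ k :=
      (Nat.hyperfilter_le_atTop (Filter.eventually_ge_atTop K))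
    obtain ⟨n, h1, h2⟩ := (hev.and hev2).exists
    exact ⟨n, h2, h1⟩
  let q0 : Seminorm ℝ V := ofApprox (fun a => ulim (fun n => p n a)) (fun F ε hε => by
    obtain ⟨n, _, h⟩ := key F ε hε 0
    exact ⟨p n, h⟩)
  have hq0 : ∀ a, q0 a = ulim (fun n => p n a) := fun a => rfl
  have hq0one : ∀ i, q0 (e i) ≤ 1 := by
    intro i
    refine le_of_forall_pos_lt_add ?_
    intro ε hε
    obtain ⟨n, _, h⟩ := key {e i} ε hε 0
    have h1 := h (e i) (by simp)
    rw [abs_lt, ← hq0] at h1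
    have := hp1 n i
    linarith
  have hq0sep : ∀ k, ∀ u ∈ Cv (Set.Iio k), ∀ v ∈ Cv (Set.Ici k), θ ≤ q0 (u - v) := by
    intro k u hu v hv
    obtain ⟨N, hN⟩ := exists_Ico hv
    refine le_of_forall_pos_lt_add ?_
    intro ε hε
    obtain ⟨n, hn, h⟩ := key {u - v} ε hε N
    have h1 := h (u - v) (by simp)
    rw [abs_lt, ← hq0] at h1
    have := hpsep n k u hu v (hN n hn)
    linarith
  refine ⟨sp q0 hq0one, ?_, ?_, ?_, ?_⟩
  · intro F ε hε
    obtain ⟨φ, _, h⟩ := spf_approx q0 hq0one F (ε / 2) (by positivity)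
    obtain ⟨n, _, h'⟩ := key (F.image (Finsupp.mapDomain φ)) (ε / 2) (by positivity) 0
    refine ⟨(p n).comp (Finsupp.lmapDomain ℝ ℝ φ), hP _ (hpP n) _, ?_⟩
    intro a ha
    have h1 := h a ha
    have h2 := h' (Finsupp.mapDomain φ a) (Finset.mem_image_of_mem _ ha)
    rw [← hq0] at h2
    have h3 : ((p n).comp (Finsupp.lmapDomain ℝ ℝ φ)) a = p n (Finsupp.mapDomain φ a) := rfl
    rw [h3, sp_apply]
    rw [abs_lt] at *
    constructor <;> linarith
  · intro φ hφ a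
    exact spf_mapDomain q0 φ hφ a
  · intro i
    refine le_of_forall_pos_lt_add ?_
    intro ε hε
    obtain ⟨φ, _, h⟩ := spf_approx q0 hq0one {e i} ε hε
    have h1 := h (e i) (by simp)
    rw [mapDomain_e] at h1
    rw [sp_apply]
    rw [abs_lt] at h1
    have := hq0one (φ i)
    linarith
  · intro k u hu v hv
    refine le_of_forall_pos_lt_add ?_
    intro ε hε
    obtain ⟨φ, hφ, h⟩ := spf_approx q0 hq0one {u - v} ε hε
    have h1 := h (u - v) (by simp)
    have h2 : Finsupp.mapDomain φ (u - v) = Finsupp.mapDomain φ u - Finsupp.mapDomain φ v :=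
      map_sub (Finsupp.lmapDomain ℝ ℝ φ) u v
    have hm1 : Set.MapsTo φ (Set.Iio k) (Set.Iio (φ k)) := fun i hi => hφ hi
    have hm2 : Set.MapsTo φ (Set.Ici k) (Set.Ici (φ k)) := fun i hi => hφ.monotone hi
    have hu' : Finsupp.mapDomain φ u ∈ Cv (Set.Iio (φ k)) := mapDomain_Cv φ hm1 hu
    have hv' : Finsupp.mapDomain φ v ∈ Cv (Set.Ici (φ k)) := mapDomain_Cv φ hm2 hv
    have h3 := hq0sep (φ k) _ hu' _ hv'
    rw [← h2] at h3
    rw [sp_apply]
    rw [abs_lt] at h1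
    linarith

end Pool.Agent.Lib.UNS
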