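import Pool.Agent.Lib.MP_e45c49_an.Extremal

/-!
# The bounded (c_0-like) case via the distortion argument of James
-/

set_option autoImplicit false

open Filter Topology

namespace Pool.Agent.Lib.UNS

theorem kill {q : Seminorm ℝ V}
    (hq : ∀ φ : ℕ → ℕ, StrictMono φ → ∀ a : V, q (Finsupp.mapDomain φ a) = q a)
    (hq1 : ∀ i, q (e i) ≤ 1)
    (x : V) (i : ℕ) (h0 : x (2 * i) = 0) (h1 : x (2 * i + 1) = 0) :
    q x ≤ q (x + (e (2 * i) - e (2 * i + 1))) := by
  have key : ∀ N : ℕ, 1 ≤ N → (N : ℝ) * q x ≤ N * q (x + (e (2 * i) - e (2 * i + 1))) + 2 := by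
    intro N hN
    let ψ : ℕ → ℕ := fun j => if j < 2 * i then j else j + N
    have hψ : StrictMono ψ := by
      refine strictMono_nat_of_lt_succ ?_
      intro j
      simp only [ψ]
      split_ifs <;> omega
    have hk : ∀ k ∈ Finset.range N,
        q (Finsupp.mapDomain ψ x + (e (2 * i + k) - e (2 * i + (k + 1))))
          = q (x + (e (2 * i) - e (2 * i + 1))) := by
      intro k hk
      rw [Finset.mem_range] at hk
      let φ : ℕ → ℕ := fun j => if j < 2 * i then j else if j = 2 * i then 2 * i + k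
        else if j = 2 * i + 1 then 2 * i + (k + 1) else j + N
      have hφ : StrictMono φ := by
        refine strictMono_nat_of_lt_succ ?_
        intro j
        simp only [φ]
        split_ifs <;> omega
      rw [← hq φ hφ (x + (e (2 * i) - e (2 * i + 1)))]
      congr 1
      have h2 : Finsupp.mapDomain φ (x + (e (2 * i) - e (2 * i + 1)))
          = Finsupp.mapDomain φ x + (Finsupp.mapDomain φ (e (2 * i))
            - Finsupp.mapDomain φ (e (2 * i + 1))) := by
        change Finsupp.lmapDomain ℝ ℝ φ _ = Finsupp.lmapDomain ℝ ℝ φ _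
          + (Finsupp.lmapDomain ℝ ℝ φ _ - Finsupp.lmapDomain ℝ ℝ φ _)
        rw [map_add, map_sub]
      rw [h2, mapDomain_e, mapDomain_e]
      have h3 : Finsupp.mapDomain ψ x = Finsupp.mapDomain φ x := by
        refine Finsupp.mapDomain_congr ?_
        intro j hj
        have hj' := Finsupp.mem_support_iff.mp hj
        have hne0 : j ≠ 2 * i := fun h => hj' (h ▸ h0)
        have hne1 : j ≠ 2 * i + 1 := fun h => hj' (h ▸ h1)
        simp only [ψ, φ, if_neg hne0, if_neg hne1]
      rw [h3]
      simp [φ]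
    have hsum : ∑ k ∈ Finset.range N,
        (Finsupp.mapDomain ψ x + (e (2 * i + k) - e (2 * i + (k + 1))))
          = (N : ℝ) • Finsupp.mapDomain ψ x + (e (2 * i) - e (2 * i + N)) := by
      rw [Finset.sum_add_distrib, Finset.sum_const, Finset.card_range,
        Finset.sum_range_sub' (fun k => e (2 * i + k)) N, Nat.cast_smul_eq_nsmul]
      simp
    have h4 : q ((N : ℝ) • Finsupp.mapDomain ψ x + (e (2 * i) - e (2 * i + N)))
        ≤ N * q (x + (e (2 * i) - e (2 * i + 1))) := by
      rw [← hsum]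
      refine (sn_sum_le q _ _).trans ?_
      rw [Finset.sum_congr rfl hk]
      simp
    have h5 : (N : ℝ) * q x = q ((N : ℝ) • Finsupp.mapDomain ψ x) := by
      rw [sn_smul q (by positivity), hq ψ hψ]
    rw [h5]
    have h6 := map_sub_le_add q ((N : ℝ) • Finsupp.mapDomain ψ x + (e (2 * i) - e (2 * i + N)))
      (e (2 * i) - e (2 * i + N))
    rw [add_sub_cancel_right] at h6
    have h7 := map_sub_le_add q (e (2 * i)) (e (2 * i + N))
    have h8 := hq1 (2 * i)
    have h9 := hq1 (2 * i + N)
    linarith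
  by_contra hlt
  push Not at hlt
  obtain ⟨N, hN⟩ := exists_nat_gt (2 / (q x - q (x + (e (2 * i) - e (2 * i + 1)))))
  have hd : 0 < q x - q (x + (e (2 * i) - e (2 * i + 1))) := by linarith
  have hN1 : 1 ≤ N := by
    have : (0 : ℝ) < N := lt_trans (by positivity) hN
    exact_mod_cast this
  have h10 := key N hN1
  rw [div_lt_iff₀ hd] at hN
  nlinarith

/-- the difference vectors -/
noncomputable def dd (i : ℕ) : V := e (2 * i) - e (2 * i + 1)

theorem dd_apply_even {l i : ℕ} (h : l ≠ i) : dd l (2 * i) = 0 := by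
  unfold dd e
  rw [Finsupp.sub_apply, Finsupp.single_apply, Finsupp.single_apply, if_neg (by omega),
    if_neg (by omega)]
  simp

theorem dd_apply_odd {l i : ℕ} (h : l ≠ i) : dd l (2 * i + 1) = 0 := by
  unfold dd e
  rw [Finsupp.sub_apply, Finsupp.single_apply, Finsupp.single_apply, if_neg (by omega),
    if_neg (by omega)]
  simp

theorem sum_dd_mono {q : Seminorm ℝ V}
    (hq : ∀ φ : ℕ → ℕ, StrictMono φ → ∀ a : V, q (Finsupp.mapDomain φ a) = q a)
    (hq1 : ∀ i, q (e i) ≤ 1) (S U : Finset ℕ) (hSU : S ⊆ U) :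
    q (∑ i ∈ S, dd i) ≤ q (∑ i ∈ U, dd i) := by
  classical
  have key : ∀ W : Finset ℕ, Disjoint S W → q (∑ i ∈ S, dd i) ≤ q (∑ i ∈ S ∪ W, dd i) := by
    intro W
    induction W using Finset.induction_on with
    | empty => intro _; simp
    | insert a W ha ih =>
      intro hd
      rw [Finset.disjoint_insert_right] at hd
      refine (ih hd.2).trans ?_
      have hna : a ∉ S ∪ W := by
        rw [Finset.mem_union]
        tauto
      rw [Finset.union_insert, Finset.sum_insert hna, add_comm (dd a)]
      refine kill hq hq1 _ a ?_ ?_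
      · rw [Finsupp.finsetSum_apply]
        refine Finset.sum_eq_zero ?_
        intro l hl
        exact dd_apply_even (fun h => hna (h ▸ hl))
      · rw [Finsupp.finsetSum_apply]
        refine Finset.sum_eq_zero ?_
        intro l hl
        exact dd_apply_odd (fun h => hna (h ▸ hl))
  have h := key (U \ S) Finset.disjoint_sdiff
  rwa [Finset.union_sdiff_of_subset hSU] at h

theorem alt_eq_dd (R : ℕ) : alt R = ∑ i ∈ Finset.range R, dd i := rfl

theorem signs_dd {q : Seminorm ℝ V}
    (hq : ∀ φ : ℕ → ℕ, StrictMono φ → ∀ a : V, q (Finsupp.mapDomain φ a) = q a)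
    (hq1 : ∀ i, q (e i) ≤ 1) (n : ℕ) (ε : ℕ → ℝ) (hε : ∀ i, ε i = 1 ∨ ε i = -1) :
    q (∑ i ∈ Finset.range n, ε i • dd i) ≤ 2 * q (alt n) := by
  classical
  have h1 : ∑ i ∈ Finset.range n, ε i • dd i
      = ∑ i ∈ (Finset.range n).filter (fun i => ε i = 1), dd i
        - ∑ i ∈ (Finset.range n).filter (fun i => ¬ ε i = 1), dd i := by
    rw [← Finset.sum_filter_add_sum_filter_not (Finset.range n) (fun i => ε i = 1)
      (fun i => ε i • dd i), sub_eq_add_neg, ← Finset.sum_neg_distrib]
    congr 1
    · refine Finset.sum_congr rfl ?_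
      intro i hi
      rw [(Finset.mem_filter.mp hi).2, one_smul]
    · refine Finset.sum_congr rfl ?_
      intro i hi
      rcases hε i with h | h
      · exact absurd h (Finset.mem_filter.mp hi).2
      · rw [h, neg_one_smul]
  rw [h1]
  refine (map_sub_le_add q _ _).trans ?_
  have h2 := sum_dd_mono hq hq1 ((Finset.range n).filter (fun i => ε i = 1)) (Finset.range n)
    (Finset.filter_subset _ _)
  have h3 := sum_dd_mono hq hq1 ((Finset.range n).filter (fun i => ¬ ε i = 1)) (Finset.range n)
    (Finset.filter_subset _ _)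
  rw [← alt_eq_dd] at h2 h3
  linarith

/-- `s`-equivalence with the unit vectors of `ℓ_∞^n` (one sided form). -/
def Hp (P : Set (Seminorm ℝ V)) (n : ℕ) (s : ℝ) : Prop :=
  ∃ p ∈ P, (∀ i < n, 1 ≤ p (e i)) ∧
    ∀ ε : ℕ → ℝ, (∀ i, ε i = 1 ∨ ε i = -1) → p (∑ i ∈ Finset.range n, ε i • e i) ≤ s

theorem Hp_mono {P : Set (Seminorm ℝ V)} {n : ℕ} {s s' : ℝ} (h : s ≤ s') (hs : Hp P n s) :
    Hp P n s' := by
  obtain ⟨p, hp, h1, h2⟩ := hs
  exact ⟨p, hp, h1, fun ε hε => (h2 ε hε).trans h⟩

theorem Hp_of_good {P : Set (Seminorm ℝ V)} (hP : ClosedComp P) {θ : ℝ} (hθ : 0 < θ) {B : ℝ}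
    {q : Seminorm ℝ V} (hq : Good P θ q) (n : ℕ) (hB : q (alt n) < B) :
    Hp P n (4 * B / θ + 1) := by
  classical
  set T : V →ₗ[ℝ] V := Finsupp.linearCombination ℝ (fun i => (2 / θ) • dd i) with hT
  have hTe : ∀ i, T (e i) = (2 / θ) • dd i := by
    intro i
    simp [hT, e]
  have hnear := hq.near.comp hP T
  obtain ⟨p, hp, hF⟩ := hnear
    (((Finset.range n).image e) ∪
      (Finset.univ.image (fun b : Fin n → Bool =>
        ∑ i : Fin n, (if b i then (1 : ℝ) else -1) • e i))) 1 one_pos
  refine ⟨p, hp, ?_, ?_⟩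
  · intro i hi
    have h1 := hF (e i) (Finset.mem_union_left _
      (Finset.mem_image_of_mem e (Finset.mem_range.mpr hi)))
    have h2 : (q.comp T) (e i) = (2 / θ) * q (dd i) := by
      change q (T (e i)) = _
      rw [hTe, sn_smul q (by positivity)]
    have h3 : θ ≤ q (dd i) :=
      hq.sep (2 * i + 1) _ (e_mem_Cv (by simp)) _ (e_mem_Cv (by simp))
    have h4 : 2 ≤ (2 / θ) * q (dd i) := by
      calc (2 : ℝ) = (2 / θ) * θ := by field_simp
        _ ≤ _ := mul_le_mul_of_nonneg_left h3 (by positivity)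
    rw [h2, abs_lt] at h1
    linarith
  · intro ε hε
    have hv : ∑ i ∈ Finset.range n, ε i • e i
        = ∑ i : Fin n, (if (decide (ε i = 1) : Bool) then (1 : ℝ) else -1) • e i := by
      rw [Finset.sum_range]
      refine Finset.sum_congr rfl ?_
      intro i _
      rcases hε i with h | h
      · simp [h]
      · rw [h]
        norm_num
    have h1 := hF (∑ i ∈ Finset.range n, ε i • e i) (by
      refine Finset.mem_union_right _ (Finset.mem_image.mpr
        ⟨fun i : Fin n => (decide (ε i = 1) : Bool), Finset.mem_univ _, ?_⟩)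
      exact hv.symm)
    have h2 : (q.comp T) (∑ i ∈ Finset.range n, ε i • e i)
        = (2 / θ) * q (∑ i ∈ Finset.range n, ε i • dd i) := by
      change q (T _) = _
      rw [map_sum, ← sn_smul q (by positivity), Finset.smul_sum]
      congr 1
      refine Finset.sum_congr rfl ?_
      intro i _
      rw [map_smul, hTe, smul_comm]
    have h3 := signs_dd hq.spread hq.le_one n ε hε
    have h4 : (2 / θ) * q (∑ i ∈ Finset.range n, ε i • dd i) ≤ (2 / θ) * (2 * B) :=
      mul_le_mul_of_nonneg_left (by linarith) (by positivity)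
    have h5 : (2 / θ) * (2 * B) = 4 * B / θ := by ring
    rw [h2, abs_lt] at h1
    linarith

theorem sum_range_mul' (n M : ℕ) (f : ℕ → V) :
    ∑ i ∈ Finset.range (n * M), f i
      = ∑ l ∈ Finset.range n, ∑ b ∈ Finset.range M, f (M * l + b) := by
  induction n with
  | zero => simp
  | succ n ih =>
    rw [Nat.succ_mul, Finset.sum_range_add, ih, Finset.sum_range_succ]
    congr 1
    refine Finset.sum_congr rfl ?_
    intro b _
    rw [Nat.mul_comm]

theorem Hp_improve {P : Set (Seminorm ℝ V)} (hP : ClosedComp P) {s s' : ℝ} (hs' : 0 < s')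
    (h : ∀ n, Hp P n s) {M : ℕ} (hM : ¬ Hp P M s') (n : ℕ) : Hp P n (s / s') := by
  classical
  obtain ⟨p, hp, h1, h2⟩ := h (n * M)
  have hex : ∀ l : ℕ, ∃ ε : ℕ → ℝ, (∀ i, ε i = 1 ∨ ε i = -1) ∧
      (l < n → s' < p (∑ b ∈ Finset.range M, ε b • e (M * l + b))) := by
    intro l
    by_cases hl : l < n
    · by_contra hcon
      push Not at hcon
      apply hM
      refine ⟨p.comp (Finsupp.lmapDomain ℝ ℝ (fun b => M * l + b)), hP p hp _, ?_, ?_⟩
      · intro i hi
        change 1 ≤ p (Finsupp.mapDomain _ (e i))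
        rw [mapDomain_e]
        refine h1 _ ?_
        have : M * (l + 1) ≤ M * n := Nat.mul_le_mul_left M hl
        rw [Nat.mul_add, mul_one] at this
        rw [Nat.mul_comm n M]
        omega
      · intro ε hε
        have h3 := (hcon ε hε).2
        change p (Finsupp.lmapDomain ℝ ℝ (fun b => M * l + b) _) ≤ _
        rw [map_sum]
        have h4 : ∀ b ∈ Finset.range M,
            (Finsupp.lmapDomain ℝ ℝ (fun b => M * l + b)) (ε b • e b)
              = ε b • e (M * l + b) := by
          intro b _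
          rw [map_smul]
          congr 1
          exact mapDomain_e _ _
        rw [Finset.sum_congr rfl h4]
        exact h3
    · exact ⟨fun _ => 1, fun _ => Or.inl rfl, fun h => absurd h hl⟩
  choose ε hε1 hε2 using hex
  set c : ℕ → V := fun l => ∑ b ∈ Finset.range M, ε l b • e (M * l + b) with hc
  set T : V →ₗ[ℝ] V := Finsupp.linearCombination ℝ (fun l => (1 / s') • c l) with hT
  have hTe : ∀ i, T (e i) = (1 / s') • c i := by
    intro i
    simp [hT, e]
  refine ⟨p.comp T, hP p hp T, ?_, ?_⟩
  · intro l hl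
    change 1 ≤ p (T (e l))
    rw [hTe, sn_smul p (by positivity)]
    have h3 := hε2 l hl
    calc (1 : ℝ) = 1 / s' * s' := by field_simp
      _ ≤ _ := mul_le_mul_of_nonneg_left h3.le (by positivity)
  · intro η hη
    change p (T _) ≤ _
    have h3 : T (∑ i ∈ Finset.range n, η i • e i)
        = (1 / s') • ∑ i ∈ Finset.range (n * M), (η (i / M) * ε (i / M) (i % M)) • e i := by
      rw [map_sum, sum_range_mul', Finset.smul_sum]
      refine Finset.sum_congr rfl ?_
      intro l _
      rw [map_smul, hTe, smul_comm, hc]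
      congr 1
      simp only
      rw [Finset.smul_sum]
      refine Finset.sum_congr rfl ?_
      intro b hb
      rw [Finset.mem_range] at hb
      have e1 := (Nat.div_mod_unique (a := M * l + b) (c := b) (d := l)
        (by omega : 0 < M)).mpr ⟨by omega, hb⟩
      rw [e1.1, e1.2, smul_smul]
    rw [h3, sn_smul p (by positivity)]
    have h4 := h2 (fun i => η (i / M) * ε (i / M) (i % M)) (by
      intro i
      rcases hη (i / M) with h | h <;> rcases hε1 (i / M) (i % M) with h' | h' <;>
        simp [h, h'])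
    calc 1 / s' * _ ≤ 1 / s' * s := mul_le_mul_of_nonneg_left h4 (by positivity)
      _ = s / s' := by ring

theorem Hp_near_one {P : Set (Seminorm ℝ V)} (hP : ClosedComp P) {s₀ : ℝ}
    (h : ∀ n, Hp P n s₀) (δ : ℝ) (hδ : 0 < δ) (n : ℕ) : Hp P n (1 + δ) := by
  set A : Set ℝ := {s | ∀ n, Hp P n s} with hA
  have hAne : A.Nonempty := ⟨s₀, h⟩
  have hA1 : ∀ s ∈ A, 1 ≤ s := by
    intro s hs
    obtain ⟨p, _, h1, h2⟩ := hs 1
    have h3 := h1 0 (by norm_num)
    have h4 := h2 (fun _ => 1) (fun _ => Or.inl rfl)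
    simp only [Finset.range_one, Finset.sum_singleton, one_smul] at h4
    linarith
  have hAb : BddBelow A := ⟨1, hA1⟩
  have hS1 : 1 ≤ sInf A := le_csInf hAne hA1
  have key : ∀ η : ℝ, 0 < η → η < 1 → sInf A ≤ (1 + η) / (1 - η) := by
    intro η h0 h1
    obtain ⟨s, hs, hs2⟩ := exists_lt_of_csInf_lt hAne
      (show sInf A < sInf A * (1 + η) by nlinarith)
    have h5 : sInf A * (1 - η) < sInf A := by nlinarith
    have h6 : sInf A * (1 - η) ∉ A := fun hmem => by
      have := csInf_le hAb hmem
      linarith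
    have h7 : ∃ M, ¬ Hp P M (sInf A * (1 - η)) := by
      by_contra hcon
      push Not at hcon
      exact h6 hcon
    obtain ⟨M, hM⟩ := h7
    have hpos : 0 < sInf A * (1 - η) := by
      have : 0 < 1 - η := by linarith
      positivity
    have h8 : s / (sInf A * (1 - η)) ∈ A := fun n => Hp_improve hP hpos hs hM n
    have h9 := csInf_le hAb h8
    refine h9.trans ?_
    have : 0 < 1 - η := by linarith
    rw [div_le_div_iff₀ hpos this]
    nlinarith
  have hS : sInf A < 1 + δ := by
    set η : ℝ := min (δ / 4) (1 / 4) with hη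
    have h0 : 0 < η := by positivity
    have h1 : η ≤ 1 / 4 := min_le_right _ _
    have h2 : η ≤ δ / 4 := min_le_left _ _
    have h3 := key η h0 (by linarith)
    refine h3.trans_lt ?_
    rw [div_lt_iff₀ (by linarith)]
    nlinarith
  obtain ⟨s, hs, hs2⟩ := exists_lt_of_csInf_lt hAne hS
  exact Hp_mono hs2.le (hs n)

theorem near_of_mem {P : Set (Seminorm ℝ V)} {p : Seminorm ℝ V} (hp : p ∈ P) : Near P p :=
  fun _ ε hε => ⟨p, hp, fun a _ => by simpa using hε⟩

theorem case_bounded {P : Set (Seminorm ℝ V)} (hP : ClosedComp P) {θ : ℝ} (hθ : 0 < θ) (B : ℝ)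
    (hbd : ∀ R, ∃ q, Good P θ q ∧ q (alt R) < B) (n : ℕ) (hn : 1 ≤ n) (δ : ℝ) (hδ : 0 < δ) :
    ∃ p ∈ P, Simp n δ p := by
  have h0 : ∀ n, Hp P n (4 * B / θ + 1) := by
    intro n
    obtain ⟨q, hq, hB⟩ := hbd n
    exact Hp_of_good hP hθ hq n hB
  obtain ⟨p, hp, h1, h2⟩ := Hp_near_one hP h0 (δ / 4) (by positivity) (n + 1)
  have hpair : ∀ i j, i ≤ n → j ≤ n → i ≠ j → ∀ σ : ℝ, (σ = 1 ∨ σ = -1) →
      p (e i + σ • e j) ≤ 1 + δ / 4 := by
    intro i j hi hj hij σ hσ
    have ha := h2 (fun l => if l = i then 1 else if l = j then σ else 1) (by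
      intro l
      split_ifs
      · exact Or.inl rfl
      · exact hσ
      · exact Or.inl rfl)
    have hb := h2 (fun l => if l = i then 1 else if l = j then σ else -1) (by
      intro l
      split_ifs
      · exact Or.inl rfl
      · exact hσ
      · exact Or.inr rfl)
    have hsum : ∑ l ∈ Finset.range (n + 1), (if l = i then (1 : ℝ) else if l = j then σ else 1) • e l
        + ∑ l ∈ Finset.range (n + 1), (if l = i then (1 : ℝ) else if l = j then σ else -1) • e l
        = (2 : ℝ) • (e i + σ • e j) := by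
      rw [← Finset.sum_add_distrib]
      have h3 : ∀ l ∈ Finset.range (n + 1),
          (if l = i then (1 : ℝ) else if l = j then σ else 1) • e l
            + (if l = i then (1 : ℝ) else if l = j then σ else -1) • e l
          = (if l = i then (2 : ℝ) • e i else 0) + (if l = j then (2 * σ) • e j else 0) := by
        intro l _
        by_cases hl : l = i
        · subst hl
          simp only [↓reduceIte, if_neg hij]
          module
        · by_cases hl2 : l = j
          · subst hl2
            simp only [↓reduceIte, if_neg hl]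
            module
          · simp only [if_neg hl, if_neg hl2]
            module
      rw [Finset.sum_congr rfl h3, Finset.sum_add_distrib, Finset.sum_ite_eq',
        Finset.sum_ite_eq', if_pos (Finset.mem_range.mpr (by omega)),
        if_pos (Finset.mem_range.mpr (by omega))]
      module
    have h4 := map_add_le_add p
      (∑ l ∈ Finset.range (n + 1), (if l = i then (1 : ℝ) else if l = j then σ else 1) • e l)
      (∑ l ∈ Finset.range (n + 1), (if l = i then (1 : ℝ) else if l = j then σ else -1) • e l)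
    rw [hsum, sn_smul p (by norm_num)] at h4
    linarith
  refine near_simp hP (near_of_mem hp) n (1 + δ / 4) (δ / 2) δ (by positivity) (by linarith)
    hδ.le ?_ ?_
  · intro i hi j hj
    by_cases hij : i = j
    · subst hij
      simp only [sub_self, map_zero]
      positivity
    · have := hpair i j hi hj hij (-1) (Or.inr rfl)
      rwa [neg_one_smul, ← sub_eq_add_neg] at this
  · intro j hj
    set g := (1 / (n : ℝ)) • ∑ i ∈ (Finset.range (n + 1)).erase j, e i with hg
    have hcard : ((Finset.range (n + 1)).erase j).card = n := by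
      rw [Finset.card_erase_of_mem (Finset.mem_range.mpr (by omega)), Finset.card_range]
      omega
    have hn' : (0 : ℝ) < n := by positivity
    have h3 : e j + g = (1 / (n : ℝ)) • ∑ i ∈ (Finset.range (n + 1)).erase j, (e j + e i) := by
      rw [Finset.sum_add_distrib, Finset.sum_const, hcard, ← Nat.cast_smul_eq_nsmul ℝ n,
        smul_add, smul_smul, one_div, inv_mul_cancel₀ hn'.ne', one_smul, hg, one_div]
    have h4 : p (e j + g) ≤ 1 + δ / 4 := by
      rw [h3, sn_smul p (by positivity)]
      have h5 : p (∑ i ∈ (Finset.range (n + 1)).erase j, (e j + e i)) ≤ n * (1 + δ / 4) := by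
        refine (sn_sum_le p _ _).trans ?_
        have h6 : ∀ i ∈ (Finset.range (n + 1)).erase j, p (e j + e i) ≤ 1 + δ / 4 := by
          intro i hi
          rw [Finset.mem_erase, Finset.mem_range] at hi
          have := hpair j i hj (by omega) (fun h => hi.1 h.symm) 1 (Or.inl rfl)
          rwa [one_smul] at this
        refine (Finset.sum_le_sum h6).trans ?_
        rw [Finset.sum_const, hcard, nsmul_eq_mul]
      calc 1 / (n : ℝ) * _ ≤ 1 / (n : ℝ) * (n * (1 + δ / 4)) :=
            mul_le_mul_of_nonneg_left h5 (by positivity)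
        _ = 1 + δ / 4 := by field_simp
    have h7 : (2 : ℝ) • e j = (e j + g) + (e j - g) := by module
    have h8 := map_add_le_add p (e j + g) (e j - g)
    rw [← h7, sn_smul p (by norm_num)] at h8
    have h9 := h1 j (by omega)
    nlinarith

/-- Main abstract theorem: long separated sequences give diametral simplices. -/
theorem exists_simp {P : Set (Seminorm ℝ V)} (hP : ClosedComp P) {θ : ℝ} (hθ : 0 < θ)
    (H : ∀ n : ℕ, ∃ p ∈ P, (∀ i, p (e i) ≤ 1) ∧
      ∀ k, ∀ u ∈ Cv (Set.Iio k), ∀ v ∈ Cv (Set.Ico k n), θ ≤ p (u - v))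
    (n : ℕ) (hn : 1 ≤ n) (δ : ℝ) (hδ : 0 < δ) : ∃ p ∈ P, Simp n δ p := by
  by_cases h : ∀ B : ℝ, ∃ R, ∀ q, Good P θ q → B ≤ q (alt R)
  · exact case_unbounded hP (exists_good P hP θ H) h n hn δ hδ
  · push Not at h
    obtain ⟨B, hB⟩ := h
    exact case_bounded hP hθ B hB n hn δ hδ

end Pool.Agent.Lib.UNS
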