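import Pool.Agent.Lib.MP_e45c49_an.Transfer

/-!
# Uniform normal structure excludes long separated sequences in `ℓ_2^N(X)`
-/

set_option autoImplicit false

open Filter Topology

namespace Pool.Agent.Lib.UNS

/-- seminorms realised in `ℓ_2^N(X)` -/
def PX (X : Type*) [NormedAddCommGroup X] [NormedSpace ℝ X] : Set (Seminorm ℝ V) :=
  {p | ∃ (ι : Type) (_ : Fintype ι) (L : V →ₗ[ℝ] (ι → X)), ∀ a, p a ^ 2 = ∑ i, ‖L a i‖ ^ 2}

theorem PX_closed (X : Type*) [NormedAddCommGroup X] [NormedSpace ℝ X] : ClosedComp (PX X) := by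
  rintro p ⟨ι, hι, L, hL⟩ T
  exact ⟨ι, hι, L ∘ₗ T, fun a => hL (T a)⟩

theorem l2_point {ι : Type} [Fintype ι] (n : ℕ) (hn : 1 ≤ n) (δ : ℝ) (hδ : 0 < δ)
    (hδ' : δ ≤ 1 / 2) (D : Fin (n + 1) → Fin (n + 1) → ι → ℝ) (E : Fin (n + 1) → ι → ℝ)
    (hsymm : ∀ i j, D i j = D j i)
    (hDn : ∀ i j, ∑ w, D i j w ^ 2 ≤ 1) (hE0 : ∀ j w, 0 ≤ E j w)
    (hEn : ∀ j, (1 - δ) ^ 2 ≤ ∑ w, E j w ^ 2)
    (hED : ∀ j w, n * E j w ≤ ∑ i ∈ Finset.univ.erase j, D i j w) :
    ∃ w, 0 < E 0 w ∧
      (∀ j, (E j w - E 0 w) ^ 2 ≤ 4 * (((n : ℝ) + 1) * (16 * n) + ((n : ℝ) + 1) ^ 2 * (40 * n))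
        * δ * E 0 w ^ 2) ∧
      (∀ i j, i ≠ j → (D i j w - E 0 w) ^ 2
        ≤ 4 * (((n : ℝ) + 1) * (16 * n) + ((n : ℝ) + 1) ^ 2 * (40 * n)) * δ * E 0 w ^ 2) := by
  have hn' : (1 : ℝ) ≤ n := by exact_mod_cast hn
  have hcard : ∀ j : Fin (n + 1), (Finset.univ.erase j).card = n := by
    intro j
    rw [Finset.card_erase_of_mem (Finset.mem_univ j), Finset.card_univ, Fintype.card_fin]
    omega
  -- inner products
  have hip : ∀ j, n * ∑ w, E j w ^ 2 ≤ ∑ i ∈ Finset.univ.erase j, ∑ w, E j w * D i j w := by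
    intro j
    rw [Finset.sum_comm, Finset.mul_sum]
    refine Finset.sum_le_sum ?_
    intro w _
    rw [← Finset.mul_sum]
    have := mul_le_mul_of_nonneg_left (hED j w) (hE0 j w)
    nlinarith
  have hcs : ∀ i j, ∑ w, E j w * D i j w ≤ (∑ w, E j w ^ 2 + 1) / 2 := by
    intro i j
    have h1 : ∑ w, E j w * D i j w ≤ ∑ w, (E j w ^ 2 + D i j w ^ 2) / 2 := by
      refine Finset.sum_le_sum ?_
      intro w _
      nlinarith [sq_nonneg (E j w - D i j w)]
    rw [← Finset.sum_div, Finset.sum_add_distrib] at h1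
    have := hDn i j
    linarith
  have hE1 : ∀ j, ∑ w, E j w ^ 2 ≤ 1 := by
    intro j
    have h1 := hip j
    have h2 : ∑ i ∈ Finset.univ.erase j, ∑ w, E j w * D i j w
        ≤ ∑ i ∈ Finset.univ.erase j, (∑ w, E j w ^ 2 + 1) / 2 :=
      Finset.sum_le_sum (fun i _ => hcs i j)
    rw [Finset.sum_const, hcard, nsmul_eq_mul] at h2
    nlinarith
  have hip1 : ∀ i j, i ≠ j → 1 - 2 * n * δ ≤ ∑ w, E j w * D i j w := by
    intro i j hij
    have h1 := hip j
    rw [← Finset.add_sum_erase _ _ (Finset.mem_erase.mpr ⟨hij, Finset.mem_univ i⟩)] at h1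
    have h2 : ∑ k ∈ (Finset.univ.erase j).erase i, ∑ w, E j w * D k j w
        ≤ ∑ k ∈ (Finset.univ.erase j).erase i, (1 : ℝ) := by
      refine Finset.sum_le_sum ?_
      intro k _
      have := hcs k j
      have := hE1 j
      linarith
    rw [Finset.sum_const, Finset.card_erase_of_mem
      (Finset.mem_erase.mpr ⟨hij, Finset.mem_univ i⟩), hcard, nsmul_eq_mul,
      Nat.cast_sub hn] at h2
    simp only [Nat.cast_one, mul_one] at h2
    have h3 := hEn j
    have h4 : (1 - δ) ^ 2 ≥ 1 - 2 * δ := by nlinarith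
    have h5 : n * (1 - 2 * δ) ≤ n * ∑ w, E j w ^ 2 :=
      mul_le_mul_of_nonneg_left (by linarith) (by linarith)
    nlinarith
  have hclose : ∀ i j, i ≠ j → ∑ w, (E j w - D i j w) ^ 2 ≤ 4 * n * δ := by
    intro i j hij
    have h1 : ∑ w, (E j w - D i j w) ^ 2
        = ∑ w, E j w ^ 2 + ∑ w, D i j w ^ 2 - 2 * ∑ w, E j w * D i j w := by
      rw [Finset.mul_sum, ← Finset.sum_add_distrib, ← Finset.sum_sub_distrib]
      refine Finset.sum_congr rfl ?_
      intro w _
      ring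
    have := hip1 i j hij
    have := hE1 j
    have := hDn i j
    rw [h1]
    linarith
  have hsq : ∀ (a b c : ι → ℝ), ∑ w, (a w - c w) ^ 2
      ≤ 2 * ∑ w, (a w - b w) ^ 2 + 2 * ∑ w, (b w - c w) ^ 2 := by
    intro a b c
    rw [Finset.mul_sum, Finset.mul_sum, ← Finset.sum_add_distrib]
    refine Finset.sum_le_sum ?_
    intro w _
    nlinarith [sq_nonneg (a w - b w - (b w - c w))]
  have hEE : ∀ j, ∑ w, (E j w - E 0 w) ^ 2 ≤ 16 * n * δ := by
    intro j
    by_cases hj : j = 0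
    · subst hj
      simp only [sub_self, ne_eq, OfNat.ofNat_ne_zero, not_false_eq_true, zero_pow,
        Finset.sum_const_zero]
      positivity
    · have h1 := hsq (E j) (D 0 j) (E 0)
      have h2 := hclose 0 j (fun h => hj h.symm)
      have h3 := hclose j 0 hj
      have h4 : ∑ w, (D 0 j w - E 0 w) ^ 2 = ∑ w, (E 0 w - D j 0 w) ^ 2 := by
        refine Finset.sum_congr rfl ?_
        intro w _
        rw [hsymm 0 j]
        ring
      rw [h4] at h1
      linarith
  have hDE : ∀ i j, i ≠ j → ∑ w, (D i j w - E 0 w) ^ 2 ≤ 40 * n * δ := by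
    intro i j hij
    have h1 := hsq (D i j) (E j) (E 0)
    have h2 := hclose i j hij
    have h3 := hEE j
    have h4 : ∑ w, (D i j w - E j w) ^ 2 = ∑ w, (E j w - D i j w) ^ 2 := by
      refine Finset.sum_congr rfl ?_
      intro w _
      ring
    rw [h4] at h1
    linarith
  -- the total
  set M : ℝ := ((n : ℝ) + 1) * (16 * n) + ((n : ℝ) + 1) ^ 2 * (40 * n) with hM
  have hMpos : 0 < M := by positivity
  set Φ : ι → ℝ := fun w => ∑ j, (E j w - E 0 w) ^ 2
    + ∑ i, ∑ j, (if i = j then 0 else (D i j w - E 0 w) ^ 2) with hΦ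
  have hΦsum : ∑ w, Φ w ≤ M * δ := by
    rw [hΦ]
    simp only
    rw [Finset.sum_add_distrib]
    have h1 : ∑ w, ∑ j, (E j w - E 0 w) ^ 2 ≤ (n + 1) * (16 * n * δ) := by
      rw [Finset.sum_comm]
      refine (Finset.sum_le_sum (fun j _ => hEE j)).trans ?_
      simp
    have h2 : ∑ w, ∑ i, ∑ j, (if i = j then 0 else (D i j w - E 0 w) ^ 2)
        ≤ (n + 1) * ((n + 1) * (40 * n * δ)) := by
      rw [Finset.sum_comm]
      have h3 : ∀ i ∈ (Finset.univ : Finset (Fin (n + 1))),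
          ∑ w, ∑ j, (if i = j then 0 else (D i j w - E 0 w) ^ 2) ≤ (n + 1) * (40 * n * δ) := by
        intro i _
        rw [Finset.sum_comm]
        have h4 : ∀ j ∈ (Finset.univ : Finset (Fin (n + 1))),
            ∑ w, (if i = j then 0 else (D i j w - E 0 w) ^ 2) ≤ 40 * n * δ := by
          intro j _
          by_cases hij : i = j
          · simp only [if_pos hij, Finset.sum_const_zero]
            positivity
          · simp only [if_neg hij]
            exact hDE i j hij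
        refine (Finset.sum_le_sum h4).trans ?_
        simp
      refine (Finset.sum_le_sum h3).trans ?_
      simp
    rw [hM]
    nlinarith
  have hΦ0 : ∀ w, 0 ≤ Φ w := by
    intro w
    rw [hΦ]
    simp only
    refine add_nonneg (Finset.sum_nonneg (fun j _ => sq_nonneg _)) ?_
    refine Finset.sum_nonneg (fun i _ => Finset.sum_nonneg (fun j _ => ?_))
    split_ifs
    · exact le_rfl
    · exact sq_nonneg _
  have hex : ∃ w, 0 < E 0 w ∧ Φ w ≤ 4 * M * δ * E 0 w ^ 2 := by
    by_contra hcon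
    push Not at hcon
    have hpos : ∃ w, 0 < E 0 w := by
      by_contra hz
      push Not at hz
      have : ∑ w, E 0 w ^ 2 = 0 := by
        refine Finset.sum_eq_zero ?_
        intro w _
        have : E 0 w = 0 := le_antisymm (hz w) (hE0 0 w)
        rw [this]; norm_num
      have h2 := hEn 0
      rw [this] at h2
      nlinarith
    obtain ⟨w0, hw0⟩ := hpos
    have h1 : ∑ w, 4 * M * δ * E 0 w ^ 2 < ∑ w, Φ w := by
      refine Finset.sum_lt_sum ?_ ⟨w0, Finset.mem_univ _, hcon w0 hw0⟩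
      intro w _
      rcases (hE0 0 w).lt_or_eq with h | h
      · exact (hcon w h).le
      · rw [← h]
        simpa using hΦ0 w
    rw [← Finset.mul_sum] at h1
    have h2 : 1 / 4 ≤ ∑ w, E 0 w ^ 2 := by
      have := hEn 0
      nlinarith
    have h3 : 4 * M * δ * (1 / 4) ≤ 4 * M * δ * ∑ w, E 0 w ^ 2 :=
      mul_le_mul_of_nonneg_left h2 (by positivity)
    linarith
  obtain ⟨w, hw1, hw2⟩ := hex
  refine ⟨w, hw1, ?_, ?_⟩
  · intro j
    refine le_trans ?_ hw2
    rw [hΦ]
    simp only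
    have h1 : (E j w - E 0 w) ^ 2 ≤ ∑ j, (E j w - E 0 w) ^ 2 :=
      Finset.single_le_sum (f := fun j => (E j w - E 0 w) ^ 2)
        (fun j _ => sq_nonneg _) (Finset.mem_univ j)
    have h2 : 0 ≤ ∑ i, ∑ j, (if i = j then 0 else (D i j w - E 0 w) ^ 2) := by
      refine Finset.sum_nonneg (fun i _ => Finset.sum_nonneg (fun j _ => ?_))
      split_ifs
      · exact le_rfl
      · exact sq_nonneg _
    linarith
  · intro i j hij
    refine le_trans ?_ hw2
    rw [hΦ]
    simp only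
    have h0 : ∀ i j : Fin (n + 1), 0 ≤ (if i = j then 0 else (D i j w - E 0 w) ^ 2) := by
      intro i j
      split_ifs
      · exact le_rfl
      · exact sq_nonneg _
    have h1 : (D i j w - E 0 w) ^ 2 = (if i = j then 0 else (D i j w - E 0 w) ^ 2) := by
      rw [if_neg hij]
    have h2 : (if i = j then 0 else (D i j w - E 0 w) ^ 2)
        ≤ ∑ j, (if i = j then 0 else (D i j w - E 0 w) ^ 2) :=
      Finset.single_le_sum (f := fun j => (if i = j then 0 else (D i j w - E 0 w) ^ 2))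
        (fun j _ => h0 i j) (Finset.mem_univ j)
    have h3 : ∑ j, (if i = j then 0 else (D i j w - E 0 w) ^ 2)
        ≤ ∑ i, ∑ j, (if i = j then 0 else (D i j w - E 0 w) ^ 2) :=
      Finset.single_le_sum (f := fun i => ∑ j, (if i = j then 0 else (D i j w - E 0 w) ^ 2))
        (fun i _ => Finset.sum_nonneg (fun j _ => h0 i j)) (Finset.mem_univ i)
    have h4 : 0 ≤ ∑ j, (E j w - E 0 w) ^ 2 := Finset.sum_nonneg (fun j _ => sq_nonneg _)
    linarith

theorem no_simp (X : Type*) [NormedAddCommGroup X] [NormedSpace ℝ X] {c : ℝ} (hX : UNSc X c)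
    (hc : c < 1) : ∃ n : ℕ, 1 ≤ n ∧ ∃ δ : ℝ, 0 < δ ∧ ¬ ∃ p ∈ PX X, Simp n δ p := by
  have hc1 : max c 0 < 1 := max_lt hc one_pos
  have hc0 : 0 ≤ max c 0 := le_max_right _ _
  set c' := max c 0 with hc'
  obtain ⟨n, hn⟩ := exists_nat_gt (1 / (1 - c'))
  have hpos : 0 < 1 - c' := by linarith
  have hn1 : 1 ≤ n := by
    have : (0 : ℝ) < n := lt_trans (by positivity) hn
    exact_mod_cast this
  have hn' : (1 : ℝ) ≤ n := by exact_mod_cast hn1
  have hg : c' < (n : ℝ) / (n + 1) := by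
    rw [lt_div_iff₀ (by positivity)]
    rw [div_lt_iff₀ hpos] at hn
    nlinarith
  set g : ℝ := (n : ℝ) / (n + 1) - c' with hgdef
  have hg0 : 0 < g := by linarith
  have hnn1 : (n : ℝ) / (n + 1) ≤ 1 := by
    rw [div_le_one (by positivity)]
    linarith
  have hg1 : g ≤ 1 := by linarith
  set η : ℝ := g / (2 * (2 * n + 1)) with hη
  have hηpos : 0 < η := by positivity
  have hηg : η * (2 * n + 1) = g / 2 := by
    rw [hη]
    field_simp
  set M : ℝ := ((n : ℝ) + 1) * (16 * n) + ((n : ℝ) + 1) ^ 2 * (40 * n) with hM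
  have hMpos : 0 < M := by positivity
  set δ : ℝ := min (1 / 2) (η ^ 2 / (4 * M)) with hδ
  have hδpos : 0 < δ := by positivity
  have hδ2 : δ ≤ 1 / 2 := min_le_left _ _
  have hδM : 4 * M * δ ≤ η ^ 2 := by
    have : δ ≤ η ^ 2 / (4 * M) := min_le_right _ _
    calc 4 * M * δ ≤ 4 * M * (η ^ 2 / (4 * M)) :=
          mul_le_mul_of_nonneg_left this (by positivity)
      _ = η ^ 2 := by field_simp
  refine ⟨n, hn1, δ, hδpos, ?_⟩
  rintro ⟨p, ⟨ι, hι, L, hL⟩, hS1, hS2⟩
  -- the functions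
  let z : Fin (n + 1) → ι → X := fun i => L (e i)
  have hsumfin : ∀ (F : ℕ → V) (j : Fin (n + 1)),
      ∑ i ∈ (Finset.range (n + 1)).erase (j : ℕ), F i = ∑ i ∈ Finset.univ.erase j, F i := by
    intro F j
    have h1 := Finset.add_sum_erase (Finset.range (n + 1)) F
      (Finset.mem_range.mpr j.isLt)
    have h2 := Finset.add_sum_erase Finset.univ (fun i : Fin (n + 1) => F i) (Finset.mem_univ j)
    rw [Finset.sum_range] at h1
    rw [← h2] at h1
    exact add_left_cancel h1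
  have hLg : ∀ (j : Fin (n + 1)) (w : ι),
      L (e j - (1 / (n : ℝ)) • ∑ i ∈ (Finset.range (n + 1)).erase (j : ℕ), e i) w
        = z j w - (1 / (n : ℝ)) • ∑ i ∈ Finset.univ.erase j, z i w := by
    intro j w
    rw [hsumfin e j, map_sub, map_smul, map_sum]
    simp [z]
  obtain ⟨w, hw0, hwE, hwD⟩ := l2_point n hn1 δ hδpos hδ2
    (fun i j w => ‖z i w - z j w‖)
    (fun j w => ‖z j w - (1 / (n : ℝ)) • ∑ i ∈ Finset.univ.erase j, z i w‖)
    (fun i j => by
      funext w
      exact norm_sub_rev _ _)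
    (fun i j => by
      have h1 := hS1 i (by omega) j (by omega)
      have h2 := hL (e i - e j)
      have h3 : ∀ w, L (e i - e j) w = z i w - z j w := by
        intro w
        rw [map_sub]
        rfl
      simp only [h3] at h2
      rw [← h2]
      have h4 : 0 ≤ p (e i - e j) := apply_nonneg _ _
      nlinarith)
    (fun j w => norm_nonneg _)
    (fun j => by
      have h1 := hS2 j (by omega)
      have h2 := hL (e j - (1 / (n : ℝ)) • ∑ i ∈ (Finset.range (n + 1)).erase (j : ℕ), e i)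
      simp only [hLg] at h2
      rw [← h2]
      have : 0 ≤ 1 - δ := by linarith
      exact pow_le_pow_left₀ this h1 2)
    (fun j w => by
      have hcard : (Finset.univ.erase j).card = n := by
        rw [Finset.card_erase_of_mem (Finset.mem_univ j), Finset.card_univ, Fintype.card_fin]
        omega
      have h2 : (n : ℝ) • (z j w - (1 / (n : ℝ)) • ∑ i ∈ Finset.univ.erase j, z i w)
          = ∑ i ∈ Finset.univ.erase j, (z j w - z i w) := by
        rw [Finset.sum_sub_distrib, Finset.sum_const, hcard, smul_sub, smul_smul,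
          mul_one_div_cancel (by positivity), one_smul, Nat.cast_smul_eq_nsmul]
      calc (n : ℝ) * ‖z j w - (1 / (n : ℝ)) • ∑ i ∈ Finset.univ.erase j, z i w‖
          = ‖(n : ℝ) • (z j w - (1 / (n : ℝ)) • ∑ i ∈ Finset.univ.erase j, z i w)‖ := by
            rw [norm_smul, Real.norm_eq_abs, abs_of_nonneg (by positivity)]
        _ = ‖∑ i ∈ Finset.univ.erase j, (z j w - z i w)‖ := by rw [h2]
        _ ≤ ∑ i ∈ Finset.univ.erase j, ‖z j w - z i w‖ := norm_sum_le _ _
        _ = ∑ i ∈ Finset.univ.erase j, ‖z i w - z j w‖ :=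
            Finset.sum_congr rfl (fun i _ => norm_sub_rev _ _))
  set E : ℝ := ‖z 0 w - (1 / (n : ℝ)) • ∑ i ∈ Finset.univ.erase 0, z i w‖ with hE
  have habs : ∀ x : ℝ, (x - E) ^ 2 ≤ 4 * M * δ * E ^ 2 → |x - E| ≤ η * E := by
    intro x hx
    have h1 : (x - E) ^ 2 ≤ (η * E) ^ 2 := by
      rw [mul_pow]
      exact hx.trans (mul_le_mul_of_nonneg_right hδM (sq_nonneg E))
    exact abs_le_of_sq_le_sq h1 (by positivity)
  have hfin := simplex_bound' hX n hn1 (fun i => z i w) E η hw0 hηpos.le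
    (by nlinarith)
    (fun i j hij => by
      have h1 := habs _ (hwD i j hij)
      rw [abs_le] at h1
      linarith)
    (fun j => by
      have h1 := habs _ (hwE j)
      rw [abs_le] at h1
      linarith)
  rw [← hc'] at hfin
  have h10 : (n : ℝ) / (n + 1) * (1 - 2 * n * η) ≥ (n : ℝ) / (n + 1) - 2 * n * η := by
    have : (n : ℝ) / (n + 1) * (2 * n * η) ≤ 1 * (2 * n * η) :=
      mul_le_mul_of_nonneg_right hnn1 (by positivity)
    linarith
  have h11 : c' * (1 + η) ≤ c' + η := by nlinarith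
  nlinarith

/-- UNS excludes long separated sequences. -/
theorem uns_no_long (X : Type*) [NormedAddCommGroup X] [NormedSpace ℝ X] {c : ℝ} (hX : UNSc X c)
    (hc : c < 1) (θ : ℝ) (hθ : 0 < θ) : ∃ N : ℕ, ¬ ∃ p ∈ PX X, (∀ i, p (e i) ≤ 1) ∧
      ∀ k, ∀ u ∈ Cv (Set.Iio k), ∀ v ∈ Cv (Set.Ico k N), θ ≤ p (u - v) := by
  by_contra hcon
  push Not at hcon
  obtain ⟨n, hn, δ, hδ, hno⟩ := no_simp X hX hc
  exact hno (exists_simp (PX_closed X) hθ hcon n hn δ hδ)

end Pool.Agent.Lib.UNS
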