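import Pool.Agent.Lib.MP_e45c49_an.Deriv

/-!
# The uniformly convex renorming
-/

set_option autoImplicit false

open Filter Topology

namespace Pool.Agent.Lib.UNS

variable {X : Type} [NormedAddCommGroup X] [NormedSpace ℝ X]

section l2sum

variable {ι : Type} (g : ι → X → ℝ)

/-- the `ℓ_2` sum of a family of functions -/
noncomputable def l2N (x : X) : ℝ := Real.sqrt (∑' i, g i x ^ 2)

omit [NormedAddCommGroup X] [NormedSpace ℝ X] in
theorem l2N_sq (x : X) : l2N g x ^ 2 = ∑' i, g i x ^ 2 :=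
  Real.sq_sqrt (tsum_nonneg (fun _ => sq_nonneg _))

omit [NormedAddCommGroup X] [NormedSpace ℝ X] in
theorem l2N_nonneg (x : X) : 0 ≤ l2N g x := Real.sqrt_nonneg _

variable {g}

theorem l2N_smul (hsm : ∀ i (t : ℝ) x, g i (t • x) = |t| * g i x) (t : ℝ) (x : X) :
    l2N g (t • x) = |t| * l2N g x := by
  unfold l2N
  have : ∑' i, g i (t • x) ^ 2 = |t| ^ 2 * ∑' i, g i x ^ 2 := by
    rw [← tsum_mul_left]
    refine tsum_congr ?_
    intro i
    rw [hsm]
    ring
  rw [this, Real.sqrt_mul (by positivity), Real.sqrt_sq (abs_nonneg t)]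

omit [NormedSpace ℝ X] in
theorem l2N_add (h0 : ∀ i x, 0 ≤ g i x) (hadd : ∀ i x y, g i (x + y) ≤ g i x + g i y)
    (hs : ∀ x, Summable (fun i => g i x ^ 2)) (x y : X) :
    l2N g (x + y) ≤ l2N g x + l2N g y := by
  -- for all s > 0, N(x+y)^2 ≤ (1+s) N(x)^2 + (1+1/s) N(y)^2
  have key : ∀ s : ℝ, 0 < s →
      l2N g (x + y) ^ 2 ≤ (1 + s) * l2N g x ^ 2 + (1 + 1 / s) * l2N g y ^ 2 := by
    intro s hs0
    rw [l2N_sq, l2N_sq, l2N_sq, ← tsum_mul_left, ← tsum_mul_left,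
      ← Summable.tsum_add ((hs x).mul_left _) ((hs y).mul_left _)]
    refine Summable.tsum_le_tsum ?_ (hs _) (((hs x).mul_left _).add ((hs y).mul_left _))
    intro i
    have h1 := hadd i x y
    have h2 : g i (x + y) ^ 2 ≤ (g i x + g i y) ^ 2 := pow_le_pow_left₀ (h0 i _) h1 2
    refine h2.trans ?_
    have h3 : 0 ≤ (s * g i x - g i y) ^ 2 / s := by positivity
    have h4 : (s * g i x - g i y) ^ 2 / s = s * g i x ^ 2 - 2 * g i x * g i y + 1 / s * g i y ^ 2 := by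
      field_simp
      ring
    rw [h4] at h3
    nlinarith
  have hx := l2N_nonneg g x
  have hy := l2N_nonneg g y
  have hxy := l2N_nonneg g (x + y)
  -- use s = (b + r)/(a + r)
  have key2 : ∀ r : ℝ, 0 < r → l2N g (x + y) ≤ l2N g x + l2N g y + 2 * r := by
    intro r hr
    set a := l2N g x
    set b := l2N g y
    have h1 := key ((b + r) / (a + r)) (by positivity)
    have har : 0 < a + r := by positivity
    have hbr : 0 < b + r := by positivity
    have h2 : (1 + (b + r) / (a + r)) * a ^ 2 + (1 + 1 / ((b + r) / (a + r))) * b ^ 2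
        ≤ (a + b + 2 * r) ^ 2 := by
      have e1 : (1 + (b + r) / (a + r)) * a ^ 2 ≤ (1 + (b + r) / (a + r)) * (a + r) ^ 2 := by
        refine mul_le_mul_of_nonneg_left ?_ (by positivity)
        exact pow_le_pow_left₀ hx (by linarith) 2
      have e2 : (1 + 1 / ((b + r) / (a + r))) * b ^ 2
          ≤ (1 + 1 / ((b + r) / (a + r))) * (b + r) ^ 2 := by
        refine mul_le_mul_of_nonneg_left ?_ (by positivity)
        exact pow_le_pow_left₀ hy (by linarith) 2
      have e3 : (1 + (b + r) / (a + r)) * (a + r) ^ 2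
          + (1 + 1 / ((b + r) / (a + r))) * (b + r) ^ 2 = (a + b + 2 * r) ^ 2 := by
        field_simp
        ring
      linarith
    exact le_of_sq_le_sq'' (h1.trans h2) (by positivity)
  refine le_of_forall_pos_le_add ?_
  intro ε hε
  have := key2 (ε / 2) (by positivity)
  linarith
where
  le_of_sq_le_sq'' {a b : ℝ} (h : a ^ 2 ≤ b ^ 2) (hb : 0 ≤ b) : a ≤ b := by
    by_contra hlt
    push Not at hlt
    nlinarith

/-- quantitative convexity in each coordinate -/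
theorem l2N_coord (h0 : ∀ i x, 0 ≤ g i x) (hadd : ∀ i x y, g i (x + y) ≤ g i x + g i y)
    (hsm : ∀ i (t : ℝ) x, g i (t • x) = |t| * g i x)
    (hs : ∀ x, Summable (fun i => g i x ^ 2)) (x y : X) (δ : ℝ) (hδ1 : δ ≤ 2)
    (hx : l2N g x ≤ 1) (hy : l2N g y ≤ 1) (hxy : 2 - δ < l2N g (x + y)) (i : ι) :
    (g i x ^ 2 + g i y ^ 2) / 2 - g i ((1 / 2 : ℝ) • (x + y)) ^ 2 ≤ δ := by
  have hhalf : ∀ i, g i ((1 / 2 : ℝ) • (x + y)) ≤ (g i x + g i y) / 2 := by
    intro i
    rw [hsm, abs_of_nonneg (by norm_num : (0 : ℝ) ≤ 1 / 2)]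
    have := hadd i x y
    linarith
  have hterm : ∀ i, 0 ≤ (g i x ^ 2 + g i y ^ 2) / 2 - g i ((1 / 2 : ℝ) • (x + y)) ^ 2 := by
    intro i
    have h1 : g i ((1 / 2 : ℝ) • (x + y)) ^ 2 ≤ ((g i x + g i y) / 2) ^ 2 :=
      pow_le_pow_left₀ (h0 i _) (hhalf i) 2
    nlinarith [sq_nonneg (g i x - g i y)]
  have hsum1 : Summable (fun i => (g i x ^ 2 + g i y ^ 2) / 2
      - g i ((1 / 2 : ℝ) • (x + y)) ^ 2) :=
    (((hs x).add (hs y)).div_const 2).sub (hs _)
  have h1 := hsum1.le_tsum i (fun j _ => hterm j)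
  have h2 : ∑' i, ((g i x ^ 2 + g i y ^ 2) / 2 - g i ((1 / 2 : ℝ) • (x + y)) ^ 2)
      = (l2N g x ^ 2 + l2N g y ^ 2) / 2 - l2N g ((1 / 2 : ℝ) • (x + y)) ^ 2 := by
    rw [Summable.tsum_sub (((hs x).add (hs y)).div_const 2) (hs _), tsum_div_const,
      Summable.tsum_add (hs x) (hs y), l2N_sq, l2N_sq, l2N_sq]
  rw [h2, l2N_smul hsm, abs_of_nonneg (by norm_num : (0 : ℝ) ≤ 1 / 2)] at h1
  have hx0 := l2N_nonneg g x
  have hy0 := l2N_nonneg g y
  have e1 : l2N g x ^ 2 ≤ 1 := pow_le_one₀ hx0 hx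
  have e2 : l2N g y ^ 2 ≤ 1 := pow_le_one₀ hy0 hy
  have e3 : (1 - δ / 2) ^ 2 ≤ (1 / 2 * l2N g (x + y)) ^ 2 :=
    pow_le_pow_left₀ (by linarith) (by linarith) 2
  nlinarith [sq_nonneg δ]

end l2sum

theorem Cs_convex (ε η : ℝ) (k : ℕ) : Convex ℝ (Cs X ε η k) := by
  cases k with
  | zero => exact convex_closedBall _ _
  | succ k => exact convex_convexHull ℝ _

theorem ball_sub_Cs (ε η : ℝ) (hη1 : η ≤ 1) (k : ℕ) :
    Metric.closedBall 0 η ⊆ Cs X ε η k := by
  cases k with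
  | zero => exact Metric.closedBall_subset_closedBall hη1
  | succ k => exact Set.subset_union_right.trans (subset_convexHull ℝ _)

theorem Cs_symm (ε η : ℝ) (k : ℕ) : ∀ x ∈ Cs X ε η k, -x ∈ Cs X ε η k := by
  induction k with
  | zero =>
    intro x hx
    have hx' : x ∈ Metric.closedBall (0 : X) 1 := hx
    change -x ∈ Metric.closedBall (0 : X) 1
    rw [mem_closedBall_zero_iff] at *
    rwa [norm_neg]
  | succ k ih =>
    have hsub : Cs X ε η (k + 1) ⊆ {x : X | -x ∈ Cs X ε η (k + 1)} := by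
      refine convexHull_min ?_ ?_
      · rintro x (⟨y, hy, z, hz, hyz, rfl⟩ | hx)
        · refine subset_convexHull ℝ _ (Or.inl ⟨-y, ih y hy, -z, ih z hz, ?_, ?_⟩)
          · rwa [neg_sub_neg, norm_sub_rev]
          · module
        · refine subset_convexHull ℝ _ (Or.inr ?_)
          rw [mem_closedBall_zero_iff] at *
          rwa [norm_neg]
      · intro a ha b hb c d hc hd hcd
        have : -(c • a + d • b) = c • (-a) + d • (-b) := by module
        simp only [Set.mem_ofPred_eq]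
        rw [this]
        exact Cs_convex ε η (k + 1) ha hb hc hd hcd
    intro x hx
    exact hsub hx

theorem Cs_absorbent (ε η : ℝ) (hη : 0 < η) (hη1 : η ≤ 1) (k : ℕ) :
    Absorbent ℝ (Cs X ε η k) :=
  absorbent_nhds_zero (Filter.mem_of_superset (Metric.closedBall_mem_nhds 0 hη)
    (ball_sub_Cs ε η hη1 k))

/-- gauges of the derived sets -/
noncomputable def pg (ε η : ℝ) (k : ℕ) (x : X) : ℝ := gauge (Cs X ε η k) x

theorem pg_nonneg (ε η : ℝ) (k : ℕ) (x : X) : 0 ≤ pg ε η k x := gauge_nonneg _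

theorem pg_add (ε η : ℝ) (hη : 0 < η) (hη1 : η ≤ 1) (k : ℕ) (x y : X) :
    pg ε η k (x + y) ≤ pg ε η k x + pg ε η k y :=
  gauge_add_le (Cs_convex ε η k) (Cs_absorbent ε η hη hη1 k) x y

theorem pg_smul (ε η : ℝ) (k : ℕ) (t : ℝ) (x : X) :
    pg ε η k (t • x) = |t| * pg ε η k x := by
  unfold pg
  rcases le_or_gt 0 t with ht | ht
  · rw [gauge_smul_of_nonneg ht, abs_of_nonneg ht, smul_eq_mul]
  · have h1 : t • x = (-t) • (-x) := by module
    rw [h1, gauge_smul_of_nonneg (by linarith), abs_of_neg ht, smul_eq_mul,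
      gauge_neg (Cs_symm ε η k)]

theorem pg_le (ε η : ℝ) (hη : 0 < η) (hη1 : η ≤ 1) (k : ℕ) (x : X) :
    pg ε η k x ≤ ‖x‖ / η := by
  have h1 := gauge_mono (absorbent_nhds_zero (𝕜 := ℝ) (Metric.closedBall_mem_nhds (0 : X) hη))
    (ball_sub_Cs ε η hη1 k) x
  rwa [gauge_closedBall hη.le] at h1

theorem pg_zero (ε η : ℝ) (x : X) : pg ε η 0 x = ‖x‖ := by
  unfold pg
  change gauge (Metric.closedBall 0 1) x = _
  rw [gauge_closedBall zero_le_one, div_one]

theorem mem_of_pg_lt (ε η : ℝ) (hη : 0 < η) (hη1 : η ≤ 1) (k : ℕ) (x : X) (τ : ℝ) (hτ : 0 < τ)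
    (h : pg ε η k x < τ) : (1 / τ) • x ∈ Cs X ε η k := by
  refine setOfPred_gauge_lt_one_subset_self (Cs_convex ε η k) ?_ (Cs_absorbent ε η hη hη1 k) ?_
  · exact ball_sub_Cs ε η hη1 k (by simpa using hη.le)
  · change pg ε η k _ < 1
    rw [pg_smul, abs_of_pos (by positivity)]
    rw [one_div, ← div_eq_inv_mul, div_lt_one hτ]
    exact h

/-- propagation of the estimate through the derived sets -/
theorem propagate (ε η : ℝ) (hη : 0 < η) (hη1 : η ≤ 1) (x y : X)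
    (n : ℕ) (σ : ℝ) (hσ : 0 < σ) (hσn : 4 + σ + 3 * n * σ ≤ 8)
    (hx : ‖x‖ ≤ 4) (hy : ‖y‖ ≤ 4) (hxy : 8 * ε ≤ ‖x - y‖) (hε : 0 ≤ ε)
    (hc : ∀ k ≤ n, (pg ε η k x ^ 2 + pg ε η k y ^ 2) / 2
      - pg ε η k ((1 / 2 : ℝ) • (x + y)) ^ 2 ≤ σ ^ 2) :
    ∃ y' ∈ Cs X ε η n, ∃ z' ∈ Cs X ε η n, ε ≤ ‖y' - z'‖ := by
  have key : ∀ k ≤ n, pg ε η k x < 4 + σ + 3 * k * σ ∧ pg ε η k y < 4 + σ + 3 * k * σ := by
    intro k
    induction k with
    | zero =>
      intro _
      rw [pg_zero, pg_zero]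
      constructor <;> (simp only [Nat.cast_zero]; linarith)
    | succ k ih =>
      intro hk
      obtain ⟨h1, h2⟩ := ih (by omega)
      set τ : ℝ := 4 + σ + 3 * k * σ with hτ
      have hτpos : 0 < τ := by positivity
      have hτ8 : τ ≤ 8 := by
        have : (k : ℝ) ≤ n := by exact_mod_cast (by omega : k ≤ n)
        have : 3 * (k : ℝ) * σ ≤ 3 * n * σ := by
          refine mul_le_mul_of_nonneg_right ?_ hσ.le
          linarith
        linarith
      have m1 := mem_of_pg_lt ε η hη hη1 k x τ hτpos h1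
      have m2 := mem_of_pg_lt ε η hη hη1 k y τ hτpos h2
      have hd : ε ≤ ‖(1 / τ) • x - (1 / τ) • y‖ := by
        rw [← smul_sub, norm_smul, Real.norm_eq_abs, abs_of_pos (by positivity)]
        rw [one_div, ← div_eq_inv_mul, le_div_iff₀ hτpos]
        nlinarith
      have m3 : (1 / τ) • ((1 / 2 : ℝ) • (x + y)) ∈ Cs X ε η (k + 1) := by
        refine subset_convexHull ℝ _ (Or.inl ⟨_, m1, _, m2, hd, ?_⟩)
        module
      have m4 : pg ε η (k + 1) ((1 / 2 : ℝ) • (x + y)) ≤ τ := by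
        have h3 : pg ε η (k + 1) ((1 / τ) • ((1 / 2 : ℝ) • (x + y))) ≤ 1 := gauge_le_one_of_mem m3
        rw [pg_smul, abs_of_pos (by positivity), one_div, ← div_eq_inv_mul,
          div_le_one hτpos] at h3
        exact h3
      have h4 := hc (k + 1) hk
      have h5 : pg ε η (k + 1) ((1 / 2 : ℝ) • (x + y))
          ≤ (pg ε η (k + 1) x + pg ε η (k + 1) y) / 2 := by
        rw [pg_smul, abs_of_nonneg (by norm_num : (0 : ℝ) ≤ 1 / 2)]
        have := pg_add ε η hη hη1 (k + 1) x y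
        linarith
      have a0 := pg_nonneg ε η (k + 1) x
      have b0 := pg_nonneg ε η (k + 1) y
      have m0 := pg_nonneg ε η (k + 1) ((1 / 2 : ℝ) • (x + y))
      set a := pg ε η (k + 1) x
      set b := pg ε η (k + 1) y
      set m := pg ε η (k + 1) ((1 / 2 : ℝ) • (x + y))
      have h6 : ((a - b) / 2) ^ 2 ≤ σ ^ 2 := by nlinarith
      have h7 : |(a - b) / 2| ≤ σ := abs_le_of_sq_le_sq h6 hσ.le
      have h8 : ((a + b) / 2) ^ 2 ≤ (τ + σ) ^ 2 := by nlinarith
      have h9 : (a + b) / 2 ≤ τ + σ := by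
        have := abs_le_of_sq_le_sq h8 (by positivity)
        exact (le_abs_self _).trans this
      rw [abs_le] at h7
      push_cast
      constructor <;> nlinarith
  obtain ⟨h1, h2⟩ := key n le_rfl
  set τ : ℝ := 4 + σ + 3 * n * σ with hτ
  have hτpos : 0 < τ := by positivity
  refine ⟨(1 / τ) • x, mem_of_pg_lt ε η hη hη1 n x τ hτpos h1,
    (1 / τ) • y, mem_of_pg_lt ε η hη hη1 n y τ hτpos h2, ?_⟩
  rw [← smul_sub, norm_smul, Real.norm_eq_abs, abs_of_pos (by positivity)]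
  rw [one_div, ← div_eq_inv_mul, le_div_iff₀ hτpos]
  nlinarith

end Pool.Agent.Lib.UNS
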