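import Mathlib

/-!
# Spreading seminorms by iterated ultrafilter limits

We work with seminorms on finitely supported real sequences.
-/

set_option autoImplicit false

open Filter Topology

namespace Pool.Agent.Lib.UNS

/-- Finitely supported real sequences. -/
abbrev V : Type := ℕ →₀ ℝ

/-- The unit vectors. -/
noncomputable def e (i : ℕ) : V := Finsupp.single i (1 : ℝ)

/-- `p` can be approximated on finite sets of vectors by members of `P`. -/
def Near (P : Set (Seminorm ℝ V)) (p : Seminorm ℝ V) : Prop :=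
  ∀ (F : Finset V) (ε : ℝ), 0 < ε → ∃ p' ∈ P, ∀ a ∈ F, |p a - p' a| < ε

/-- A function that can be approximated on finite sets by seminorms is a seminorm. -/
noncomputable def ofApprox (f : V → ℝ)
    (h : ∀ (F : Finset V) (ε : ℝ), 0 < ε → ∃ p : Seminorm ℝ V, ∀ a ∈ F, |f a - p a| < ε) :
    Seminorm ℝ V :=
  Seminorm.of f
    (by
      intro x y
      refine le_of_forall_pos_lt_add ?_
      intro ε hε
      obtain ⟨p, hp⟩ := h {x, y, x + y} (ε / 3) (by positivity)
      have h1 := hp x (by simp)
      have h2 := hp y (by simp)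
      have h3 := hp (x + y) (by simp)
      have h4 := map_add_le_add p x y
      rw [abs_lt] at h1 h2 h3
      linarith)
    (by
      intro a x
      by_contra hne
      have hpos : 0 < |f (a • x) - ‖a‖ * f x| := abs_pos.mpr (sub_ne_zero.mpr hne)
      obtain ⟨p, hp⟩ := h {x, a • x} (|f (a • x) - ‖a‖ * f x| / (2 * (‖a‖ + 1)))
        (by positivity)
      have h1 := hp x (by simp)
      have h2 := hp (a • x) (by simp)
      rw [map_smul_eq_mul] at h2
      set D := |f (a • x) - ‖a‖ * f x| with hD
      have hn : 0 ≤ ‖a‖ := norm_nonneg a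
      have h5 : D ≤ |f (a • x) - ‖a‖ * p x| + ‖a‖ * |f x - p x| := by
        rw [hD]
        have : f (a • x) - ‖a‖ * f x
            = (f (a • x) - ‖a‖ * p x) - ‖a‖ * (f x - p x) := by ring
        rw [this]
        refine (abs_sub _ _).trans ?_
        rw [abs_mul, abs_of_nonneg hn]
      have h6 : ‖a‖ * |f x - p x| ≤ ‖a‖ * (D / (2 * (‖a‖ + 1))) :=
        mul_le_mul_of_nonneg_left h1.le hn
      have h7 : D < (‖a‖ + 1) * (D / (2 * (‖a‖ + 1))) := by nlinarith
      have h8 : (‖a‖ + 1) * (D / (2 * (‖a‖ + 1))) = D / 2 := by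
        field_simp
      linarith)

theorem ofApprox_apply (f : V → ℝ)
    (h : ∀ (F : Finset V) (ε : ℝ), 0 < ε → ∃ p : Seminorm ℝ V, ∀ a ∈ F, |f a - p a| < ε)
    (a : V) : ofApprox f h a = f a := rfl

/-- limit along the hyperfilter -/
noncomputable def ulim (F : ℕ → ℝ) : ℝ := limUnder (hyperfilter ℕ : Filter ℕ) F

theorem ulim_spec {F : ℕ → ℝ} {A B : ℝ} (h : ∀ n, F n ∈ Set.Icc A B) :
    Tendsto F (hyperfilter ℕ : Filter ℕ) (𝓝 (ulim F)) ∧ ulim F ∈ Set.Icc A B := by
  obtain ⟨x, hx, hx'⟩ := (isCompact_Icc (a := A) (b := B)).ultrafilter_le_nhds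
    ((hyperfilter ℕ).map F) (by
      rw [Ultrafilter.coe_map, Filter.le_principal_iff, Filter.mem_map]
      exact Filter.univ_mem' h)
  have ht : Tendsto F (hyperfilter ℕ : Filter ℕ) (𝓝 x) := hx'
  have : ulim F = x := ht.limUnder_eq
  rw [this]
  exact ⟨ht, hx⟩

theorem ulim_const (c : ℝ) : ulim (fun _ => c) = c :=
  Tendsto.limUnder_eq tendsto_const_nhds

/-- Iterated limits of `q` along unit vectors going to infinity. -/
noncomputable def itl (q : Seminorm ℝ V) : List ℝ → V → ℝ
  | [], x => q x
  | c :: l, x => ulim (fun k => itl q l (x + c • e k))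

theorem itl_mem (q : Seminorm ℝ V) (hq : ∀ i, q (e i) ≤ 1) (l : List ℝ) :
    ∀ x : V, itl q l x ∈ Set.Icc 0 (q x + (l.map (fun c => |c|)).sum) := by
  induction l with
  | nil => intro x; simp [itl]
  | cons c l ih =>
    intro x
    simp only [itl, List.map_cons, List.sum_cons]
    refine (ulim_spec (fun k => ?_)).2
    have h := ih (x + c • e k)
    refine ⟨h.1, h.2.trans ?_⟩
    have h1 : q (x + c • e k) ≤ q x + |c| := by
      refine (map_add_le_add q _ _).trans ?_
      rw [map_smul_eq_mul, Real.norm_eq_abs]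
      have := mul_le_mul_of_nonneg_left (hq k) (abs_nonneg c)
      linarith
    linarith

theorem itl_tendsto (q : Seminorm ℝ V) (hq : ∀ i, q (e i) ≤ 1) (c : ℝ) (l : List ℝ) (x : V) :
    Tendsto (fun k => itl q l (x + c • e k)) (hyperfilter ℕ : Filter ℕ)
      (𝓝 (itl q (c :: l) x)) := by
  refine (ulim_spec (A := 0) (B := q x + |c| + (l.map (fun c => |c|)).sum) (fun k => ?_)).1
  have h := itl_mem q hq l (x + c • e k)
  refine ⟨h.1, h.2.trans ?_⟩
  have h1 : q (x + c • e k) ≤ q x + |c| := by
    refine (map_add_le_add q _ _).trans ?_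
    rw [map_smul_eq_mul, Real.norm_eq_abs]
    have := mul_le_mul_of_nonneg_left (hq k) (abs_nonneg c)
    linarith
  linarith

theorem itl_filter (q : Seminorm ℝ V) (l : List ℝ) :
    ∀ x : V, itl q l x = itl q (l.filter (fun c => c ≠ 0)) x := by
  induction l with
  | nil => intro x; rfl
  | cons c l ih =>
    intro x
    by_cases hc : c = 0
    · subst hc
      simp only [itl, zero_smul, add_zero, ne_eq, not_true_eq_false, decide_false,
        Bool.false_eq_true, not_false_eq_true, List.filter_cons_of_neg, ulim_const]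
      exact ih x
    · rw [List.filter_cons_of_pos (by simpa using hc)]
      simp only [itl]
      congr 1
      funext k
      exact ih _

/-- nonzero values in increasing order of index -/
noncomputable def vals (a : V) (N : ℕ) : List ℝ :=
  ((List.range N).map a).filter (fun c => c ≠ 0)

theorem vals_succ (a : V) (N : ℕ) :
    vals a (N + 1) = vals a N ++ (if a N = 0 then [] else [a N]) := by
  unfold vals
  rw [List.range_succ, List.map_append, List.filter_append]
  by_cases h : a N = 0 <;> simp [h]

theorem vals_eq_of_le (a : V) (N M : ℕ) (hNM : N ≤ M) (h : ∀ i, N ≤ i → i < M → a i = 0) :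
    vals a M = vals a N := by
  induction M, hNM using Nat.le_induction with
  | base => rfl
  | succ M hM ih =>
    rw [vals_succ, ih (fun i h1 h2 => h i h1 (by omega)), h M hM (by omega)]
    simp

theorem vals_mapDomain (φ : ℕ → ℕ) (hφ : StrictMono φ) (a : V) (N : ℕ) :
    vals (Finsupp.mapDomain φ a) (φ N) = vals a N := by
  have hz : ∀ i, (∀ j, φ j ≠ i) → Finsupp.mapDomain φ a i = 0 := by
    intro i hi
    exact Finsupp.mapDomain_of_notMem_range a i (by rintro ⟨j, hj⟩; exact hi j hj)
  induction N with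
  | zero =>
    have h0 : vals (Finsupp.mapDomain φ a) (φ 0) = vals (Finsupp.mapDomain φ a) 0 := by
      refine vals_eq_of_le _ _ _ (Nat.zero_le _) ?_
      intro i _ hi
      refine hz i ?_
      intro j hj
      have := hφ.monotone (Nat.zero_le j)
      omega
    rw [h0]
    simp [vals]
  | succ N ih =>
    have h1 : vals (Finsupp.mapDomain φ a) (φ (N + 1))
        = vals (Finsupp.mapDomain φ a) (φ N + 1) := by
      refine vals_eq_of_le _ _ _ (hφ (Nat.lt_succ_self N)) ?_
      intro i h1 h2
      refine hz i ?_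
      intro j hj
      have h3 : φ N < φ j := by omega
      have h4 : φ j < φ (N + 1) := by omega
      have h5 := hφ.lt_iff_lt.mp h3
      have h6 := hφ.lt_iff_lt.mp h4
      omega
    rw [h1, vals_succ, vals_succ, ih, Finsupp.mapDomain_apply hφ.injective]

/-- The value of the spreading seminorm. -/
noncomputable def spf (q : Seminorm ℝ V) (a : V) : ℝ :=
  itl q ((List.range (a.support.sup id + 1)).map a) 0

theorem spf_eq (q : Seminorm ℝ V) (a : V) (N : ℕ) (hN : ∀ i, N ≤ i → a i = 0) :
    spf q a = itl q ((List.range N).map a) 0 := by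
  unfold spf
  rw [itl_filter, itl_filter q ((List.range N).map a)]
  have h : vals a (a.support.sup id + 1) = vals a N := by
    have hs : ∀ i, a.support.sup id + 1 ≤ i → a i = 0 := by
      intro i hi
      by_contra hne
      have : id i ≤ a.support.sup id := Finset.le_sup (f := id) (Finsupp.mem_support_iff.mpr hne)
      simp only [id] at this
      change i ≤ a.support.sup id at this
      omega
    rcases le_total (a.support.sup id + 1) N with h | h
    · exact (vals_eq_of_le a _ _ h (fun i h1 _ => hs i h1)).symm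
    · exact vals_eq_of_le a _ _ h (fun i h1 _ => hN i h1)
  exact congrArg (fun l => itl q l 0) h

theorem exists_bound (a : V) : ∃ N, ∀ i, N ≤ i → a i = 0 := by
  refine ⟨a.support.sup id + 1, ?_⟩
  intro i hi
  by_contra hne
  have : id i ≤ a.support.sup id := Finset.le_sup (f := id) (Finsupp.mem_support_iff.mpr hne)
  change i ≤ a.support.sup id at this
  omega

theorem exists_bound_finset (F : Finset V) : ∃ N, ∀ a ∈ F, ∀ i, N ≤ i → a i = 0 := by
  induction F using Finset.induction_on with
  | empty => exact ⟨0, by simp⟩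
  | insert a F _ ih =>
    obtain ⟨N, hN⟩ := ih
    obtain ⟨M, hM⟩ := exists_bound a
    refine ⟨max N M, ?_⟩
    intro b hb i hi
    rcases Finset.mem_insert.mp hb with rfl | hb
    · exact hM i ((le_max_right _ _).trans hi)
    · exact hN b hb i ((le_max_left _ _).trans hi)

theorem spf_mapDomain (q : Seminorm ℝ V) (φ : ℕ → ℕ) (hφ : StrictMono φ) (a : V) :
    spf q (Finsupp.mapDomain φ a) = spf q a := by
  obtain ⟨N, hN⟩ := exists_bound a
  have hN' : ∀ i, φ N ≤ i → Finsupp.mapDomain φ a i = 0 := by
    intro i hi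
    by_cases h : ∃ j, φ j = i
    · obtain ⟨j, rfl⟩ := h
      rw [Finsupp.mapDomain_apply hφ.injective]
      exact hN j (hφ.le_iff_le.mp hi)
    · exact Finsupp.mapDomain_of_notMem_range a i (by rintro ⟨j, hj⟩; exact h ⟨j, hj⟩)
  rw [spf_eq q _ (φ N) hN', spf_eq q a N hN, itl_filter, itl_filter q ((List.range N).map a)]
  exact congrArg (fun l => itl q l 0) (vals_mapDomain φ hφ a N)

theorem itl_approx (q : Seminorm ℝ V) (hq : ∀ i, q (e i) ≤ 1) (N : ℕ) :
    ∀ (s K : ℕ) (A : Finset (V × V)) (ε : ℝ), 0 < ε →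
      ∃ φ : ℕ → ℕ, StrictMono φ ∧ K ≤ φ s ∧ ∀ z ∈ A,
        |itl q ((List.range' s N).map z.1) z.2
          - q (z.2 + ∑ i ∈ Finset.range N, z.1 (s + i) • e (φ (s + i)))| < ε := by
  induction N with
  | zero =>
    intro s K A ε hε
    refine ⟨fun i => i + K, fun a b h => by simpa using h, by simp, ?_⟩
    intro z _
    simpa [itl] using hε
  | succ N ih =>
    intro s K A ε hε
    classical
    have hev : ∀ᶠ k in (hyperfilter ℕ : Filter ℕ), ∀ z ∈ A,
        |itl q (z.1 s :: (List.range' (s + 1) N).map z.1) z.2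
          - itl q ((List.range' (s + 1) N).map z.1) (z.2 + z.1 s • e k)| < ε / 2 := by
      rw [Filter.eventually_all_finset]
      intro z _
      have ht := itl_tendsto q hq (z.1 s) ((List.range' (s + 1) N).map z.1) z.2
      have := (Metric.tendsto_nhds.mp ht) (ε / 2) (by positivity)
      filter_upwards [this] with k hk
      rw [Real.dist_eq, abs_sub_comm] at hk
      exact hk
    have hev2 : ∀ᶠ k in (hyperfilter ℕ : Filter ℕ), K + s ≤ k :=
      (Nat.hyperfilter_le_atTop (Filter.eventually_ge_atTop (K + s)))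
    obtain ⟨k, hk1, hk2⟩ := (hev.and hev2).exists
    obtain ⟨φ', hφ'1, hφ'2, hφ'3⟩ := ih (s + 1) (k + 1)
      (A.image (fun z => (z.1, z.2 + z.1 s • e k))) (ε / 2) (by positivity)
    refine ⟨fun i => if i ≤ s then k - (s - i) else φ' i, ?_, ?_, ?_⟩
    · intro i j hij
      simp only
      split_ifs with h1 h2
      · omega
      · have : φ' (s + 1) ≤ φ' j := hφ'1.monotone (by omega)
        omega
      · omega
      · exact hφ'1 hij
    · simp only [le_refl, if_true]
      omega
    · intro z hz
      have h1 := hk1 z hz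
      have h2 := hφ'3 (z.1, z.2 + z.1 s • e k)
        (Finset.mem_image.mpr ⟨z, hz, rfl⟩)
      have h3 : (List.range' s (N + 1)).map z.1
          = z.1 s :: (List.range' (s + 1) N).map z.1 := by
        simp [List.range'_succ]
      have h4 : z.2 + ∑ i ∈ Finset.range (N + 1), z.1 (s + i) •
            e (if s + i ≤ s then k - (s - (s + i)) else φ' (s + i))
          = z.2 + z.1 s • e k
            + ∑ i ∈ Finset.range N, z.1 (s + 1 + i) • e (φ' (s + 1 + i)) := by
        rw [Finset.sum_range_succ', add_assoc]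
        congr 1
        rw [add_comm]
        congr 1
        · simp
        · refine Finset.sum_congr rfl ?_
          intro i _
          have h5 : s + (i + 1) = s + 1 + i := by omega
          rw [h5, if_neg (by omega)]
      rw [h3]
      simp only at h2 ⊢
      rw [h4]
      calc _ = |(itl q (z.1 s :: (List.range' (s + 1) N).map z.1) z.2
                - itl q ((List.range' (s + 1) N).map z.1) (z.2 + z.1 s • e k))
              + (itl q ((List.range' (s + 1) N).map z.1) (z.2 + z.1 s • e k)
                - q (z.2 + z.1 s • e k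
            + ∑ i ∈ Finset.range N, z.1 (s + 1 + i) • e (φ' (s + 1 + i))))| := by
              congr 1; ring
        _ ≤ _ := abs_add_le _ _
        _ < ε := by linarith

theorem mapDomain_eq_sum (φ : ℕ → ℕ) (a : V) (N : ℕ) (hN : ∀ i, N ≤ i → a i = 0) :
    Finsupp.mapDomain φ a = ∑ i ∈ Finset.range N, a i • e (φ i) := by
  unfold Finsupp.mapDomain
  rw [Finsupp.sum_of_support_subset a (s := Finset.range N)]
  · refine Finset.sum_congr rfl ?_
    intro i _
    simp [e]
  · intro i hi
    rw [Finset.mem_range]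
    by_contra h
    exact (Finsupp.mem_support_iff.mp hi) (hN i (not_lt.mp h))
  · intro i _
    simp

theorem spf_approx (q : Seminorm ℝ V) (hq : ∀ i, q (e i) ≤ 1) (F : Finset V) (ε : ℝ)
    (hε : 0 < ε) :
    ∃ φ : ℕ → ℕ, StrictMono φ ∧ ∀ a ∈ F, |spf q a - q (Finsupp.mapDomain φ a)| < ε := by
  classical
  obtain ⟨N, hN⟩ := exists_bound_finset F
  obtain ⟨φ, h1, _, h3⟩ := itl_approx q hq N 0 0 (F.image (fun a => (a, (0 : V)))) ε hε
  refine ⟨φ, h1, ?_⟩
  intro a ha
  have h4 := h3 (a, 0) (Finset.mem_image.mpr ⟨a, ha, rfl⟩)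
  rw [spf_eq q a N (hN a ha), mapDomain_eq_sum φ a N (hN a ha), List.range_eq_range']
  simpa using h4

/-- The spreading seminorm attached to `q`. -/
noncomputable def sp (q : Seminorm ℝ V) (hq : ∀ i, q (e i) ≤ 1) : Seminorm ℝ V :=
  ofApprox (spf q) (fun F ε hε => by
    obtain ⟨φ, _, h⟩ := spf_approx q hq F ε hε
    exact ⟨q.comp (Finsupp.lmapDomain ℝ ℝ φ), fun a ha => h a ha⟩)

theorem sp_apply (q : Seminorm ℝ V) (hq : ∀ i, q (e i) ≤ 1) (a : V) : sp q hq a = spf q a := rfl

end Pool.Agent.Lib.UNS
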