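import Pool.Agent.Lib.MP_e45c49_an.NoSimp

/-!
# Uniform normal structure and finite representability

James' construction in a non-reflexive Banach space, and the transfer to a space in which it is
finitely representable.
-/

set_option autoImplicit false

open NormedSpace

namespace Pool.Agent.Lib.UNS

section james

variable {𝕜 : Type*} [RCLike 𝕜] {Y : Type*} [NormedAddCommGroup Y] [NormedSpace 𝕜 Y]

/-- Helly's theorem -/
theorem helly (F : StrongDual 𝕜 (StrongDual 𝕜 Y)) (n : ℕ) (f : Fin n → StrongDual 𝕜 Y) (r : ℝ)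
    (hr : ‖F‖ < r) : ∃ x : Y, ‖x‖ < r ∧ ∀ k, f k x = F (f k) := by
  classical
  let A : Y →ₗ[𝕜] (Fin n → 𝕜) := LinearMap.pi (fun k => (f k).toLinearMap)
  have hA : ∀ x k, A x k = f k x := fun x k => rfl
  have hx0 : (fun k => F (f k)) ∈ LinearMap.range A := by
    by_contra hcon
    obtain ⟨g, hg1, hg2⟩ := Submodule.exists_le_ker_of_notMem hcon
    have hgf : ∀ v : Fin n → 𝕜, g v = ∑ k, v k * g (Pi.single k 1) := by
      intro v
      have hv : v = ∑ k, (Pi.single k (v k) : Fin n → 𝕜) := (Finset.univ_sum_single v).symm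
      conv_lhs => rw [hv]
      rw [map_sum]
      refine Finset.sum_congr rfl fun k _ => ?_
      have : (Pi.single k (v k) : Fin n → 𝕜) = v k • Pi.single k (1 : 𝕜) := by
        rw [← Pi.single_smul, smul_eq_mul, mul_one]
      simp [this]
    have h0 : ∑ k, g (Pi.single k 1) • f k = 0 := by
      ext x
      have h1 : g (A x) = 0 := hg2 (LinearMap.mem_range_self A x)
      rw [hgf] at h1
      rw [_root_.sum_apply]
      simp only [_root_.smul_apply, smul_eq_mul, _root_.zero_apply]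
      rw [← h1]
      exact Finset.sum_congr rfl fun k _ => by rw [hA, mul_comm]
    apply hg1
    rw [hgf]
    have h2 : F (∑ k, g (Pi.single k 1) • f k) = 0 := by rw [h0, map_zero]
    rw [map_sum] at h2
    rw [← h2]
    refine Finset.sum_congr rfl fun k _ => ?_
    rw [map_smul, smul_eq_mul, mul_comm]
  obtain ⟨x0, hx0⟩ := hx0
  have hx0' : ∀ k, f k x0 = F (f k) := fun k => by
    have := congrFun hx0 k
    exact this
  let M : Submodule 𝕜 Y := LinearMap.ker A
  have hMmem : ∀ x, x ∈ M ↔ ∀ k, f k x = 0 := by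
    intro x
    rw [LinearMap.mem_ker]
    constructor
    · intro h k
      rw [← hA, h]
      rfl
    · intro h
      funext k
      rw [hA, h k]
      rfl
  have hMcl : IsClosed (M : Set Y) := by
    have : (M : Set Y) = ⋂ k, {x | f k x = 0} := by
      ext x
      simp only [SetLike.mem_coe, hMmem, Set.mem_iInter, Set.mem_ofPred_eq]
    rw [this]
    exact isClosed_iInter fun k => isClosed_eq (f k).continuous continuous_const
  obtain ⟨g, hg1, hg2⟩ := exists_dual_vector'' 𝕜 (M.mkQ x0 : Y ⧸ M)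
  let h : StrongDual 𝕜 Y := g.comp M.mkQL
  have hh1 : ‖h‖ ≤ 1 := by
    refine ContinuousLinearMap.opNorm_le_bound _ zero_le_one fun x => ?_
    have h1 : ‖h x‖ ≤ ‖g‖ * ‖M.mkQL x‖ := g.le_opNorm _
    have h2 : ‖(M.mkQL x : Y ⧸ M)‖ ≤ ‖x‖ := Submodule.Quotient.norm_mk_le M x
    rw [one_mul]
    calc ‖h x‖ ≤ ‖g‖ * ‖M.mkQL x‖ := h1
      _ ≤ 1 * ‖x‖ := mul_le_mul hg1 h2 (norm_nonneg _) zero_le_one
      _ = ‖x‖ := one_mul _
  have hhspan : h.toLinearMap ∈ Submodule.span 𝕜 (Set.range fun k => (f k).toLinearMap) := by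
    refine mem_span_of_iInf_ker_le_ker fun x hx => ?_
    have hxM : x ∈ M := by
      rw [hMmem]
      intro k
      have := (Submodule.mem_iInf _).1 hx k
      exact this
    rw [LinearMap.mem_ker]
    change g (M.mkQL x) = 0
    have : (M.mkQL x : Y ⧸ M) = 0 := (Submodule.Quotient.mk_eq_zero M).2 hxM
    rw [this, map_zero]
  obtain ⟨c, hc⟩ := (Submodule.mem_span_range_iff_exists_fun 𝕜).1 hhspan
  have hc' : h = ∑ k, c k • f k := by
    ext x
    have := congrArg (fun L : Y →ₗ[𝕜] 𝕜 => L x) hc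
    simp only [LinearMap.sum_apply, LinearMap.smul_apply] at this
    rw [_root_.sum_apply]
    simp only [_root_.smul_apply]
    exact this.symm
  have hFh : F h = h x0 := by
    rw [hc', map_sum, _root_.sum_apply]
    refine Finset.sum_congr rfl fun k _ => ?_
    rw [map_smul, _root_.smul_apply, hx0']
  have hq : ‖(M.mkQ x0 : Y ⧸ M)‖ < r := by
    have h1 : ‖(h x0 : 𝕜)‖ = ‖(M.mkQ x0 : Y ⧸ M)‖ := by
      have : h x0 = g (M.mkQ x0) := rfl
      rw [this, hg2]
      simp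
    rw [← h1, ← hFh]
    exact lt_of_le_of_lt (F.unit_le_opNorm h hh1) hr
  obtain ⟨m, hm1, hm2⟩ := Submodule.Quotient.norm_mk_lt (M.mkQ x0 : Y ⧸ M)
    (sub_pos.2 hq)
  refine ⟨m, by linarith, fun k => ?_⟩
  have h3 : m - x0 ∈ M := (Submodule.Quotient.eq M).1 hm1
  have h4 := (hMmem _).1 h3 k
  rw [map_sub, sub_eq_zero] at h4
  rw [h4, hx0']

/-- The choice of the next functional. -/
theorem step_f {D : Type*} [NormedAddCommGroup D] [NormedSpace 𝕜 D] (J : Y → StrongDual 𝕜 D)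
    (hJ0 : ∀ x y, J (x + y) = J x + J y) (hJ1 : ∀ (c : 𝕜) x, J (c • x) = c • J x)
    (F : StrongDual 𝕜 D) (θ : ℝ) (hθ : 0 < θ)
    (hF : ∀ x : Y, θ < ‖F - J x‖) (n : ℕ) (x : Fin n → Y) :
    ∃ f : D, ‖f‖ ≤ 1 ∧ (∀ k, J (x k) f = 0) ∧ F f = (θ : 𝕜) := by
  classical
  by_contra hcon
  push Not at hcon
  let M : Submodule 𝕜 D := ⨅ k, LinearMap.ker (J (x k)).toLinearMap
  have hM : ∀ f, f ∈ M ↔ ∀ k, J (x k) f = 0 := by
    intro f
    simp only [M, Submodule.mem_iInf, LinearMap.mem_ker]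
    rfl
  let F0 : StrongDual 𝕜 M := F.comp M.subtypeL
  have hF0 : ‖F0‖ ≤ θ := by
    refine ContinuousLinearMap.opNorm_le_bound _ hθ.le fun f => ?_
    by_contra h
    push Not at h
    have hpos : 0 < ‖F0 f‖ := lt_of_le_of_lt (by positivity) h
    have hne : F (f : D) ≠ 0 := norm_pos_iff.1 hpos
    have hF0f : F0 f = F (f : D) := rfl
    refine hcon (((θ : 𝕜) / F f) • (f : D)) ?_ ?_ ?_
    · rw [norm_smul, norm_div]
      have : ‖(θ : 𝕜)‖ = θ := by
        rw [RCLike.norm_ofReal, abs_of_pos hθ]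
      rw [this, div_mul_eq_mul_div, div_le_one (by rw [← hF0f]; exact hpos), ← hF0f]
      exact h.le
    · intro k
      rw [map_smul, (hM _).1 f.2 k, smul_zero]
    · rw [map_smul, smul_eq_mul, div_mul_cancel₀ _ hne]
  obtain ⟨G, hG1, hG2⟩ := exists_extension_norm_eq M F0
  have hspan : (F - G).toLinearMap ∈ Submodule.span 𝕜
      (Set.range fun k => (J (x k)).toLinearMap) := by
    refine mem_span_of_iInf_ker_le_ker fun f hf => ?_
    rw [LinearMap.mem_ker]
    change F f - G f = 0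
    have := hG1 ⟨f, hf⟩
    rw [sub_eq_zero]
    exact this.symm
  obtain ⟨c, hc⟩ := (Submodule.mem_span_range_iff_exists_fun 𝕜).1 hspan
  let J' : Y →ₗ[𝕜] StrongDual 𝕜 D := ⟨⟨J, hJ0⟩, hJ1⟩
  have hc' : F - G = J (∑ k, c k • x k) := by
    change F - G = J' (∑ k, c k • x k)
    ext f
    have := congrArg (fun L : D →ₗ[𝕜] 𝕜 => L f) hc
    simp only [LinearMap.sum_apply, LinearMap.smul_apply] at this
    rw [map_sum, _root_.sum_apply]
    simp only [map_smul, _root_.smul_apply]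
    exact this.symm
  have h1 := hF (∑ k, c k • x k)
  rw [← hc', sub_sub_cancel, hG2] at h1
  linarith

/-- Riesz' lemma for the range of an isometry -/
theorem riesz_range {D : Type*} [NormedAddCommGroup D] [NormedSpace 𝕜 D] [CompleteSpace Y]
    (J : Y → D) (hJ0 : ∀ x y, J (x + y) = J x + J y) (hJ1 : ∀ (c : 𝕜) x, J (c • x) = c • J x)
    (hJ : ∀ x, ‖J x‖ = ‖x‖) (hT : ¬ Function.Surjective J) :
    ∃ F : D, ‖F‖ = 1 ∧ ∀ x : Y, (1 / 2 : ℝ) < ‖F - J x‖ := by
  let T : Y →ₗᵢ[𝕜] D := ⟨⟨⟨J, hJ0⟩, hJ1⟩, hJ⟩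
  have hcl : IsClosed ((LinearMap.range T.toLinearMap : Submodule 𝕜 D) : Set D) := by
    have h := T.isometry.isClosedEmbedding.isClosed_range
    exact h
  have hne : ∃ F, F ∉ LinearMap.range T.toLinearMap := by
    by_contra h
    push Not at h
    exact hT fun F => h F
  obtain ⟨F, _, hF1, hF2⟩ := riesz_lemma_of_lt_one hcl hne (show (3 / 4 : ℝ) < 1 by norm_num)
  exact ⟨F, hF1, fun x => lt_of_lt_of_le (by norm_num) (hF2 _ (LinearMap.mem_range_self _ x))⟩

theorem exists_far [CompleteSpace Y] (hY : ¬ Function.Surjective (inclusionInDoubleDual 𝕜 Y)) :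
    ∃ F : StrongDual 𝕜 (StrongDual 𝕜 Y), ‖F‖ = 1 ∧
      ∀ x : Y, (1 / 2 : ℝ) < ‖F - inclusionInDoubleDual 𝕜 Y x‖ := by
  have h0 : ∀ x y : Y, inclusionInDoubleDual 𝕜 Y (x + y) =
      inclusionInDoubleDual 𝕜 Y x + inclusionInDoubleDual 𝕜 Y y := fun x y => map_add _ _ _
  have h1 : ∀ (c : 𝕜) (x : Y), inclusionInDoubleDual 𝕜 Y (c • x) =
      c • inclusionInDoubleDual 𝕜 Y x := fun x y => map_smul _ _ _
  have h2 : ∀ x : Y, ‖inclusionInDoubleDual 𝕜 Y x‖ = ‖x‖ := fun x =>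
    (inclusionInDoubleDualLi (E := Y) 𝕜).norm_map x
  exact riesz_range (𝕜 := 𝕜) (fun x => inclusionInDoubleDual 𝕜 Y x) h0 h1 h2 hY

theorem exists_next (F : StrongDual 𝕜 (StrongDual 𝕜 Y))
    (hF : ∀ x : Y, (1 / 2 : ℝ) < ‖F - inclusionInDoubleDual 𝕜 Y x‖) (n : ℕ) (x : Fin n → Y) :
    ∃ f : StrongDual 𝕜 Y, ‖f‖ ≤ 1 ∧ (∀ k, f (x k) = 0) ∧ F f = ((1 / 2 : ℝ) : 𝕜) :=
  step_f (𝕜 := 𝕜) (D := StrongDual 𝕜 Y) (fun x => inclusionInDoubleDual 𝕜 Y x)
    (fun x y => map_add _ _ _) (fun c x => map_smul _ _ _) F (1 / 2) (by norm_num) hF n x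

/-- James' sequences in a non-reflexive Banach space. -/
theorem james_seq [CompleteSpace Y] (hY : ¬ Function.Surjective (inclusionInDoubleDual 𝕜 Y))
    (n : ℕ) : ∃ (x : ℕ → Y) (f : ℕ → StrongDual 𝕜 Y), ∀ i < n, ‖x i‖ ≤ 2 ∧ ‖f i‖ ≤ 1 ∧
      ∀ j < n, f i (x j) = if i ≤ j then ((1 / 2 : ℝ) : 𝕜) else 0 := by
  classical
  obtain ⟨F, hF1, hF⟩ := exists_far hY
  have key : ∀ n : ℕ, ∃ (x : ℕ → Y) (f : ℕ → StrongDual 𝕜 Y), ∀ i < n, ‖x i‖ ≤ 2 ∧ ‖f i‖ ≤ 1 ∧
      F (f i) = ((1 / 2 : ℝ) : 𝕜) ∧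
      ∀ j < n, f i (x j) = if i ≤ j then ((1 / 2 : ℝ) : 𝕜) else 0 := by
    intro n
    induction n with
    | zero => exact ⟨fun _ => 0, fun _ => 0, fun i hi => absurd hi (Nat.not_lt_zero i)⟩
    | succ n ih =>
      obtain ⟨x, f, h⟩ := ih
      obtain ⟨g, hg1, hg2, hg3⟩ := exists_next F hF n (fun k => x k)
      let f' : ℕ → StrongDual 𝕜 Y := Function.update f n g
      obtain ⟨y, hy1, hy2⟩ := helly F (n + 1) (fun k => f' k) 2 (by rw [hF1]; norm_num)
      have hfn : f' n = g := Function.update_self n g f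
      have hfi : ∀ i < n, f' i = f i := fun i hi => Function.update_of_ne hi.ne g f
      have hxn : Function.update x n y n = y := Function.update_self n y x
      have hxi : ∀ i < n, Function.update x n y i = x i := fun i hi =>
        Function.update_of_ne hi.ne y x
      have hFf : ∀ i < n + 1, F (f' i) = ((1 / 2 : ℝ) : 𝕜) := by
        intro i hi
        rcases Nat.lt_succ_iff_lt_or_eq.1 hi with hi' | rfl
        · rw [hfi i hi', (h i hi').2.2.1]
        · rw [hfn, hg3]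
      refine ⟨Function.update x n y, f', fun i hi => ⟨?_, ?_, hFf i hi, fun j hj => ?_⟩⟩
      · rcases Nat.lt_succ_iff_lt_or_eq.1 hi with hi' | rfl
        · rw [hxi i hi']
          exact (h i hi').1
        · rw [hxn]
          exact hy1.le
      · rcases Nat.lt_succ_iff_lt_or_eq.1 hi with hi' | rfl
        · rw [hfi i hi']
          exact (h i hi').2.1
        · rw [hfn]
          exact hg1
      · rcases Nat.lt_succ_iff_lt_or_eq.1 hj with hj' | rfl
        · rw [hxi j hj']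
          rcases Nat.lt_succ_iff_lt_or_eq.1 hi with hi' | rfl
          · rw [hfi i hi']
            exact (h i hi').2.2.2 j hj'
          · rw [hfn, if_neg (by omega)]
            exact hg2 ⟨j, hj'⟩
        · rw [hxn, if_pos (by omega)]
          have := hy2 ⟨i, hi⟩
          simp only at this
          rw [this, hFf i hi]
  obtain ⟨x, f, h⟩ := key n
  exact ⟨x, f, fun i hi => ⟨(h i hi).1, (h i hi).2.1, (h i hi).2.2.2⟩⟩

end james

section transfer

variable {𝕜 : Type*} [RCLike 𝕜] {Y : Type*} [NormedAddCommGroup Y] [NormedSpace 𝕜 Y]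
  {X : Type*} [NormedAddCommGroup X] [NormedSpace ℝ X] [NormedSpace 𝕜 X] [IsScalarTower ℝ 𝕜 X]

/-- Vectors of `V` whose image in `X` comes from a vector of `F` on which `g` has the value `c`. -/
def Sc (F : Submodule 𝕜 Y) (G : Submodule 𝕜 X) (T : F ≃L[𝕜] G) (L : V →ₗ[ℝ] X)
    (g : StrongDual 𝕜 Y) (c : 𝕜) : Set V :=
  {a | ∃ y : F, ((T y : G) : X) = L a ∧ g y = c}

theorem Sc_convex (F : Submodule 𝕜 Y) (G : Submodule 𝕜 X) (T : F ≃L[𝕜] G) (L : V →ₗ[ℝ] X)
    (g : StrongDual 𝕜 Y) (c : 𝕜) : Convex ℝ (Sc F G T L g c) := by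
  rintro a ⟨y, hy1, hy2⟩ b ⟨z, hz1, hz2⟩ s t hs ht hst
  refine ⟨(s : 𝕜) • y + (t : 𝕜) • z, ?_, ?_⟩
  · rw [map_add, map_smul, map_smul, map_add, map_smul, map_smul, ← hy1, ← hz1]
    rw [Submodule.coe_add, Submodule.coe_smul, Submodule.coe_smul]
    have h : ∀ (r : ℝ) (x : X), (r : 𝕜) • x = r • x := fun r x => by
      rw [← RCLike.real_smul_eq_coe_smul]
    rw [h, h]
  · rw [Submodule.coe_add, Submodule.coe_smul, Submodule.coe_smul, map_add, map_smul, map_smul,
      hy2, hz2, ← add_smul, ← RCLike.ofReal_add, hst, RCLike.ofReal_one, one_smul]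

/-- A non-reflexive Banach space is not finitely representable in a space with uniform normal
structure. -/
theorem reflexive_of_repr [CompleteSpace Y] {c : ℝ} (hc : c < 1) (hX : UNSc X c)
    (hrep : ∀ F : Submodule 𝕜 Y, FiniteDimensional 𝕜 F →
      ∃ (G : Submodule 𝕜 X) (T : F ≃L[𝕜] G),
        ‖(T : F →L[𝕜] G)‖ * ‖(T.symm : G →L[𝕜] F)‖ < 2) :
    Function.Surjective (inclusionInDoubleDual 𝕜 Y) := by
  classical
  by_contra hY
  obtain ⟨N, hN⟩ := uns_no_long X hX hc (1 / 8) (by norm_num)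
  apply hN
  obtain ⟨x, f, hxf⟩ := james_seq hY (N + 1)
  let F : Submodule 𝕜 Y := Submodule.span 𝕜 (x '' (Finset.range (N + 1) : Set ℕ))
  have hFfin : FiniteDimensional 𝕜 F :=
    FiniteDimensional.span_of_finite 𝕜 ((Finset.range (N + 1)).finite_toSet.image x)
  have hxF : ∀ i < N + 1, x i ∈ F := fun i hi =>
    Submodule.subset_span ⟨i, by simpa using hi, rfl⟩
  obtain ⟨G, T, hT⟩ := hrep F hFfin
  set K : ℝ := ‖(T : F →L[𝕜] G)‖ with hK
  set K' : ℝ := ‖(T.symm : G →L[𝕜] F)‖ with hK'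
  have hTn : ∀ y : F, ‖((T y : G) : X)‖ ≤ K * ‖(y : Y)‖ := fun y =>
    (T : F →L[𝕜] G).le_opNorm y
  have hTn' : ∀ y : F, ‖(y : Y)‖ ≤ K' * ‖((T y : G) : X)‖ := by
    intro y
    have := (T.symm : G →L[𝕜] F).le_opNorm (T y)
    simpa using this
  -- the element `x 0` is not zero
  have hx0 : 0 < ‖x 0‖ := by
    rw [norm_pos_iff]
    intro h
    have h1 := (hxf 0 (Nat.succ_pos N)).2.2 0 (Nat.succ_pos N)
    rw [h, map_zero, if_pos le_rfl] at h1
    have h2 : ((1 / 2 : ℝ) : 𝕜) ≠ 0 := by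
      rw [Ne, RCLike.ofReal_eq_zero]
      norm_num
    exact h2 h1.symm
  have hKpos : 0 < K := by
    have h1 := hTn ⟨x 0, hxF 0 (Nat.succ_pos N)⟩
    have h2 := hTn' ⟨x 0, hxF 0 (Nat.succ_pos N)⟩
    simp only at h1 h2
    by_contra h
    have hK0 : K = 0 := le_antisymm (not_lt.1 h) (norm_nonneg _)
    rw [hK0, zero_mul] at h1
    have h3 := le_antisymm h1 (norm_nonneg _)
    rw [h3, mul_zero] at h2
    linarith
  let z : ℕ → X := fun i => if h : i < N + 1 then ((T ⟨x i, hxF i h⟩ : G) : X) else 0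
  have hz : ∀ i (h : i < N + 1), z i = ((T ⟨x i, hxF i h⟩ : G) : X) := fun i h => dif_pos h
  let L : V →ₗ[ℝ] X := Finsupp.linearCombination ℝ z
  have hLe : ∀ i, L (e i) = z i := by
    intro i
    simp [L, e]
  have hzn : ∀ i, ‖z i‖ ≤ 2 * K := by
    intro i
    by_cases h : i < N + 1
    · rw [hz i h]
      have h1 := hTn ⟨x i, hxF i h⟩
      have h2 := (hxf i h).1
      calc _ ≤ K * ‖x i‖ := h1
        _ ≤ K * 2 := mul_le_mul_of_nonneg_left h2 hKpos.le
        _ = 2 * K := mul_comm _ _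
    · have : z i = 0 := dif_neg h
      rw [this, norm_zero]
      positivity
  have hmem : ∀ k < N + 1, ∀ (s : Set ℕ) (c : 𝕜), (∀ i ∈ s, i < N + 1 ∧ f k (x i) = c) →
      Cv s ⊆ Sc F G T L (f k) c := by
    intro k hk s c hs
    refine convexHull_min ?_ (Sc_convex F G T L (f k) c)
    rintro _ ⟨i, hi, rfl⟩
    obtain ⟨h1, h2⟩ := hs i hi
    exact ⟨⟨x i, hxF i h1⟩, by rw [hLe, hz i h1], h2⟩
  let p : Seminorm ℝ V := (normSeminorm ℝ X).comp ((1 / (2 * K)) • L)
  have hp : ∀ a, p a = 1 / (2 * K) * ‖L a‖ := by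
    intro a
    change ‖(1 / (2 * K)) • L a‖ = _
    rw [norm_smul, Real.norm_eq_abs, abs_of_pos (by positivity)]
  refine ⟨p, ⟨Unit, inferInstance, LinearMap.pi (fun _ => (1 / (2 * K)) • L), ?_⟩, ?_, ?_⟩
  · intro a
    simp only [Finset.univ_unique, Finset.sum_singleton]
    rfl
  · intro i
    rw [hp, hLe, div_mul_eq_mul_div, one_mul, div_le_one (by positivity)]
    exact hzn i
  · intro k u hu v hv
    by_cases hk : k < N
    · obtain ⟨y, hy1, hy2⟩ := hmem k (by omega) (Set.Iio k) 0 (by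
        intro i hi
        have hi' : i < k := hi
        refine ⟨by omega, ?_⟩
        rw [(hxf k (by omega)).2.2 i (by omega), if_neg (by omega)]) hu
      obtain ⟨w, hw1, hw2⟩ := hmem k (by omega) (Set.Ico k N) ((1 / 2 : ℝ) : 𝕜) (by
        intro i hi
        have hi1 : k ≤ i := hi.1
        have hi2 : i < N := hi.2
        refine ⟨by omega, ?_⟩
        rw [(hxf k (by omega)).2.2 i (by omega), if_pos hi1]) hv
      rw [hp]
      have h1 : L (u - v) = ((T (y - w) : G) : X) := by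
        rw [map_sub, map_sub, Submodule.coe_sub, hy1, hw1]
      have h2 := hTn' (y - w)
      rw [← h1] at h2
      have h3 : (1 / 2 : ℝ) ≤ ‖((y - w : F) : Y)‖ := by
        have h4 := (f k).le_opNorm ((y - w : F) : Y)
        have h5 : f k ((y - w : F) : Y) = -((1 / 2 : ℝ) : 𝕜) := by
          rw [Submodule.coe_sub, map_sub, hy2, hw2, zero_sub]
        rw [h5, norm_neg, RCLike.norm_ofReal] at h4
        have h6 : |(1 / 2 : ℝ)| = 1 / 2 := abs_of_pos (by norm_num)
        rw [h6] at h4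
        have h7 := (hxf k (by omega)).2.1
        nlinarith [norm_nonneg ((y - w : F) : Y)]
      have h8 : 0 ≤ ‖L (u - v)‖ := norm_nonneg _
      rw [div_mul_eq_mul_div, one_mul, le_div_iff₀ (by positivity)]
      -- `1 / 2 ≤ K' * ‖L (u - v)‖`, `K * K' < 2`
      have h9 : 1 / 2 ≤ K' * ‖L (u - v)‖ := h3.trans h2
      have h10 : K * (1 / 2) ≤ K * (K' * ‖L (u - v)‖) := mul_le_mul_of_nonneg_left h9 hKpos.le
      nlinarith
    · have : Set.Ico k N = ∅ := Set.Ico_eq_empty (by omega)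
      rw [this, Cv, Set.image_empty, convexHull_empty] at hv
      exact absurd hv (Set.notMem_empty _)

end transfer

end Pool.Agent.Lib.UNS
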