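import Pool.Agent.Lib.MP_e45c49_an.James

/-!
# From simplices in `ℓ_2^N(X)` to convex sets in `X`
-/

set_option autoImplicit false

open Filter Topology

namespace Pool.Agent.Lib.UNS

/-- The hypothesis of uniform normal structure with constant `c`. -/
def UNSc (X : Type*) [NormedAddCommGroup X] [NormedSpace ℝ X] (c : ℝ) : Prop :=
  ∀ C : Set X, C ⊆ Metric.closedBall (0 : X) 1 → Convex ℝ C → C.Nontrivial →
    sInf ((fun x : X => sSup ((fun y : X => ‖x - y‖) '' C)) '' C) ≤ c * Metric.diam C

variable {X : Type*} [NormedAddCommGroup X] [NormedSpace ℝ X]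

/-- pointwise contradiction: no almost diametral simplices in the unit ball -/
theorem simplex_bound {c : ℝ} (hX : UNSc X c) (n : ℕ) (hn : 1 ≤ n) (y : Fin (n + 1) → X)
    (hy : ∀ i, ‖y i‖ ≤ 1) (D L : ℝ) (hL : 0 < L)
    (hD : ∀ i j, ‖y i - y j‖ ≤ D)
    (hf : ∀ j, ∃ f : X → ℝ, (∀ u v, f (u + v) = f u + f v) ∧ (∀ (t : ℝ) u, f (t • u) = t * f u) ∧
      (∀ u, f u ≤ ‖u‖) ∧ ∀ i, i ≠ j → L ≤ f (y j - y i)) :
    ((n : ℝ) / (n + 1)) * L ≤ max c 0 * D := by
  set Φ : (Fin (n + 1) → ℝ) →ₗ[ℝ] X := ∑ i, (LinearMap.proj i).smulRight (y i) with hΦ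
  have hΦa : ∀ w : Fin (n + 1) → ℝ, Φ w = ∑ i, w i • y i := by
    intro w
    simp [hΦ]
  set C : Set X := Φ '' (stdSimplex ℝ (Fin (n + 1))) with hC
  have hmem : ∀ (T : Set X), Convex ℝ T → (∀ i, y i ∈ T) → C ⊆ T := by
    intro T hT hTy x hx
    obtain ⟨w, hw, rfl⟩ := hx
    rw [hΦa]
    exact hT.sum_mem (fun i _ => hw.1 i) hw.2 (fun i _ => hTy i)
  have hyC : ∀ i, y i ∈ C := by
    intro i
    refine ⟨Pi.single i 1, single_mem_stdSimplex ℝ i, ?_⟩
    rw [hΦa]
    simp [Pi.single_apply]
  have hCball : C ⊆ Metric.closedBall (0 : X) 1 :=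
    hmem _ (convex_closedBall _ _) (fun i => by simpa using hy i)
  have hCconv : Convex ℝ C := (convex_stdSimplex ℝ _).linear_image Φ
  have hdist : ∀ x ∈ C, ∀ x' ∈ C, ‖x - x'‖ ≤ D := by
    intro x hx x' hx'
    have h1 : ∀ i, ‖y i - x'‖ ≤ D := by
      intro i
      have := hmem (Metric.closedBall (y i) D) (convex_closedBall _ _) (fun j => by
        rw [Metric.mem_closedBall, dist_eq_norm]
        exact hD j i) hx'
      rw [Metric.mem_closedBall, dist_eq_norm] at this
      rwa [norm_sub_rev]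
    have := hmem (Metric.closedBall x' D) (convex_closedBall _ _) (fun j => by
        rw [Metric.mem_closedBall, dist_eq_norm]
        exact h1 j) hx
    rwa [Metric.mem_closedBall, dist_eq_norm] at this
  have hD0 : 0 ≤ D := (norm_nonneg _).trans (hD 0 0)
  have hdiam : Metric.diam C ≤ D := by
    refine Metric.diam_le_of_forall_dist_le hD0 ?_
    intro x hx x' hx'
    rw [dist_eq_norm]
    exact hdist x hx x' hx'
  have hlow : ∀ x ∈ C, ∃ j, ((n : ℝ) / (n + 1)) * L ≤ ‖x - y j‖ := by
    intro x hx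
    obtain ⟨w, hw, rfl⟩ := hx
    -- some weight is at most 1/(n+1)
    have h1 : ∃ j, w j ≤ 1 / ((n : ℝ) + 1) := by
      by_contra hcon
      push Not at hcon
      have : ∑ _i : Fin (n + 1), 1 / ((n : ℝ) + 1) < ∑ i, w i :=
        Finset.sum_lt_sum_of_nonempty Finset.univ_nonempty (fun i _ => hcon i)
      rw [hw.2] at this
      simp only [Finset.sum_const, Finset.card_univ, Fintype.card_fin, nsmul_eq_mul] at this
      push_cast at this
      rw [mul_one_div_cancel (by positivity)] at this
      exact lt_irrefl _ this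
    obtain ⟨j, hj⟩ := h1
    refine ⟨j, ?_⟩
    obtain ⟨f, hfadd, hfsmul, hfle, hfL⟩ := hf j
    let fl : X →ₗ[ℝ] ℝ := { toFun := f, map_add' := hfadd, map_smul' := hfsmul }
    have h2 : y j - Φ w = ∑ i, w i • (y j - y i) := by
      rw [hΦa]
      simp only [smul_sub, Finset.sum_sub_distrib]
      rw [← Finset.sum_smul, hw.2, one_smul]
    have h3 : f (y j - Φ w) = ∑ i, w i * f (y j - y i) := by
      rw [h2]
      change fl _ = ∑ i, w i * fl (y j - y i)
      rw [map_sum]
      simp
    have h4 : (1 - w j) * L ≤ ∑ i, w i * f (y j - y i) := by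
      rw [← Finset.add_sum_erase _ _ (Finset.mem_univ j)]
      have h5 : f (y j - y j) = 0 := by
        have := hfsmul 0 (y j)
        simpa using this
      rw [h5, mul_zero, zero_add]
      have h6 : 1 - w j = ∑ i ∈ Finset.univ.erase j, w i := by
        have := Finset.add_sum_erase Finset.univ w (Finset.mem_univ j)
        rw [hw.2] at this
        linarith
      rw [h6, Finset.sum_mul]
      refine Finset.sum_le_sum ?_
      intro i hi
      exact mul_le_mul_of_nonneg_left (hfL i (Finset.ne_of_mem_erase hi)) (hw.1 i)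
    have h7 : ((n : ℝ) / (n + 1)) * L ≤ (1 - w j) * L := by
      refine mul_le_mul_of_nonneg_right ?_ hL.le
      have : (n : ℝ) / (n + 1) = 1 - 1 / ((n : ℝ) + 1) := by
        field_simp
        ring
      rw [this]
      linarith
    rw [norm_sub_rev]
    calc _ ≤ (1 - w j) * L := h7
      _ ≤ _ := h4
      _ = f (y j - Φ w) := h3.symm
      _ ≤ _ := hfle _
  have hnt : C.Nontrivial := by
    have h01 : (⟨0, by omega⟩ : Fin (n + 1)) ≠ ⟨1, by omega⟩ := by
      simp
    refine ⟨y ⟨0, by omega⟩, hyC _, y ⟨1, by omega⟩, hyC _, ?_⟩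
    intro heq
    obtain ⟨f, _, hfsmul, _, hfL⟩ := hf ⟨0, by omega⟩
    have h1 := hfL ⟨1, by omega⟩ h01.symm
    rw [heq, sub_self] at h1
    have h2 := hfsmul 0 0
    simp only [smul_zero, zero_mul] at h2
    linarith
  have h1 := hX C hCball hCconv hnt
  have hinf : ((n : ℝ) / (n + 1)) * L
      ≤ sInf ((fun x : X => sSup ((fun y : X => ‖x - y‖) '' C)) '' C) := by
    refine le_csInf ?_ ?_
    · exact (Set.Nonempty.image _ ⟨y 0, hyC 0⟩)
    · rintro _ ⟨x, hx, rfl⟩
      obtain ⟨j, hj⟩ := hlow x hx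
      refine hj.trans (le_csSup ?_ ⟨y j, hyC j, rfl⟩)
      refine ⟨D, ?_⟩
      rintro _ ⟨x', hx', rfl⟩
      exact hdist x hx x' hx'
  have hd0 : 0 ≤ Metric.diam C := Metric.diam_nonneg
  calc _ ≤ _ := hinf
    _ ≤ c * Metric.diam C := h1
    _ ≤ max c 0 * Metric.diam C := mul_le_mul_of_nonneg_right (le_max_left _ _) hd0
    _ ≤ max c 0 * D := mul_le_mul_of_nonneg_left hdiam (le_max_right _ _)

/-- scale-free version -/
theorem simplex_bound' {c : ℝ} (hX : UNSc X c) (n : ℕ) (hn : 1 ≤ n) (x : Fin (n + 1) → X)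
    (E η : ℝ) (hE : 0 < E) (hη : 0 ≤ η) (hη1 : 2 * n * η < 1)
    (hD : ∀ i j, i ≠ j → ‖x i - x j‖ ≤ (1 + η) * E)
    (hg : ∀ j, (1 - η) * E ≤ ‖x j - (1 / (n : ℝ)) • ∑ i ∈ Finset.univ.erase j, x i‖) :
    ((n : ℝ) / (n + 1)) * (1 - 2 * n * η) ≤ max c 0 * (1 + η) := by
  have hn' : (0 : ℝ) < n := by positivity
  have hD' : ∀ i j, ‖x i - x j‖ ≤ (1 + η) * E := by
    intro i j
    by_cases h : i = j
    · subst h
      simp only [sub_self, norm_zero]
      positivity
    · exact hD i j h
  set t : ℝ := 1 / ((1 + η) * E) with ht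
  have htpos : 0 < t := by positivity
  have htE : t * ((1 + η) * E) = 1 := by
    rw [ht]
    have : (1 + η) * E ≠ 0 := by positivity
    field_simp
  have key := simplex_bound hX n hn (fun i => t • (x i - x 0)) (by
      intro i
      rw [norm_smul, Real.norm_eq_abs, abs_of_pos htpos]
      calc t * ‖x i - x 0‖ ≤ t * ((1 + η) * E) :=
            mul_le_mul_of_nonneg_left (hD' i 0) htpos.le
        _ = 1 := htE) (t * ((1 + η) * E)) (t * ((1 - 2 * n * η) * E))
      (by
        have : 0 < 1 - 2 * n * η := by linarith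
        positivity)
      (by
        intro i j
        have : t • (x i - x 0) - t • (x j - x 0) = t • (x i - x j) := by module
        rw [this, norm_smul, Real.norm_eq_abs, abs_of_pos htpos]
        exact mul_le_mul_of_nonneg_left (hD' i j) htpos.le)
      (by
        intro j
        have hcard : (Finset.univ.erase j).card = n := by
          rw [Finset.card_erase_of_mem (Finset.mem_univ j), Finset.card_univ, Fintype.card_fin]
          omega
        set g := (1 / (n : ℝ)) • ∑ i ∈ Finset.univ.erase j, x i with hgdef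
        obtain ⟨f, hf1, hf2⟩ := exists_dual_vector'' ℝ (x j - g)
        have hfle : ∀ u, f u ≤ ‖u‖ := by
          intro u
          calc f u ≤ ‖f u‖ := Real.le_norm_self _
            _ ≤ ‖f‖ * ‖u‖ := f.le_opNorm u
            _ ≤ 1 * ‖u‖ := mul_le_mul_of_nonneg_right hf1 (norm_nonneg _)
            _ = ‖u‖ := one_mul _
        refine ⟨fun u => f u, fun u v => map_add f u v, fun s u => by simp, hfle, ?_⟩
        intro i hij
        have h1 : t • (x j - x 0) - t • (x i - x 0) = t • (x j - x i) := by module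
        simp only
        rw [h1, map_smul, smul_eq_mul]
        refine mul_le_mul_of_nonneg_left ?_ htpos.le
        -- f (x j - x i) is large
        have h2 : (n : ℝ) • (x j - g) = ∑ i ∈ Finset.univ.erase j, (x j - x i) := by
          rw [Finset.sum_sub_distrib, Finset.sum_const, hcard, smul_sub, hgdef, smul_smul,
            mul_one_div_cancel hn'.ne', one_smul, Nat.cast_smul_eq_nsmul]
        have h3 : (n : ℝ) * f (x j - g) = ∑ i ∈ Finset.univ.erase j, f (x j - x i) := by
          rw [← map_sum, ← h2, map_smul, smul_eq_mul]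
        have hfg : f (x j - g) = ‖x j - g‖ := by
          simpa using hf2
        have himem : i ∈ Finset.univ.erase j := Finset.mem_erase.mpr ⟨hij, Finset.mem_univ i⟩
        have h4 : ∑ k ∈ Finset.univ.erase j, f (x j - x k)
            ≤ f (x j - x i) + (n - 1) * ((1 + η) * E) := by
          rw [← Finset.add_sum_erase _ _ himem]
          have h5 : ∑ k ∈ (Finset.univ.erase j).erase i, f (x j - x k)
              ≤ ∑ k ∈ (Finset.univ.erase j).erase i, (1 + η) * E :=
            Finset.sum_le_sum (fun k _ => (hfle _).trans (hD' j k))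
          rw [Finset.sum_const, Finset.card_erase_of_mem himem, hcard, nsmul_eq_mul,
            Nat.cast_sub hn] at h5
          simp only [Nat.cast_one] at h5
          linarith
        have h6 := hg j
        rw [← hgdef] at h6
        have h7 : (n : ℝ) * ((1 - η) * E) ≤ f (x j - x i) + (n - 1) * ((1 + η) * E) := by
          calc (n : ℝ) * ((1 - η) * E) ≤ n * f (x j - g) := by
                rw [hfg]
                exact mul_le_mul_of_nonneg_left h6 hn'.le
            _ ≤ _ := by rw [h3]; exact h4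
        nlinarith [mul_nonneg hη hE.le])
  have h8 : (n : ℝ) / (n + 1) * (t * ((1 - 2 * n * η) * E))
      = ((n : ℝ) / (n + 1) * (1 - 2 * n * η)) * (t * E) := by ring
  have h9 : max c 0 * (t * ((1 + η) * E)) = (max c 0 * (1 + η)) * (t * E) := by ring
  rw [h8, h9] at key
  exact le_of_mul_le_mul_right key (by positivity)

end Pool.Agent.Lib.UNS
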